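import Mathlib

/-!
# Parameters and interval combinatorics
-/

namespace Pool.Agent.Helper64.Tight

/-- the weights -/
def mm (j : ℕ) : ℕ := 2 ^ (2 ^ j)

/-- the lengths -/
def nn : ℕ → ℕ
  | 0 => 1
  | (j + 1) => mm (j + 1) ^ 4 * (4 * nn j) ^ (2 * 2 ^ (j + 1) + 4)

lemma mm_pos (j : ℕ) : 0 < mm j := by unfold mm; positivity

lemma mm_succ (j : ℕ) : mm (j + 1) = mm j ^ 2 := by
  unfold mm
  rw [← pow_mul, pow_succ]

lemma mm_mono : Monotone mm := by
  refine monotone_nat_of_le_succ fun j => ?_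
  rw [mm_succ]
  exact Nat.le_self_pow (by norm_num) _

lemma four_le_mm {j : ℕ} (hj : 1 ≤ j) : 4 ≤ mm j := by
  calc 4 = mm 1 := rfl
    _ ≤ mm j := mm_mono hj

lemma two_pow_le_mm (j : ℕ) : 2 ^ (j + 1) ≤ mm j := by
  unfold mm
  exact Nat.pow_le_pow_right (by norm_num) Nat.lt_two_pow_self

lemma nn_pos (j : ℕ) : 0 < nn j := by
  induction j with
  | zero => exact Nat.one_pos
  | succ j ih =>
    unfold nn
    have := mm_pos (j + 1)
    positivity

lemma nn_succ (j : ℕ) : nn (j + 1) = mm (j + 1) ^ 4 * (4 * nn j) ^ (2 * 2 ^ (j + 1) + 4) := rfl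

lemma nn_le_succ (j : ℕ) : nn j ≤ nn (j + 1) := by
  rw [nn_succ]
  have h1 := mm_pos (j + 1)
  have h2 := nn_pos j
  calc nn j ≤ 4 * nn j := by omega
    _ ≤ (4 * nn j) ^ (2 * 2 ^ (j + 1) + 4) := Nat.le_self_pow (by positivity) _
    _ ≤ mm (j + 1) ^ 4 * (4 * nn j) ^ (2 * 2 ^ (j + 1) + 4) := Nat.le_mul_of_pos_left _ (by positivity)

lemma nn_mono : Monotone nn := monotone_nat_of_le_succ nn_le_succ

lemma self_le_nn (j : ℕ) : j ≤ nn j := by
  induction j with
  | zero => exact Nat.zero_le _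
  | succ j ih =>
    have h1 : 4 * nn j ≤ nn (j + 1) := by
      rw [nn_succ]
      have h1 := mm_pos (j + 1)
      calc 4 * nn j ≤ (4 * nn j) ^ (2 * 2 ^ (j + 1) + 4) := Nat.le_self_pow (by positivity) _
        _ ≤ mm (j + 1) ^ 4 * (4 * nn j) ^ (2 * 2 ^ (j + 1) + 4) := Nat.le_mul_of_pos_left _ (by positivity)
    have := nn_pos j
    omega

section
variable {d : ℕ} {a b : ℕ → ℕ}

/-- successive intervals `[a l, b l]` -/
def Succ (d : ℕ) (a b : ℕ → ℕ) : Prop :=
  (∀ l < d, a l < b l) ∧ ∀ l, l + 1 < d → b l ≤ a (l + 1)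

lemma Succ.le (h : Succ d a b) {l l' : ℕ} (hl : l < l') (hd : l' < d) : b l ≤ a l' := by
  induction l', hl using Nat.le_induction with
  | base => exact h.2 l hd
  | succ k hk ih =>
    have h1 := ih (by omega)
    have h2 := h.1 k (by omega)
    have h3 := h.2 k hd
    omega

lemma Succ.a_lt (h : Succ d a b) {l l' : ℕ} (hl : l < l') (hd : l' < d) : a l < a l' :=
  (h.1 l (by omega)).trans_le (h.le hl hd)

lemma Succ.b_lt (h : Succ d a b) {l l' : ℕ} (hl : l < l') (hd : l' < d) : b l < b l' :=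
  (h.le hl hd).trans_lt (h.1 l' hd)

lemma Succ.a_inj (h : Succ d a b) : Set.InjOn a (Finset.range d : Set ℕ) := by
  intro l hl l' hl' hll
  rw [Finset.coe_range, Set.mem_Iio] at hl hl'
  rcases lt_trichotomy l l' with h1 | h1 | h1
  · exact absurd hll (h.a_lt h1 hl').ne
  · exact h1
  · exact absurd hll (h.a_lt h1 hl).ne'

lemma Succ.b_inj (h : Succ d a b) : Set.InjOn b (Finset.range d : Set ℕ) := by
  intro l hl l' hl' hll
  rw [Finset.coe_range, Set.mem_Iio] at hl hl'
  rcases lt_trichotomy l l' with h1 | h1 | h1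
  · exact absurd hll (h.b_lt h1 hl').ne
  · exact h1
  · exact absurd hll (h.b_lt h1 hl).ne'

lemma Succ.a_ge (h : Succ d a b) {l : ℕ} (hd : l < d) : a 0 + l ≤ a l := by
  induction l with
  | zero => omega
  | succ k ih =>
    have h1 := ih (by omega)
    have h2 := h.a_lt (show k < k + 1 by omega) hd
    omega

lemma sum_two_pow_le (h : Succ d a b) (c : ℕ) :
    ∑ l ∈ (Finset.range d).filter (fun l => b l ≤ c), (2 : ℝ) ^ (b l) ≤ 2 ^ (c + 1) := by
  have h1 : Set.InjOn b ((Finset.range d).filter (fun l => b l ≤ c) : Set ℕ) := by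
    refine h.b_inj.mono ?_
    intro l hl
    exact (Finset.mem_filter.1 hl).1
  rw [← Finset.sum_image (f := fun e => (2 : ℝ) ^ e) h1]
  have h2 : ((Finset.range d).filter (fun l => b l ≤ c)).image b ⊆ Finset.range (c + 1) := by
    intro e he
    rw [Finset.mem_image] at he
    obtain ⟨l, hl, rfl⟩ := he
    rw [Finset.mem_range]
    have := (Finset.mem_filter.1 hl).2
    omega
  refine (Finset.sum_le_sum_of_subset_of_nonneg h2 (fun _ _ _ => by positivity)).trans ?_
  rw [geom_sum_eq (by norm_num)]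
  have : (0 : ℝ) < 2 ^ (c + 1) := by positivity
  rw [div_le_iff₀ (by norm_num)]
  linarith

lemma sum_geom_tail (s : Finset ℕ) (c : ℕ) (hs : ∀ e ∈ s, c ≤ e) :
    ∑ e ∈ s, ((4 : ℝ) ^ e)⁻¹ ≤ 2 * ((4 : ℝ) ^ c)⁻¹ := by
  have h1 : s.image (fun e => e - c) ⊆ Finset.range (s.sup id + 1) := by
    intro e he
    rw [Finset.mem_image] at he
    obtain ⟨l, hl, rfl⟩ := he
    rw [Finset.mem_range]
    have : id l ≤ s.sup id := Finset.le_sup hl
    simp only [id] at this
    omega
  have h2 : Set.InjOn (fun e => e - c) (s : Set ℕ) := by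
    intro e he e' he' h
    have h3 := hs e he
    have h4 := hs e' he'
    dsimp only at h
    omega
  have h3 : ∑ e ∈ s, ((4 : ℝ) ^ e)⁻¹ = ((4 : ℝ) ^ c)⁻¹ * ∑ e ∈ s.image (fun e => e - c), ((4 : ℝ)⁻¹) ^ e := by
    rw [Finset.sum_image h2, Finset.mul_sum]
    refine Finset.sum_congr rfl fun e he => ?_
    rw [inv_pow, ← mul_inv, ← pow_add]
    congr 2
    have := hs e he
    omega
  rw [h3, mul_comm]
  refine mul_le_mul_of_nonneg_right ?_ (by positivity)
  refine (Finset.sum_le_sum_of_subset_of_nonneg h1 (fun _ _ _ => by positivity)).trans ?_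
  have h4 : ∀ N : ℕ, ∑ e ∈ Finset.range N, ((4 : ℝ)⁻¹) ^ e ≤ 2 := by
    intro N
    rw [geom_sum_eq (by norm_num)]
    have h5 : (0 : ℝ) ≤ (4⁻¹) ^ N := by positivity
    rw [div_le_iff_of_neg (by norm_num)]
    linarith
  exact h4 _

lemma sum_four_inv_le (h : Succ d a b) (c : ℕ) :
    ∑ l ∈ (Finset.range d).filter (fun l => c ≤ a l), ((4 : ℝ) ^ (a l))⁻¹ ≤ 2 * ((4 : ℝ) ^ c)⁻¹ := by
  have h1 : Set.InjOn a ((Finset.range d).filter (fun l => c ≤ a l) : Set ℕ) := by
    refine h.a_inj.mono ?_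
    intro l hl
    exact (Finset.mem_filter.1 hl).1
  rw [← Finset.sum_image (f := fun e => ((4 : ℝ) ^ e)⁻¹) h1]
  refine sum_geom_tail _ c ?_
  intro e he
  rw [Finset.mem_image] at he
  obtain ⟨l, hl, rfl⟩ := he
  exact (Finset.mem_filter.1 hl).2

lemma card_see_le (h : Succ d a b) (c' : ℕ) (p : ℕ → Prop) [DecidablePred p] :
    ((Finset.range d).filter (fun l => a l < c' ∧ p l)).card ≤ c' := by
  have h1 : Set.InjOn a ((Finset.range d).filter (fun l => a l < c' ∧ p l) : Set ℕ) := by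
    refine h.a_inj.mono ?_
    intro l hl
    exact (Finset.mem_filter.1 hl).1
  rw [← Finset.card_image_of_injOn h1]
  calc (((Finset.range d).filter (fun l => a l < c' ∧ p l)).image a).card ≤ (Finset.range c').card := by
        refine Finset.card_le_card ?_
        intro e he
        rw [Finset.mem_image] at he
        obtain ⟨l, hl, rfl⟩ := he
        exact Finset.mem_range.2 (Finset.mem_filter.1 hl).2.1
    _ = c' := Finset.card_range c'

lemma card_straddle_le (h : Succ d a b) (c : ℕ) :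
    ((Finset.range d).filter (fun l => a l ≤ c ∧ c < b l)).card ≤ 1 := by
  rw [Finset.card_le_one]
  intro l hl l' hl'
  rw [Finset.mem_filter, Finset.mem_range] at hl hl'
  rcases lt_trichotomy l l' with h1 | h1 | h1
  · have := h.le h1 hl'.1; omega
  · exact h1
  · have := h.le h1 hl.1; omega

end

end Pool.Agent.Helper64.Tight
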