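import Mathlib
import Pool.Agent.Helper64.Tight.Param

/-!
# The measure and the base family
-/

open MeasureTheory
open scoped ENNReal symmDiff

namespace Pool.Agent.Helper64.Tight

/-- Lebesgue measure on `[0,1]` -/
noncomputable def mu : Measure ℝ := volume.restrict (Set.Icc 0 1)

instance : IsProbabilityMeasure mu := ⟨by
  unfold mu
  rw [Measure.restrict_apply MeasurableSet.univ, Set.univ_inter, Real.volume_Icc]
  simp⟩

lemma cs {f g : ℝ → ℝ} (hf : MemLp f 2 mu) (hg : MemLp g 2 mu) (hf0 : ∀ t, 0 ≤ f t) (hg0 : ∀ t, 0 ≤ g t) :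
    ∫ t, f t * g t ∂mu ≤ √(∫ t, f t ^ 2 ∂mu) * √(∫ t, g t ^ 2 ∂mu) := by
  have h := integral_mul_le_Lp_mul_Lq_of_nonneg (μ := mu) (p := 2) (q := 2) (f := f) (g := g)
    Real.HolderConjugate.two_two (Filter.Eventually.of_forall hf0) (Filter.Eventually.of_forall hg0)
    (by simpa using hf) (by simpa using hg)
  simp only [Real.rpow_ofNat] at h
  rw [Real.sqrt_eq_rpow, Real.sqrt_eq_rpow]
  exact h

lemma memLp_of_bdd {f : ℝ → ℝ} (hf : Measurable f) (h0 : ∀ t, 0 ≤ f t) {C : ℝ} (hC : ∀ t, f t ≤ C) (p : ℝ≥0∞) :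
    MemLp f p mu := by
  refine MemLp.of_bound hf.aestronglyMeasurable C (Filter.Eventually.of_forall fun t => ?_)
  rw [Real.norm_of_nonneg (h0 t)]
  exact hC t

lemma exists_sets : ∃ E : ℕ → Set ℝ, (∀ i, MeasurableSet (E i)) ∧
    ∀ A, MeasurableSet A → ∀ ε : ℝ, 0 < ε → ∃ i, mu (A ∆ E i) < ENNReal.ofReal ε := by
  obtain ⟨𝒜, hc, hd⟩ := exists_countable_measureDense mu
  obtain ⟨E, hE⟩ := hc.exists_eq_range hd.nonempty
  refine ⟨E, fun i => hd.measurable _ (hE ▸ ⟨i, rfl⟩), ?_⟩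
  intro A hA ε hε
  obtain ⟨t, ht, h⟩ := hd.approx A hA (measure_ne_top _ _) ε hε
  rw [hE] at ht
  obtain ⟨i, rfl⟩ := ht
  exact ⟨i, h⟩

lemma sq_norm_toLp {f : ℝ → ℝ} (hf : MemLp f 2 mu) : ‖hf.toLp f‖ = √(∫ t, f t ^ 2 ∂mu) := by
  have h1 : ‖hf.toLp f‖ ^ 2 = ∫ t, f t ^ 2 ∂mu := by
    rw [← real_inner_self_eq_norm_sq, L2.inner_def]
    refine integral_congr_ae ?_
    filter_upwards [hf.coeFn_toLp] with t ht
    rw [ht]
    simp [sq]
  rw [← h1, Real.sqrt_sq (norm_nonneg _)]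

lemma exists_functions : ∃ h : ℕ → ℝ → ℝ, (∀ i, Measurable (h i)) ∧ (∀ i t, 0 ≤ h i t) ∧
    (∀ i, ∃ C, ∀ t, h i t ≤ C) ∧ (∀ i, ∫ t, h i t ^ 2 ∂mu ≤ 1) ∧
    ∀ x : ℝ → ℝ, (∀ t, 0 ≤ x t) → MemLp x 2 mu → ∀ ε : ℝ, 0 < ε →
      ∃ i, √(∫ t, x t ^ 2 ∂mu) - ε ≤ ∫ t, h i t * x t ∂mu := by
  classical
  -- the class of functions
  set S : Set (Lp ℝ 2 mu) := {g | ∃ f : ℝ → ℝ, ∃ hf : MemLp f 2 mu, g = hf.toLp f ∧ Measurable f ∧
    (∀ t, 0 ≤ f t) ∧ (∃ C, ∀ t, f t ≤ C) ∧ ∫ t, f t ^ 2 ∂mu ≤ 1} with hS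
  have hne : Nonempty S := by
    refine ⟨⟨(MemLp.zero' : MemLp (fun _ : ℝ => (0 : ℝ)) 2 mu).toLp _, ?_⟩⟩
    exact ⟨fun _ => 0, MemLp.zero', rfl, measurable_const, fun _ => le_rfl, ⟨0, fun _ => le_rfl⟩, by simp⟩
  have : Fact ((2 : ℝ≥0∞) ≠ ∞) := ⟨by norm_num⟩
  have : SecondCountableTopology (Lp ℝ 2 mu) := inferInstance
  obtain ⟨T, hTc, hTd⟩ := TopologicalSpace.exists_countable_dense S
  obtain ⟨g, hg⟩ := hTc.exists_eq_range hTd.nonempty
  choose f hfL hfe hfm hf0 hfb hfn using fun i => (g i).2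
  refine ⟨f, hfm, hf0, hfb, hfn, ?_⟩
  intro x hx0 hx ε hε
  -- truncations
  set R := √(∫ t, x t ^ 2 ∂mu) with hR
  rcases (Real.sqrt_nonneg (∫ t, x t ^ 2 ∂mu)).eq_or_lt with h0 | hRpos
  · refine ⟨0, ?_⟩
    rw [hR, ← h0]
    have : 0 ≤ ∫ t, f 0 t * x t ∂mu := integral_nonneg fun t => mul_nonneg (hf0 0 t) (hx0 t)
    linarith
  rw [← hR] at hRpos
  have hR2 : ∫ t, x t ^ 2 ∂mu = R ^ 2 := by
    rw [hR, Real.sq_sqrt (integral_nonneg fun t => sq_nonneg _)]
  have hxm := hx.aestronglyMeasurable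
  obtain ⟨y, hym, hxy⟩ := hxm
  -- a measurable nonnegative version
  set z : ℝ → ℝ := fun t => max (y t) 0 with hz
  have hzm : Measurable z := hym.measurable.max measurable_const
  have hz0 : ∀ t, 0 ≤ z t := fun t => le_max_right _ _
  have hzx : x =ᵐ[mu] z := by
    filter_upwards [hxy] with t ht
    rw [hz]
    dsimp only
    rw [← ht, max_eq_left (hx0 t)]
  have hzL : MemLp z 2 mu := hx.ae_eq hzx
  have hlim : Filter.Tendsto (fun n : ℕ => ∫ t, min (z t) n * z t ∂mu) Filter.atTop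
      (nhds (∫ t, z t ^ 2 ∂mu)) := by
    refine tendsto_integral_of_dominated_convergence (fun t => z t ^ 2) ?_ ?_ ?_ ?_
    · intro n
      exact ((hzm.min measurable_const).mul hzm).aestronglyMeasurable
    · exact hzL.integrable_sq
    · intro n
      refine Filter.Eventually.of_forall fun t => ?_
      rw [Real.norm_of_nonneg (mul_nonneg (le_min (hz0 t) (Nat.cast_nonneg n)) (hz0 t)), sq]
      exact mul_le_mul_of_nonneg_right (min_le_left _ _) (hz0 t)
    · refine Filter.Eventually.of_forall fun t => ?_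
      refine tendsto_const_nhds.congr' ?_
      obtain ⟨N, hN⟩ := exists_nat_ge (z t)
      filter_upwards [Filter.eventually_ge_atTop N] with n hn
      have : z t ≤ n := hN.trans (by exact_mod_cast hn)
      rw [min_eq_left this, sq]
  have hzR : ∫ t, z t ^ 2 ∂mu = R ^ 2 := by
    rw [← hR2]
    refine integral_congr_ae ?_
    filter_upwards [hzx] with t ht
    rw [ht]
  rw [hzR] at hlim
  obtain ⟨n, hn⟩ := (hlim.eventually (lt_mem_nhds (show R ^ 2 - R * (ε / 2) < R ^ 2 by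
    have : 0 < R * (ε / 2) := by positivity
    linarith))).exists
  -- the approximating function
  set G : ℝ → ℝ := fun t => min (z t) n / R with hG
  have hGm : Measurable G := (hzm.min measurable_const).div_const _
  have hG0 : ∀ t, 0 ≤ G t := fun t => div_nonneg (le_min (hz0 t) (Nat.cast_nonneg n)) hRpos.le
  have hGb : ∀ t, G t ≤ n / R := fun t => div_le_div_of_nonneg_right (min_le_right _ _) hRpos.le
  have hGL : MemLp G 2 mu := memLp_of_bdd hGm hG0 hGb 2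
  have hGn : ∫ t, G t ^ 2 ∂mu ≤ 1 := by
    have h1 : ∫ t, G t ^ 2 ∂mu ≤ ∫ t, z t ^ 2 / R ^ 2 ∂mu := by
      refine integral_mono hGL.integrable_sq (hzL.integrable_sq.div_const _) fun t => ?_
      dsimp only
      rw [hG]
      dsimp only
      rw [div_pow]
      refine div_le_div_of_nonneg_right ?_ (by positivity)
      exact pow_le_pow_left₀ (le_min (hz0 t) (Nat.cast_nonneg n)) (min_le_left _ _) 2
    refine h1.trans ?_
    rw [integral_div, hzR, div_self (by positivity)]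
  have hGS : hGL.toLp G ∈ S := ⟨G, hGL, rfl, hGm, hG0, ⟨_, hGb⟩, hGn⟩
  obtain ⟨τ, hτT, hτ⟩ := Metric.dense_iff.1 hTd ⟨hGL.toLp G, hGS⟩ (ε / (2 * R)) (by positivity)
  rw [hg] at hτ
  obtain ⟨i, rfl⟩ := hτ
  refine ⟨i, ?_⟩
  rw [Metric.mem_ball, Subtype.dist_eq, hfe i, dist_eq_norm, ← MemLp.toLp_sub] at hτT
  rw [sq_norm_toLp] at hτT
  have hdiff : MemLp (fun t => |G t - f i t|) 2 mu := (hGL.sub (hfL i)).norm
  have hcs := cs hdiff hzL (fun t => abs_nonneg _) hz0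
  have e1 : ∫ t, |G t - f i t| ^ 2 ∂mu = ∫ t, (f i - G) t ^ 2 ∂mu := by
    refine integral_congr_ae (Filter.Eventually.of_forall fun t => ?_)
    dsimp only
    rw [sq_abs, Pi.sub_apply]
    ring
  rw [e1, hzR, Real.sqrt_sq hRpos.le] at hcs
  have h2 : ∫ t, |G t - f i t| * z t ∂mu ≤ ε / 2 := by
    refine hcs.trans ?_
    calc √(∫ t, (f i - G) t ^ 2 ∂mu) * R ≤ ε / (2 * R) * R := mul_le_mul_of_nonneg_right hτT.le hRpos.le
      _ = ε / 2 := by field_simp
  have hi1 : Integrable (fun t => G t * z t) mu := hGL.integrable_mul hzL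
  have hi2 : Integrable (fun t => f i t * z t) mu := (hfL i).integrable_mul hzL
  have hi3 : Integrable (fun t => |G t - f i t| * z t) mu := hdiff.integrable_mul hzL
  have h3 : ∫ t, G t * z t ∂mu - ∫ t, f i t * z t ∂mu ≤ ε / 2 := by
    rw [← integral_sub hi1 hi2]
    refine le_trans (integral_mono (hi1.sub hi2) hi3 fun t => ?_) h2
    dsimp only
    rw [← sub_mul]
    exact mul_le_mul_of_nonneg_right (le_abs_self _) (hz0 t)
  have h4 : R - ε / 2 ≤ ∫ t, G t * z t ∂mu := by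
    have e2 : ∫ t, G t * z t ∂mu = (∫ t, min (z t) n * z t ∂mu) / R := by
      rw [← integral_div]
      refine integral_congr_ae (Filter.Eventually.of_forall fun t => ?_)
      dsimp only
      rw [hG]
      dsimp only
      ring
    rw [e2, le_div_iff₀ hRpos]
    nlinarith
  have h5 : ∫ t, f i t * x t ∂mu = ∫ t, f i t * z t ∂mu := by
    refine integral_congr_ae ?_
    filter_upwards [hzx] with t ht
    rw [ht]
  rw [h5]
  linarith

end Pool.Agent.Helper64.Tight
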