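import Mathlib
import Pool.Agent.Helper64.Tight.Base

/-!
# The norming set
-/

open MeasureTheory
open scoped ENNReal symmDiff

namespace Pool.Agent.Helper64.Tight

/-- base functions -/
noncomputable def bh : ℕ → ℝ → ℝ := exists_functions.choose

/-- base sets -/
noncomputable def bE : ℕ → Set ℝ := exists_sets.choose

lemma bh_meas (i : ℕ) : Measurable (bh i) := exists_functions.choose_spec.1 i

lemma bh_nn (i : ℕ) (t : ℝ) : 0 ≤ bh i t := exists_functions.choose_spec.2.1 i t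

lemma bh_bdd (i : ℕ) : ∃ C, ∀ t, bh i t ≤ C := exists_functions.choose_spec.2.2.1 i

lemma bh_norm (i : ℕ) : ∫ t, bh i t ^ 2 ∂mu ≤ 1 := exists_functions.choose_spec.2.2.2.1 i

lemma bh_dense (x : ℝ → ℝ) (hx0 : ∀ t, 0 ≤ x t) (hx : MemLp x 2 mu) (ε : ℝ) (hε : 0 < ε) :
    ∃ i, √(∫ t, x t ^ 2 ∂mu) - ε ≤ ∫ t, bh i t * x t ∂mu :=
  exists_functions.choose_spec.2.2.2.2 x hx0 hx ε hε

lemma bE_meas (i : ℕ) : MeasurableSet (bE i) := exists_sets.choose_spec.1 i

lemma bE_dense (A : Set ℝ) (hA : MeasurableSet A) (ε : ℝ) (hε : 0 < ε) :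
    ∃ i, mu (A ∆ bE i) < ENNReal.ofReal ε := exists_sets.choose_spec.2 A hA ε hε

/-- the elementary functions -/
noncomputable def ev1 (q : ℚ × ℕ × List ℕ) (t : ℝ) : ℝ :=
  (q.1 : ℝ) * bh q.2.1 t * (q.2.2.map (fun i => (bE i).indicator (fun _ => (1 : ℝ)) t)).prod

/-- sums of elementary functions -/
noncomputable def evL (L : List (ℚ × ℕ × List ℕ)) (t : ℝ) : ℝ := (L.map (fun q => ev1 q t)).sum

/-- the countable family of functions -/
def DD : Set (ℝ → ℝ) := Set.range evL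

lemma DD_countable : DD.Countable := Set.countable_range _

lemma DD_base (i : ℕ) : bh i ∈ DD := by
  refine ⟨[(1, i, [])], ?_⟩
  funext t
  simp [evL, ev1]

lemma DD_zero : (fun _ => 0 : ℝ → ℝ) ∈ DD := ⟨[], by funext t; simp [evL]⟩

lemma DD_add {f g : ℝ → ℝ} (hf : f ∈ DD) (hg : g ∈ DD) : (fun t => f t + g t) ∈ DD := by
  obtain ⟨L, rfl⟩ := hf
  obtain ⟨L', rfl⟩ := hg
  refine ⟨L ++ L', ?_⟩
  funext t
  simp [evL]

lemma DD_smul (r : ℚ) {f : ℝ → ℝ} (hf : f ∈ DD) : (fun t => (r : ℝ) * f t) ∈ DD := by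
  obtain ⟨L, rfl⟩ := hf
  refine ⟨L.map (fun q => (r * q.1, q.2)), ?_⟩
  funext t
  unfold evL
  rw [List.map_map]
  induction L with
  | nil => simp
  | cons q L ih =>
    rw [List.map_cons, List.sum_cons, List.map_cons, List.sum_cons, mul_add, ← ih]
    congr 1
    simp only [Function.comp, ev1]
    push_cast
    ring

lemma DD_indicator (i : ℕ) {f : ℝ → ℝ} (hf : f ∈ DD) : (bE i).indicator f ∈ DD := by
  obtain ⟨L, rfl⟩ := hf
  refine ⟨L.map (fun q => (q.1, q.2.1, i :: q.2.2)), ?_⟩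
  funext t
  unfold evL
  by_cases ht : t ∈ bE i
  · rw [Set.indicator_of_mem ht, List.map_map]
    congr 1
    refine List.map_congr_left fun q _ => ?_
    simp only [Function.comp, ev1, List.map_cons, List.prod_cons]
    rw [Set.indicator_of_mem ht, one_mul]
  · rw [Set.indicator_of_notMem ht, List.map_map]
    refine List.sum_eq_zero ?_
    intro y hy
    rw [List.mem_map] at hy
    obtain ⟨q, _, rfl⟩ := hy
    simp only [Function.comp, ev1, List.map_cons, List.prod_cons]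
    rw [Set.indicator_of_notMem ht]
    ring

lemma DD_sum (d : ℕ) (F : ℕ → ℝ → ℝ) (h : ∀ l < d, F l ∈ DD) :
    (fun t => ∑ l ∈ Finset.range d, F l t) ∈ DD := by
  induction d with
  | zero => simpa using DD_zero
  | succ d ih =>
    simp_rw [Finset.sum_range_succ]
    exact DD_add (ih fun l hl => h l (by omega)) (h d (by omega))

/-- enumeration of the family -/
noncomputable def enc : (ℝ → ℝ) → ℕ := (Set.countable_iff_exists_injOn.1 DD_countable).choose

lemma enc_inj : Set.InjOn enc DD := (Set.countable_iff_exists_injOn.1 DD_countable).choose_spec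

/-- the coding function -/
noncomputable def code (L : List ((ℝ → ℝ) × ℕ)) : ℕ :=
  Nat.pair (Encodable.encode (L.map (fun p => (enc p.1, p.2)))) (L.map Prod.snd).sum

lemma code_inj {L L' : List ((ℝ → ℝ) × ℕ)} (hL : ∀ p ∈ L, p.1 ∈ DD) (hL' : ∀ p ∈ L', p.1 ∈ DD)
    (h : code L = code L') : L = L' := by
  unfold code at h
  rw [Nat.pair_eq_pair] at h
  have h1 := Encodable.encode_injective h.1
  clear h
  induction L generalizing L' with
  | nil =>
    rw [List.map_nil, eq_comm, List.map_eq_nil_iff] at h1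
    rw [h1]
  | cons p L ih =>
    cases L' with
    | nil => simp at h1
    | cons p' L' =>
      rw [List.map_cons, List.map_cons, List.cons.injEq, Prod.mk.injEq] at h1
      have h2 := enc_inj (hL p List.mem_cons_self) (hL' p' List.mem_cons_self) h1.1.1
      rw [ih (fun q hq => hL q (List.mem_cons_of_mem _ hq)) (fun q hq => hL' q (List.mem_cons_of_mem _ hq)) h1.2]
      rw [Prod.ext h2 h1.1.2]

lemma le_code {L : List ((ℝ → ℝ) × ℕ)} {p : (ℝ → ℝ) × ℕ} (hp : p ∈ L) : p.2 ≤ code L := by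
  unfold code
  refine le_trans ?_ (Nat.right_le_pair _ _)
  exact List.le_sum_of_mem (List.mem_map_of_mem hp)

/-- initial part of the list of children -/
def pre (F : ℕ → ℝ → ℝ) (b : ℕ → ℕ) (l : ℕ) : List ((ℝ → ℝ) × ℕ) := (List.range l).map (fun i => (F i, b i))

lemma pre_length (F : ℕ → ℝ → ℝ) (b : ℕ → ℕ) (l : ℕ) : (pre F b l).length = l := by simp [pre]

lemma mem_pre (F : ℕ → ℝ → ℝ) (b : ℕ → ℕ) {i l : ℕ} (h : i < l) : (F i, b i) ∈ pre F b l := by
  unfold pre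
  exact List.mem_map_of_mem (List.mem_range.2 h)

lemma pre_eq_iff (F F' : ℕ → ℝ → ℝ) (b b' : ℕ → ℕ) (l : ℕ) :
    pre F b l = pre F' b' l ↔ ∀ i < l, F i = F' i ∧ b i = b' i := by
  unfold pre
  rw [List.map_inj_left]
  simp only [List.mem_range, Prod.mk.injEq]

/-- the norming set, graded by weight; weight `0` means a base function -/
inductive W : ℕ → (ℝ → ℝ) → Prop
  | base (i : ℕ) : W 0 (bh i)
  | restr (j : ℕ) (f : ℝ → ℝ) (i : ℕ) : W j f → W j ((bE i).indicator f)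
  | node (j d : ℕ) (F : ℕ → ℝ → ℝ) (w a b : ℕ → ℕ) (hj : 2 ≤ j) (he : Even j) (hd : d ≤ nn j)
      (hW : ∀ l < d, W (w l) (F l)) (hs : Succ d a b)
      (hsupp : ∀ l < d, mu.real {t | F l t ≠ 0} ≤ ((16 : ℝ) ^ (a l))⁻¹)
      (hbd : ∀ l < d, ∀ t, F l t ≤ 2 ^ (b l)) :
      W j (fun t => (mm j : ℝ)⁻¹ * ∑ l ∈ Finset.range d, F l t)
  | special (j d : ℕ) (F : ℕ → ℝ → ℝ) (w a b : ℕ → ℕ) (hj : 3 ≤ j) (ho : Odd j) (hd : d ≤ nn j)
      (hW : ∀ l < d, W (w l) (F l)) (hs : Succ d a b)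
      (hsupp : ∀ l < d, mu.real {t | F l t ≠ 0} ≤ ((16 : ℝ) ^ (a l))⁻¹)
      (hbd : ∀ l < d, ∀ t, F l t ≤ 2 ^ (b l))
      (hbig : ∀ l < d, 1 ≤ w l ∧ Even (w l) ∧ nn j ^ 2 ≤ mm (w l))
      (hcode : ∀ l, l + 1 < d → w (l + 1) = 2 * code (pre F b (l + 1))) :
      W j (fun t => (mm j : ℝ)⁻¹ * ∑ l ∈ Finset.range d, F l t)

lemma W.mem_DD {j : ℕ} {f : ℝ → ℝ} (h : W j f) : f ∈ DD := by
  induction h with
  | base i => exact DD_base i
  | restr j f i _ ih => exact DD_indicator i ih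
  | node j d F w a b hj he hd hW hs hsupp hbd ih =>
    have := DD_smul ((mm j : ℚ)⁻¹) (DD_sum d F ih)
    push_cast at this
    exact this
  | special j d F w a b hj ho hd hW hs hsupp hbd hbig hcode ih =>
    have := DD_smul ((mm j : ℚ)⁻¹) (DD_sum d F ih)
    push_cast at this
    exact this

lemma W.meas {j : ℕ} {f : ℝ → ℝ} (h : W j f) : Measurable f := by
  induction h with
  | base i => exact bh_meas i
  | restr j f i _ ih => exact ih.indicator (bE_meas i)
  | node j d F w a b hj he hd hW hs hsupp hbd ih =>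
    exact (Finset.measurable_sum _ fun l hl => ih l (Finset.mem_range.1 hl)).const_mul _
  | special j d F w a b hj ho hd hW hs hsupp hbd hbig hcode ih =>
    exact (Finset.measurable_sum _ fun l hl => ih l (Finset.mem_range.1 hl)).const_mul _

lemma W.nn {j : ℕ} {f : ℝ → ℝ} (h : W j f) (t : ℝ) : 0 ≤ f t := by
  induction h with
  | base i => exact bh_nn i t
  | restr j f i _ ih => exact Set.indicator_apply_nonneg (fun _ => ih)
  | node j d F w a b hj he hd hW hs hsupp hbd ih =>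
    exact mul_nonneg (by positivity) (Finset.sum_nonneg fun l hl => ih l (Finset.mem_range.1 hl))
  | special j d F w a b hj ho hd hW hs hsupp hbd hbig hcode ih =>
    exact mul_nonneg (by positivity) (Finset.sum_nonneg fun l hl => ih l (Finset.mem_range.1 hl))

lemma W.bdd {j : ℕ} {f : ℝ → ℝ} (h : W j f) : ∃ C, 0 ≤ C ∧ ∀ t, f t ≤ C := by
  induction h with
  | base i =>
    obtain ⟨C, hC⟩ := bh_bdd i
    exact ⟨C, (bh_nn i 0).trans (hC 0), hC⟩
  | restr j f i _ ih =>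
    obtain ⟨C, hC0, hC⟩ := ih
    exact ⟨C, hC0, fun t => Set.indicator_le' (fun t _ => hC t) (fun t _ => hC0) t⟩
  | node j d F w a b hj he hd hW hs hsupp hbd ih =>
    refine ⟨(mm j : ℝ)⁻¹ * ∑ l ∈ Finset.range d, 2 ^ (b l), by positivity, fun t => ?_⟩
    exact mul_le_mul_of_nonneg_left (Finset.sum_le_sum fun l hl => hbd l (Finset.mem_range.1 hl) t)
      (by positivity)
  | special j d F w a b hj ho hd hW hs hsupp hbd hbig hcode ih =>
    refine ⟨(mm j : ℝ)⁻¹ * ∑ l ∈ Finset.range d, 2 ^ (b l), by positivity, fun t => ?_⟩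
    exact mul_le_mul_of_nonneg_left (Finset.sum_le_sum fun l hl => hbd l (Finset.mem_range.1 hl) t)
      (by positivity)

lemma W.memLp {j : ℕ} {f : ℝ → ℝ} (h : W j f) (p : ℝ≥0∞) : MemLp f p mu := by
  obtain ⟨C, _, hC⟩ := h.bdd
  exact memLp_of_bdd h.meas h.nn hC p

/-- the pairing -/
noncomputable def pr (f x : ℝ → ℝ) : ℝ := ∫ t, f t * x t ∂mu

/-- normal form of a function of positive weight -/
lemma W.form {i : ℕ} {f : ℝ → ℝ} (h : W i f) (hi : 1 ≤ i) :
    ∃ (d : ℕ) (F : ℕ → ℝ → ℝ) (w a b : ℕ → ℕ), d ≤ Tight.nn i ∧ (∀ l < d, W (w l) (F l)) ∧ Succ d a b ∧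
      (∀ l < d, mu.real {t | F l t ≠ 0} ≤ ((16 : ℝ) ^ (a l))⁻¹) ∧
      (∀ l < d, ∀ t, F l t ≤ 2 ^ (b l)) ∧
      W i (fun t => (mm i : ℝ)⁻¹ * ∑ l ∈ Finset.range d, F l t) ∧
      (∀ t, f t ≤ (mm i : ℝ)⁻¹ * ∑ l ∈ Finset.range d, F l t) ∧
      (Odd i → (∀ l < d, 1 ≤ w l ∧ Even (w l) ∧ Tight.nn i ^ 2 ≤ mm (w l)) ∧
        (∀ l, l + 1 < d → w (l + 1) = 2 * code (pre F b (l + 1)))) := by
  induction h with
  | base i => omega
  | restr j f i h ih =>
    obtain ⟨d, F, w, a, b, h1, h2, h3, h4, h5, h6, h7, h8⟩ := ih hi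
    refine ⟨d, F, w, a, b, h1, h2, h3, h4, h5, h6, fun t => ?_, h8⟩
    refine le_trans ?_ (h7 t)
    exact Set.indicator_le_self' (fun _ _ => h.nn t) t
  | node j d F w a b hj he hd hW hs hsupp hbd ih =>
    refine ⟨d, F, w, a, b, hd, hW, hs, hsupp, hbd, W.node j d F w a b hj he hd hW hs hsupp hbd,
      fun t => le_rfl, fun ho => ?_⟩
    exact absurd he (Nat.not_even_iff_odd.2 ho)
  | special j d F w a b hj ho hd hW hs hsupp hbd hbig hcode ih =>
    exact ⟨d, F, w, a, b, hd, hW, hs, hsupp, hbd,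
      W.special j d F w a b hj ho hd hW hs hsupp hbd hbig hcode, fun t => le_rfl, fun _ => ⟨hbig, hcode⟩⟩

end Pool.Agent.Helper64.Tight
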