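import Mathlib
import Pool.Agent.Helper64.Tight.WDef

/-!
# Integrals of elements of the norming set over small sets
-/

open MeasureTheory
open scoped ENNReal symmDiff

namespace Pool.Agent.Helper64.Tight

lemma sqrt_sixteen_inv (a : ℕ) : √(((16 : ℝ) ^ a)⁻¹) = ((4 : ℝ) ^ a)⁻¹ := by
  have : ((16 : ℝ) ^ a)⁻¹ = (((4 : ℝ) ^ a)⁻¹) ^ 2 := by
    rw [inv_pow, ← pow_mul, mul_comm a 2, pow_mul]
    norm_num
  rw [this, Real.sqrt_sq (by positivity)]

lemma c1_node (m : ℝ) (hm : 4 ≤ m) (d : ℕ) (F : ℕ → ℝ → ℝ) (a b : ℕ → ℕ) (hs : Succ d a b)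
    (hF : ∀ l < d, Integrable (F l) mu) (h0 : ∀ l < d, ∀ t, 0 ≤ F l t) (hmeas : ∀ l < d, Measurable (F l))
    (hsupp : ∀ l < d, mu.real {t | F l t ≠ 0} ≤ ((16 : ℝ) ^ (a l))⁻¹)
    (hbd : ∀ l < d, ∀ t, F l t ≤ 2 ^ (b l))
    (ih : ∀ l < d, ∀ S : Set ℝ, MeasurableSet S → ∫ t in S, F l t ∂mu ≤ 2 * √(mu.real S))
    (S : Set ℝ) (hS : MeasurableSet S) :
    ∫ t in S, m⁻¹ * ∑ l ∈ Finset.range d, F l t ∂mu ≤ 2 * √(mu.real S) := by
  classical
  rw [integral_const_mul, integral_finsetSum _ (fun l hl => (hF l (Finset.mem_range.1 hl)).integrableOn)]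
  set σ := mu.real S with hσ
  have hσ0 : 0 ≤ σ := measureReal_nonneg
  have hσ1 : σ ≤ 1 := measureReal_le_one
  have hA : ∀ l < d, ∫ t in S, F l t ∂mu ≤ 2 ^ (b l) * σ := by
    intro l hl
    have h1 : ∫ t in S, F l t ∂mu ≤ ∫ t in S, (2 : ℝ) ^ (b l) ∂mu :=
      setIntegral_mono (hF l hl).integrableOn (integrable_const _).integrableOn (fun t => hbd l hl t)
    refine h1.trans (le_of_eq ?_)
    rw [setIntegral_const, smul_eq_mul, mul_comm]
  rcases hσ0.eq_or_lt with hz | hpos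
  · have h1 : ∑ l ∈ Finset.range d, ∫ t in S, F l t ∂mu ≤ 0 := by
      refine Finset.sum_nonpos fun l hl => ?_
      have := hA l (Finset.mem_range.1 hl)
      rwa [← hz, mul_zero] at this
    have h2 : m⁻¹ * ∑ l ∈ Finset.range d, ∫ t in S, F l t ∂mu ≤ 0 :=
      mul_nonpos_of_nonneg_of_nonpos (by positivity) h1
    refine h2.trans ?_
    positivity
  have hB : ∀ l < d, ∫ t in S, F l t ∂mu ≤ 2 * √σ := fun l hl => ih l hl S hS
  have hC : ∀ l < d, ∫ t in S, F l t ∂mu ≤ 2 * ((4 : ℝ) ^ (a l))⁻¹ := by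
    intro l hl
    have hms : MeasurableSet {t | F l t ≠ 0} := by
      have : {t | F l t ≠ 0} = (F l) ⁻¹' {0}ᶜ := rfl
      rw [this]
      exact hmeas l hl (measurableSet_singleton 0).compl
    have h1 : ∫ t in S, F l t ∂mu ≤ ∫ t, F l t ∂mu :=
      setIntegral_le_integral (hF l hl) (Filter.Eventually.of_forall (h0 l hl))
    have h2 : ∫ t, F l t ∂mu = ∫ t in {t | F l t ≠ 0}, F l t ∂mu := by
      rw [setIntegral_eq_integral_of_forall_compl_eq_zero]
      intro t ht
      by_contra hne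
      exact ht hne
    have h3 := ih l hl _ hms
    refine h1.trans (h2.le.trans (h3.trans ?_))
    refine mul_le_mul_of_nonneg_left ?_ (by norm_num)
    rw [← sqrt_sixteen_inv]
    exact Real.sqrt_le_sqrt (hsupp l hl)
  obtain ⟨c, hc1, hc2⟩ := exists_nat_pow_near_of_lt_one hpos hσ1 (by norm_num : (0 : ℝ) < 1 / 16) (by norm_num)
  rw [one_div, inv_pow] at hc1 hc2
  have hsq1 : ((4 : ℝ) ^ (c + 1))⁻¹ ≤ √σ := by
    rw [← sqrt_sixteen_inv]
    exact Real.sqrt_le_sqrt hc1.le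
  have hsq2 : √σ ≤ ((4 : ℝ) ^ c)⁻¹ := by
    rw [← sqrt_sixteen_inv]
    exact Real.sqrt_le_sqrt hc2
  -- splitting of the sum
  have hsplit : ∑ l ∈ Finset.range d, ∫ t in S, F l t ∂mu ≤
      (∑ l ∈ (Finset.range d).filter (fun l => b l ≤ c), 2 ^ (b l) * σ) +
      (∑ l ∈ (Finset.range d).filter (fun l => c + 1 ≤ a l), 2 * ((4 : ℝ) ^ (a l))⁻¹) +
      ∑ l ∈ (Finset.range d).filter (fun l => a l ≤ c ∧ c < b l), 2 * √σ := by
    rw [Finset.sum_filter, Finset.sum_filter, Finset.sum_filter, ← Finset.sum_add_distrib,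
      ← Finset.sum_add_distrib]
    refine Finset.sum_le_sum fun l hl => ?_
    have hl' := Finset.mem_range.1 hl
    have p1 : (0 : ℝ) ≤ 2 ^ (b l) * σ := by positivity
    have p2 : (0 : ℝ) ≤ 2 * ((4 : ℝ) ^ (a l))⁻¹ := by positivity
    have p3 : (0 : ℝ) ≤ 2 * √σ := by positivity
    by_cases h1 : b l ≤ c
    · rw [if_pos h1]
      have := hA l hl'
      split_ifs <;> linarith
    · by_cases h2 : c + 1 ≤ a l
      · rw [if_pos h2]
        have := hC l hl'
        split_ifs <;> linarith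
      · rw [if_pos (show a l ≤ c ∧ c < b l by omega)]
        have := hB l hl'
        split_ifs <;> linarith
  have e1 : ∑ l ∈ (Finset.range d).filter (fun l => b l ≤ c), 2 ^ (b l) * σ ≤ 2 * √σ := by
    rw [← Finset.sum_mul]
    have h1 := sum_two_pow_le hs c
    calc (∑ l ∈ (Finset.range d).filter (fun l => b l ≤ c), (2 : ℝ) ^ (b l)) * σ ≤ 2 ^ (c + 1) * σ :=
          mul_le_mul_of_nonneg_right h1 hσ0
      _ = 2 ^ (c + 1) * √σ * √σ := by rw [mul_assoc, Real.mul_self_sqrt hσ0]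
      _ ≤ 2 ^ (c + 1) * ((4 : ℝ) ^ c)⁻¹ * √σ := by
        refine mul_le_mul_of_nonneg_right (mul_le_mul_of_nonneg_left hsq2 (by positivity)) (Real.sqrt_nonneg _)
      _ ≤ 2 * √σ := by
        refine mul_le_mul_of_nonneg_right ?_ (Real.sqrt_nonneg _)
        rw [← div_eq_mul_inv, div_le_iff₀ (by positivity), pow_succ]
        have : (2 : ℝ) ^ c ≤ 4 ^ c := pow_le_pow_left₀ (by norm_num) (by norm_num) c
        linarith
  have e2 : ∑ l ∈ (Finset.range d).filter (fun l => c + 1 ≤ a l), 2 * ((4 : ℝ) ^ (a l))⁻¹ ≤ 4 * √σ := by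
    rw [← Finset.mul_sum]
    have := sum_four_inv_le hs (c + 1)
    linarith
  have e3 : ∑ l ∈ (Finset.range d).filter (fun l => a l ≤ c ∧ c < b l), 2 * √σ ≤ 2 * √σ := by
    rw [Finset.sum_const, nsmul_eq_mul]
    have h1 : (((Finset.range d).filter (fun l => a l ≤ c ∧ c < b l)).card : ℝ) ≤ 1 := by
      exact_mod_cast card_straddle_le hs c
    have : 0 ≤ 2 * √σ := by positivity
    nlinarith
  have htot : ∑ l ∈ Finset.range d, ∫ t in S, F l t ∂mu ≤ 8 * √σ := by linarith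
  calc m⁻¹ * ∑ l ∈ Finset.range d, ∫ t in S, F l t ∂mu ≤ m⁻¹ * (8 * √σ) :=
        mul_le_mul_of_nonneg_left htot (by positivity)
    _ ≤ 2 * √σ := by
      rw [inv_mul_le_iff₀ (by linarith)]
      have : 0 ≤ √σ := Real.sqrt_nonneg _
      nlinarith

theorem W.c1 {j : ℕ} {f : ℝ → ℝ} (h : W j f) :
    ∀ S : Set ℝ, MeasurableSet S → ∫ t in S, f t ∂mu ≤ 2 * √(mu.real S) := by
  induction h with
  | base i =>
    intro S hS
    have h1 : ∫ t in S, bh i t ∂mu = ∫ t, bh i t * S.indicator (fun _ => (1 : ℝ)) t ∂mu := by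
      rw [← integral_indicator hS]
      refine integral_congr_ae (Filter.Eventually.of_forall fun t => ?_)
      by_cases ht : t ∈ S
      · simp [ht]
      · simp [ht]
    have hind : MemLp (S.indicator (fun _ => (1 : ℝ))) 2 mu :=
      (memLp_const 1).indicator hS
    have h2 := cs ((W.base i).memLp 2) hind (bh_nn i) (fun t => Set.indicator_nonneg (fun _ _ => zero_le_one) t)
    have h3 : ∫ t, S.indicator (fun _ => (1 : ℝ)) t ^ 2 ∂mu = mu.real S := by
      have : ∀ t, S.indicator (fun _ => (1 : ℝ)) t ^ 2 = S.indicator (fun _ => (1 : ℝ)) t := by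
        intro t
        by_cases ht : t ∈ S
        · simp [ht]
        · simp [ht]
      simp_rw [this]
      rw [integral_indicator hS, setIntegral_const, smul_eq_mul, mul_one]
    rw [h1]
    refine h2.trans ?_
    rw [h3]
    have h4 : √(∫ t, bh i t ^ 2 ∂mu) ≤ 1 := by
      have := Real.sqrt_le_sqrt (bh_norm i)
      rwa [Real.sqrt_one] at this
    have h5 : 0 ≤ √(mu.real S) := Real.sqrt_nonneg _
    nlinarith [Real.sqrt_nonneg (∫ t, bh i t ^ 2 ∂mu)]
  | restr j f i h ih =>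
    intro S hS
    refine le_trans ?_ (ih S hS)
    refine setIntegral_mono ?_ ?_ ?_
    · exact (((h.memLp 1).integrable le_rfl).indicator (bE_meas i)).integrableOn
    · exact ((h.memLp 1).integrable le_rfl).integrableOn
    · intro t
      exact Set.indicator_le_self' (fun _ _ => h.nn t) t
  | node j d F w a b hj he hd hW hs hsupp hbd ih =>
    exact c1_node (mm j) (by exact_mod_cast four_le_mm (by omega)) d F a b hs
      (fun l hl => ((hW l hl).memLp 1).integrable le_rfl) (fun l hl => (hW l hl).nn)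
      (fun l hl => (hW l hl).meas) hsupp hbd ih
  | special j d F w a b hj ho hd hW hs hsupp hbd hbig hcode ih =>
    exact c1_node (mm j) (by exact_mod_cast four_le_mm (by omega)) d F a b hs
      (fun l hl => ((hW l hl).memLp 1).integrable le_rfl) (fun l hl => (hW l hl).nn)
      (fun l hl => (hW l hl).meas) hsupp hbd ih

end Pool.Agent.Helper64.Tight
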