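import Mathlib
import Pool.Agent.Helper64.Tight.C1

/-!
# The splitting lemma
-/

open MeasureTheory
open scoped ENNReal symmDiff

namespace Pool.Agent.Helper64.Tight

/-- a vector with range `[c, d]` and norm at most `C` -/
structure VR (x : ℝ → ℝ) (c d : ℕ) (C : ℝ) : Prop where
  meas : Measurable x
  nonneg : ∀ t, 0 ≤ x t
  supp : mu.real {t | x t ≠ 0} ≤ ((16 : ℝ) ^ c)⁻¹
  bd : ∀ t, x t ≤ 2 ^ d
  lt : c < d
  nrm : ∀ i f, W i f → pr f x ≤ C

lemma measurableSet_supp {x : ℝ → ℝ} (hx : Measurable x) : MeasurableSet {t | x t ≠ 0} := by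
  have : {t | x t ≠ 0} = x ⁻¹' {0}ᶜ := rfl
  rw [this]
  exact hx (measurableSet_singleton 0).compl

lemma VR.memLp {x : ℝ → ℝ} {c d : ℕ} {C : ℝ} (h : VR x c d C) (p : ℝ≥0∞) : MemLp x p mu :=
  memLp_of_bdd h.meas h.nonneg h.bd p

lemma l2_le_of_nrm {x : ℝ → ℝ} {C : ℝ} (hx : MemLp x 2 mu) (h0 : ∀ t, 0 ≤ x t)
    (h : ∀ i f, W i f → pr f x ≤ C) : √(∫ t, x t ^ 2 ∂mu) ≤ C := by
  refine le_of_forall_pos_le_add fun ε hε => ?_
  obtain ⟨i, hi⟩ := bh_dense x h0 hx ε hε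
  have := h 0 (bh i) (W.base i)
  unfold pr at this
  linarith

lemma VR.l2 {x : ℝ → ℝ} {c d : ℕ} {C : ℝ} (h : VR x c d C) : √(∫ t, x t ^ 2 ∂mu) ≤ C :=
  l2_le_of_nrm (h.memLp 2) h.nonneg h.nrm

lemma int_le_l2 {x : ℝ → ℝ} (hx : MemLp x 2 mu) (hm : Measurable x) (h0 : ∀ t, 0 ≤ x t) (S : Set ℝ)
    (hS : MeasurableSet S) :
    ∫ t in S, x t ∂mu ≤ √(∫ t, x t ^ 2 ∂mu) * √(mu.real S) := by
  have h1 : ∫ t in S, x t ∂mu = ∫ t, x t * S.indicator (fun _ => (1 : ℝ)) t ∂mu := by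
    rw [← integral_indicator hS]
    refine integral_congr_ae (Filter.Eventually.of_forall fun t => ?_)
    by_cases ht : t ∈ S
    · simp [ht]
    · simp [ht]
  have hind : MemLp (S.indicator (fun _ => (1 : ℝ))) 2 mu := (memLp_const 1).indicator hS
  have h2 := cs hx hind h0 (fun t => Set.indicator_nonneg (fun _ _ => zero_le_one) t)
  have h3 : ∫ t, S.indicator (fun _ => (1 : ℝ)) t ^ 2 ∂mu = mu.real S := by
    have : ∀ t, S.indicator (fun _ => (1 : ℝ)) t ^ 2 = S.indicator (fun _ => (1 : ℝ)) t := by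
      intro t
      by_cases ht : t ∈ S
      · simp [ht]
      · simp [ht]
    simp_rw [this]
    rw [integral_indicator hS, setIntegral_const, smul_eq_mul, mul_one]
  rw [h1, ← h3]
  exact h2

lemma integral_supp (x : ℝ → ℝ) : ∫ t, x t ∂mu = ∫ t in {t | x t ≠ 0}, x t ∂mu := by
  rw [setIntegral_eq_integral_of_forall_compl_eq_zero]
  intro t ht
  by_contra hne
  exact ht hne

lemma VR.int {x : ℝ → ℝ} {c d : ℕ} {C : ℝ} (h : VR x c d C) : ∫ t, x t ∂mu ≤ C * ((4 : ℝ) ^ c)⁻¹ := by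
  rw [integral_supp]
  refine (int_le_l2 (h.memLp 2) h.meas h.nonneg _ (measurableSet_supp h.meas)).trans ?_
  rw [← sqrt_sixteen_inv]
  refine mul_le_mul h.l2 (Real.sqrt_le_sqrt h.supp) (Real.sqrt_nonneg _) ?_
  exact (Real.sqrt_nonneg _).trans h.l2

lemma W.int {w : ℕ} {f : ℝ → ℝ} (h : W w f) {a : ℕ} (hs : mu.real {t | f t ≠ 0} ≤ ((16 : ℝ) ^ a)⁻¹) :
    ∫ t, f t ∂mu ≤ 2 * ((4 : ℝ) ^ a)⁻¹ := by
  rw [integral_supp]
  refine (h.c1 _ (measurableSet_supp h.meas)).trans ?_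
  rw [← sqrt_sixteen_inv]
  exact mul_le_mul_of_nonneg_left (Real.sqrt_le_sqrt hs) (by norm_num)

lemma pr_nonneg {f x : ℝ → ℝ} (hf : ∀ t, 0 ≤ f t) (hx : ∀ t, 0 ≤ x t) : 0 ≤ pr f x :=
  integral_nonneg fun t => mul_nonneg (hf t) (hx t)

/-- a family of children -/
structure Fam (d : ℕ) (F : ℕ → ℝ → ℝ) (w a b : ℕ → ℕ) : Prop where
  hW : ∀ l < d, W (w l) (F l)
  succ : Succ d a b
  supp : ∀ l < d, mu.real {t | F l t ≠ 0} ≤ ((16 : ℝ) ^ (a l))⁻¹
  bd : ∀ l < d, ∀ t, F l t ≤ 2 ^ (b l)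

lemma pr_le_before {f x : ℝ → ℝ} {c d : ℕ} {C : ℝ} (hx : VR x c d C) {w : ℕ} (hf : W w f) {b : ℕ}
    (hb : ∀ t, f t ≤ 2 ^ b) : pr f x ≤ 2 ^ b * (C * ((4 : ℝ) ^ c)⁻¹) := by
  have h1 : pr f x ≤ ∫ t, 2 ^ b * x t ∂mu := by
    unfold pr
    refine integral_mono ((hf.memLp 2).integrable_mul (hx.memLp 2)) ?_ fun t => ?_
    · exact ((hx.memLp 1).integrable le_rfl).const_mul _
    · exact mul_le_mul_of_nonneg_right (hb t) (hx.nonneg t)
  refine h1.trans ?_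
  rw [integral_const_mul]
  exact mul_le_mul_of_nonneg_left hx.int (by positivity)

lemma pr_le_after {f x : ℝ → ℝ} {c d : ℕ} {C : ℝ} (hx : VR x c d C) {w : ℕ} (hf : W w f) {a : ℕ}
    (hs : mu.real {t | f t ≠ 0} ≤ ((16 : ℝ) ^ a)⁻¹) : pr f x ≤ 2 ^ d * (2 * ((4 : ℝ) ^ a)⁻¹) := by
  have h1 : pr f x ≤ ∫ t, 2 ^ d * f t ∂mu := by
    unfold pr
    refine integral_mono ((hf.memLp 2).integrable_mul (hx.memLp 2)) ?_ fun t => ?_
    · exact ((hf.memLp 1).integrable le_rfl).const_mul _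
    · dsimp only
      rw [mul_comm]
      exact mul_le_mul_of_nonneg_right (hx.bd t) (hf.nn t)
  refine h1.trans ?_
  rw [integral_const_mul]
  exact mul_le_mul_of_nonneg_left (hf.int hs) (by positivity)

lemma two_four (c : ℕ) : (2 : ℝ) ^ c * ((4 : ℝ) ^ c)⁻¹ = ((2 : ℝ) ^ c)⁻¹ := by
  have : (4 : ℝ) ^ c = 2 ^ c * 2 ^ c := by
    rw [← mul_pow]; norm_num
  rw [this]
  field_simp

lemma unseen {x : ℝ → ℝ} {c d : ℕ} {C : ℝ} (hx : VR x c d C) (hC : 1 ≤ C) {d' : ℕ} {F : ℕ → ℝ → ℝ}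
    {w a b : ℕ → ℕ} (hF : Fam d' F w a b) :
    ∑ l ∈ (Finset.range d').filter (fun l => ¬ (a l < d ∧ c < b l)), pr (F l) x ≤ 6 * C * ((2 : ℝ) ^ c)⁻¹ := by
  have h1 : ∑ l ∈ (Finset.range d').filter (fun l => ¬ (a l < d ∧ c < b l)), pr (F l) x ≤
      (∑ l ∈ (Finset.range d').filter (fun l => b l ≤ c), 2 ^ (b l) * (C * ((4 : ℝ) ^ c)⁻¹)) +
      ∑ l ∈ (Finset.range d').filter (fun l => d ≤ a l), 2 ^ d * (2 * ((4 : ℝ) ^ (a l))⁻¹) := by
    rw [Finset.sum_filter, Finset.sum_filter, Finset.sum_filter, ← Finset.sum_add_distrib]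
    refine Finset.sum_le_sum fun l hl => ?_
    have hl' := Finset.mem_range.1 hl
    have p1 : (0 : ℝ) ≤ 2 ^ (b l) * (C * ((4 : ℝ) ^ c)⁻¹) := by positivity
    have p2 : (0 : ℝ) ≤ 2 ^ d * (2 * ((4 : ℝ) ^ (a l))⁻¹) := by positivity
    by_cases h2 : b l ≤ c
    · rw [if_pos (show ¬ (a l < d ∧ c < b l) by omega), if_pos h2]
      have := pr_le_before hx (hF.hW l hl') (hF.bd l hl')
      split_ifs
      · linarith
      · linarith
    · by_cases h3 : d ≤ a l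
      · rw [if_pos (show ¬ (a l < d ∧ c < b l) by omega), if_neg h2, if_pos h3]
        have := pr_le_after hx (hF.hW l hl') (hF.supp l hl')
        linarith
      · rw [if_neg (show ¬ ¬ (a l < d ∧ c < b l) by omega), if_neg h2, if_neg h3, add_zero]
  have h2 : ∑ l ∈ (Finset.range d').filter (fun l => b l ≤ c), 2 ^ (b l) * (C * ((4 : ℝ) ^ c)⁻¹) ≤
      2 * C * ((2 : ℝ) ^ c)⁻¹ := by
    rw [← Finset.sum_mul]
    calc (∑ l ∈ (Finset.range d').filter (fun l => b l ≤ c), (2 : ℝ) ^ (b l)) * (C * ((4 : ℝ) ^ c)⁻¹)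
        ≤ 2 ^ (c + 1) * (C * ((4 : ℝ) ^ c)⁻¹) :=
          mul_le_mul_of_nonneg_right (sum_two_pow_le hF.succ c) (by positivity)
      _ = 2 * C * (2 ^ c * ((4 : ℝ) ^ c)⁻¹) := by rw [pow_succ]; ring
      _ = _ := by rw [two_four]
  have h3 : ∑ l ∈ (Finset.range d').filter (fun l => d ≤ a l), 2 ^ d * (2 * ((4 : ℝ) ^ (a l))⁻¹) ≤
      4 * ((2 : ℝ) ^ c)⁻¹ := by
    rw [← Finset.mul_sum, ← Finset.mul_sum]
    calc 2 ^ d * (2 * ∑ l ∈ (Finset.range d').filter (fun l => d ≤ a l), ((4 : ℝ) ^ (a l))⁻¹)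
        ≤ 2 ^ d * (2 * (2 * ((4 : ℝ) ^ d)⁻¹)) :=
          mul_le_mul_of_nonneg_left (mul_le_mul_of_nonneg_left (sum_four_inv_le hF.succ d) (by norm_num))
            (by positivity)
      _ = 4 * (2 ^ d * ((4 : ℝ) ^ d)⁻¹) := by ring
      _ = 4 * ((2 : ℝ) ^ d)⁻¹ := by rw [two_four]
      _ ≤ 4 * ((2 : ℝ) ^ c)⁻¹ := by
        refine mul_le_mul_of_nonneg_left ?_ (by norm_num)
        exact inv_anti₀ (by positivity) (pow_le_pow_right₀ (by norm_num) hx.lt.le)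
  have h4 : (0 : ℝ) < ((2 : ℝ) ^ c)⁻¹ := by positivity
  nlinarith

/-- successive blocks -/
structure Blocks (N : ℕ) (x : ℕ → ℝ → ℝ) (c d : ℕ → ℕ) (C : ℝ) : Prop where
  vr : ∀ k < N, VR (x k) (c k) (d k) C
  succ : Succ N c d
  start : 4 ≤ c 0
  one_le : 1 ≤ C

lemma sum_half_pow (I : Finset ℕ) : ∑ k ∈ I, ((2 : ℝ) ^ (k + 1))⁻¹ ≤ 1 := by
  have h1 : I ⊆ Finset.range (I.sup id + 1) := by
    intro k hk
    rw [Finset.mem_range]
    have : id k ≤ I.sup id := Finset.le_sup hk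
    simp only [id] at this
    omega
  refine (Finset.sum_le_sum_of_subset_of_nonneg h1 (fun _ _ _ => by positivity)).trans ?_
  have h2 : ∀ N : ℕ, ∑ k ∈ Finset.range N, ((2 : ℝ) ^ (k + 1))⁻¹ = 1 - ((2 : ℝ) ^ N)⁻¹ := by
    intro N
    induction N with
    | zero => simp
    | succ N ih =>
      rw [Finset.sum_range_succ, ih, pow_succ]
      field_simp
      ring
  rw [h2]
  have : (0 : ℝ) ≤ ((2 : ℝ) ^ (I.sup id + 1))⁻¹ := by positivity
  linarith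

lemma Blocks.small {N : ℕ} {x : ℕ → ℝ → ℝ} {c d : ℕ → ℕ} {C : ℝ} (h : Blocks N x c d C) {k : ℕ} (hk : k < N) :
    6 * C * ((2 : ℝ) ^ (c k))⁻¹ ≤ C * ((2 : ℝ) ^ (k + 1))⁻¹ := by
  have h1 : k + 4 ≤ c k := by
    have := h.succ.a_ge hk
    have := h.start
    omega
  have hC := h.one_le
  have h2 : ((2 : ℝ) ^ (c k))⁻¹ ≤ ((2 : ℝ) ^ (k + 4))⁻¹ :=
    inv_anti₀ (by positivity) (pow_le_pow_right₀ (by norm_num) h1)
  have h3 : ((2 : ℝ) ^ (k + 4))⁻¹ = ((2 : ℝ) ^ (k + 1))⁻¹ / 8 := by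
    rw [pow_add, pow_add]
    field_simp
    norm_num
  rw [h3] at h2
  have h4 : (0 : ℝ) < ((2 : ℝ) ^ (k + 1))⁻¹ := by positivity
  nlinarith

lemma split {N : ℕ} {x : ℕ → ℝ → ℝ} {c d : ℕ → ℕ} {C : ℝ} (hB : Blocks N x c d C) {d' : ℕ} {F : ℕ → ℝ → ℝ}
    {w a b : ℕ → ℕ} (hF : Fam d' F w a b) (m : ℝ) (hm : 1 ≤ m)
    (hnode : ∀ k < N, m⁻¹ * ∑ l ∈ Finset.range d', pr (F l) (x k) ≤ C) (I : Finset ℕ)
    (hI : I ⊆ Finset.range N) (α β : ℝ) (hβ : 0 ≤ β)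
    (hih : ∀ l < d', ∀ I' ⊆ I, ∑ k ∈ I', pr (F l) (x k) ≤ α + β * I'.card) :
    ∑ k ∈ I, m⁻¹ * ∑ l ∈ Finset.range d', pr (F l) (x k) ≤ C * d' + C + m⁻¹ * (d' * α + β * I.card) := by
  classical
  have hm0 : 0 < m := by linarith
  have hC := hB.one_le
  set Sees : ℕ → Finset ℕ := fun k => (Finset.range d').filter (fun l => a l < d k ∧ c k < b l) with hSees
  set T : Finset ℕ := I.filter (fun k => 2 ≤ (Sees k).card) with hT
  have hTI : T ⊆ I := Finset.filter_subset _ _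
  have hTcard : T.card ≤ d' := by
    have h1 : ∀ k ∈ T, ∃ l₁ ∈ Sees k, ∃ l₂ ∈ Sees k, l₁ < l₂ := by
      intro k hk
      have h2 := (Finset.mem_filter.1 hk).2
      obtain ⟨l₁, h3, l₂, h4, h5⟩ := Finset.one_lt_card.1 h2
      rcases lt_or_gt_of_ne h5 with h6 | h6
      · exact ⟨l₁, h3, l₂, h4, h6⟩
      · exact ⟨l₂, h4, l₁, h3, h6⟩
    choose! g hg g' hg' hgg using h1
    have h2 : (Finset.range d').card = d' := Finset.card_range d'
    rw [← h2]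
    refine Finset.card_le_card_of_injOn g ?_ ?_
    · intro k hk
      exact (Finset.mem_filter.1 (hg k hk)).1
    · have key : ∀ k ∈ T, ∀ k' ∈ T, k < k' → g k ≠ g k' := by
        intro k hk k' hk' hlt heq
        have e1 := Finset.mem_filter.1 (hg' k hk)
        have e2 := Finset.mem_filter.1 (hg k' hk')
        rw [← heq] at e2
        have e3 := hF.succ.le (hgg k hk) (Finset.mem_range.1 e1.1)
        have e4 := hB.succ.le hlt (Finset.mem_range.1 (hI (hTI hk')))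
        omega
      intro k hk k' hk' heq
      rcases lt_trichotomy k k' with h3 | h3 | h3
      · exact absurd heq (key k hk k' hk' h3)
      · exact h3
      · exact absurd heq.symm (key k' hk' k hk h3)
  have hpos : ∀ l < d', ∀ k < N, 0 ≤ pr (F l) (x k) := fun l hl k hk =>
    pr_nonneg (hF.hW l hl).nn (hB.vr k hk).nonneg
  rw [← Finset.sum_sdiff hTI]
  -- the part in `T`
  have hpT : ∑ k ∈ T, m⁻¹ * ∑ l ∈ Finset.range d', pr (F l) (x k) ≤ C * d' := by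
    calc ∑ k ∈ T, m⁻¹ * ∑ l ∈ Finset.range d', pr (F l) (x k) ≤ ∑ k ∈ T, C :=
          Finset.sum_le_sum fun k hk => hnode k (Finset.mem_range.1 (hI (hTI hk)))
      _ = T.card * C := by rw [Finset.sum_const, nsmul_eq_mul]
      _ ≤ d' * C := mul_le_mul_of_nonneg_right (by exact_mod_cast hTcard) (by linarith)
      _ = C * d' := mul_comm _ _
  -- the other part
  have hk1 : ∀ k ∈ I \ T, ∑ l ∈ Finset.range d', pr (F l) (x k) ≤
      C * ((2 : ℝ) ^ (k + 1))⁻¹ + ∑ l ∈ Sees k, pr (F l) (x k) := by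
    intro k hk
    have hkN := Finset.mem_range.1 (hI (Finset.sdiff_subset hk))
    rw [← Finset.sum_filter_not_add_sum_filter (Finset.range d') (fun l => a l < d k ∧ c k < b l)]
    have h1 := unseen (hB.vr k hkN) hC hF
    have h2 := hB.small hkN
    linarith
  have hswap : ∑ k ∈ I \ T, ∑ l ∈ Sees k, pr (F l) (x k) =
      ∑ l ∈ Finset.range d', ∑ k ∈ (I \ T).filter (fun k => a l < d k ∧ c k < b l), pr (F l) (x k) := by
    simp_rw [hSees, Finset.sum_filter]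
    rw [Finset.sum_comm]
  have hcount : ∑ l ∈ Finset.range d', (((I \ T).filter (fun k => a l < d k ∧ c k < b l)).card : ℝ) ≤ I.card := by
    have h1 : ∑ l ∈ Finset.range d', ((I \ T).filter (fun k => a l < d k ∧ c k < b l)).card =
        ∑ k ∈ I \ T, (Sees k).card := by
      simp_rw [hSees, Finset.card_filter]
      rw [Finset.sum_comm]
    have h2 : ∑ k ∈ I \ T, (Sees k).card ≤ (I \ T).card := by
      rw [Finset.card_eq_sum_ones]
      refine Finset.sum_le_sum fun k hk => ?_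
      by_contra hcon
      rw [Finset.mem_sdiff] at hk
      exact hk.2 (Finset.mem_filter.2 ⟨hk.1, by omega⟩)
    have h3 : (I \ T).card ≤ I.card := Finset.card_le_card Finset.sdiff_subset
    rw [← h1] at h2
    exact_mod_cast h2.trans h3
  have hmain : ∑ k ∈ I \ T, ∑ l ∈ Finset.range d', pr (F l) (x k) ≤ C + (d' * α + β * I.card) := by
    refine (Finset.sum_le_sum hk1).trans ?_
    rw [Finset.sum_add_distrib, ← Finset.mul_sum, hswap]
    have h1 : C * ∑ k ∈ I \ T, ((2 : ℝ) ^ (k + 1))⁻¹ ≤ C := by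
      have := sum_half_pow (I \ T)
      nlinarith
    have h2 : ∑ l ∈ Finset.range d', ∑ k ∈ (I \ T).filter (fun k => a l < d k ∧ c k < b l), pr (F l) (x k) ≤
        ∑ l ∈ Finset.range d', (α + β * ((I \ T).filter (fun k => a l < d k ∧ c k < b l)).card) := by
      refine Finset.sum_le_sum fun l hl => hih l (Finset.mem_range.1 hl) _ ?_
      exact (Finset.filter_subset _ _).trans Finset.sdiff_subset
    rw [Finset.sum_add_distrib, ← Finset.mul_sum, Finset.sum_const, Finset.card_range, nsmul_eq_mul] at h2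
    have h3 := mul_le_mul_of_nonneg_left hcount hβ
    linarith
  rw [← Finset.mul_sum]
  have h5 : m⁻¹ * ∑ k ∈ I \ T, ∑ l ∈ Finset.range d', pr (F l) (x k) ≤ m⁻¹ * (C + (d' * α + β * I.card)) :=
    mul_le_mul_of_nonneg_left hmain (by positivity)
  have h6 : m⁻¹ * C ≤ C := by
    have : m⁻¹ ≤ 1 := inv_le_one_of_one_le₀ hm
    nlinarith
  rw [mul_add] at h5
  linarith

end Pool.Agent.Helper64.Tight
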