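import Mathlib
import Pool.Agent.Helper64.Tight.Split

/-!
# The general upper estimate
-/

open MeasureTheory
open scoped ENNReal symmDiff

namespace Pool.Agent.Helper64.Tight

lemma pr_const_sum (m : ℝ) (d : ℕ) (F : ℕ → ℝ → ℝ) (x : ℝ → ℝ)
    (h : ∀ l < d, Integrable (fun t => F l t * x t) mu) :
    pr (fun t => m * ∑ l ∈ Finset.range d, F l t) x = m * ∑ l ∈ Finset.range d, pr (F l) x := by
  unfold pr
  have h1 : ∀ t, (m * ∑ l ∈ Finset.range d, F l t) * x t = m * ∑ l ∈ Finset.range d, F l t * x t := by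
    intro t
    rw [mul_assoc, Finset.sum_mul]
  simp_rw [h1]
  rw [integral_const_mul, integral_finsetSum _ (fun l hl => h l (Finset.mem_range.1 hl))]

lemma pr_mono_left {f g x : ℝ → ℝ} (hfi : Integrable (fun t => f t * x t) mu)
    (hgi : Integrable (fun t => g t * x t) mu) (hx : ∀ t, 0 ≤ x t) (h : ∀ t, f t ≤ g t) :
    pr f x ≤ pr g x :=
  integral_mono hfi hgi fun t => mul_le_mul_of_nonneg_right (h t) (hx t)

/-- data attached to a function of positive weight -/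
lemma W.fam {i : ℕ} {f : ℝ → ℝ} (h : W i f) (hi : 1 ≤ i) :
    ∃ (d : ℕ) (F : ℕ → ℝ → ℝ) (w a b : ℕ → ℕ), d ≤ Tight.nn i ∧ Fam d F w a b ∧
      (∀ x c d' C, VR x c d' C → (mm i : ℝ)⁻¹ * ∑ l ∈ Finset.range d, pr (F l) x ≤ C) ∧
      (∀ x c d' C, VR x c d' C → pr f x ≤ (mm i : ℝ)⁻¹ * ∑ l ∈ Finset.range d, pr (F l) x) ∧
      (Odd i → (∀ l < d, 1 ≤ w l ∧ Even (w l) ∧ Tight.nn i ^ 2 ≤ mm (w l)) ∧
        (∀ l, l + 1 < d → w (l + 1) = 2 * code (pre F b (l + 1)))) := by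
  obtain ⟨d, F, w, a, b, h1, h2, h3, h4, h5, h6, h7, h8⟩ := h.form hi
  have hint : ∀ x c d' C, VR x c d' C → ∀ l < d, Integrable (fun t => F l t * x t) mu := by
    intro x c d' C hx l hl
    exact ((h2 l hl).memLp 2).integrable_mul (hx.memLp 2)
  refine ⟨d, F, w, a, b, h1, ⟨h2, h3, h4, h5⟩, ?_, ?_, h8⟩
  · intro x c d' C hx
    rw [← pr_const_sum _ _ _ _ (hint x c d' C hx)]
    exact hx.nrm _ _ h6
  · intro x c d' C hx
    rw [← pr_const_sum _ _ _ _ (hint x c d' C hx)]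
    exact pr_mono_left ((h.memLp 2).integrable_mul (hx.memLp 2)) ((h6.memLp 2).integrable_mul (hx.memLp 2))
      hx.nonneg h7

lemma sqrt_le_aux (t P : ℝ) (ht : 0 ≤ t) (hP : 0 < P) : √t ≤ P + P⁻¹ * t := by
  obtain ⟨u, hu⟩ : ∃ u, u = P⁻¹ * t := ⟨_, rfl⟩
  have hu0 : 0 ≤ u := by rw [hu]; positivity
  have e2 : t = P * u := by rw [hu, ← mul_assoc, mul_inv_cancel₀ hP.ne', one_mul]
  rw [Real.sqrt_le_left (by positivity), ← hu, e2]
  nlinarith [mul_nonneg hP.le hu0]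

section
variable {N : ℕ} {x : ℕ → ℝ → ℝ} {c d : ℕ → ℕ} {C : ℝ} (hB : Blocks N x c d C)
include hB

/-- one step for low weights -/
lemma lowstep {i : ℕ} (hi : 1 ≤ i) (n : ℝ) (hn : (nn i : ℝ) ≤ n) {f : ℝ → ℝ} (hf : W i f) (I : Finset ℕ)
    (hI : I ⊆ Finset.range N) (α β : ℝ) (hα : 0 ≤ α) (hβ : 0 ≤ β)
    (hih : ∀ i' f', W i' f' → ∀ I' ⊆ Finset.range N, ∑ k ∈ I', pr f' (x k) ≤ α + β * I'.card) :
    ∑ k ∈ I, pr f (x k) ≤ C * (n + 1) + (mm i : ℝ)⁻¹ * (n * α + β * I.card) := by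
  obtain ⟨d', F, w, a, b, h1, h2, h3, h4, _⟩ := hf.fam hi
  have hm : (4 : ℝ) ≤ mm i := by exact_mod_cast four_le_mm hi
  have h5 : ∑ k ∈ I, pr f (x k) ≤ ∑ k ∈ I, (mm i : ℝ)⁻¹ * ∑ l ∈ Finset.range d', pr (F l) (x k) :=
    Finset.sum_le_sum fun k hk => h4 _ _ _ _ (hB.vr k (Finset.mem_range.1 (hI hk)))
  refine h5.trans ?_
  have h6 := split hB h2 (mm i) (by linarith) (fun k hk => h3 _ _ _ _ (hB.vr k hk)) I hI α β hβ
    (fun l hl I' hI' => hih _ _ (h2.hW l hl) I' (hI'.trans hI))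
  refine h6.trans ?_
  have hd' : (d' : ℝ) ≤ n := le_trans (by exact_mod_cast h1) hn
  have hC := hB.one_le
  have e1 : C * d' + C ≤ C * (n + 1) := by nlinarith
  have e2 : (mm i : ℝ)⁻¹ * (d' * α + β * I.card) ≤ (mm i : ℝ)⁻¹ * (n * α + β * I.card) := by
    refine mul_le_mul_of_nonneg_left ?_ (by positivity)
    have := mul_le_mul_of_nonneg_right hd' hα
    linarith
  linarith

/-- the general estimate -/
theorem general (j : ℕ) (n : ℝ) (hn1 : 1 ≤ n) (hn : ∀ i < j, (nn i : ℝ) ≤ n) (B Λ : ℝ) (hB2 : 2 ≤ B)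
    (hΛ : 0 < Λ)
    (hbase : ∀ f, W 0 f → ∀ I ⊆ Finset.range N, ∑ k ∈ I, pr f (x k) ≤ C * (1 + √(I.card : ℝ)))
    (hhigh : ∀ i, j ≤ i → 1 ≤ i → ∀ f, W i f → ∀ I ⊆ Finset.range N,
      ∑ k ∈ I, pr f (x k) ≤ C * (B + I.card / Λ)) (s : ℕ) :
    ∀ i f, W i f → ∀ I ⊆ Finset.range N,
      ∑ k ∈ I, pr f (x k) ≤ C * B * (2 * n) ^ (s + 1) + C * (((2 : ℝ) ^ s)⁻¹ + Λ⁻¹) * I.card := by
  have hC := hB.one_le
  have hC0 : 0 < C := by linarith
  induction s with
  | zero =>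
    intro i f hf I hI
    have h1 : ∑ k ∈ I, pr f (x k) ≤ ∑ k ∈ I, C :=
      Finset.sum_le_sum fun k hk => (hB.vr k (Finset.mem_range.1 (hI hk))).nrm i f hf
    refine h1.trans ?_
    rw [Finset.sum_const, nsmul_eq_mul]
    have h2 : 0 ≤ C * B * (2 * n) ^ (0 + 1) := by positivity
    have h3 : 0 ≤ C * Λ⁻¹ * (I.card : ℝ) := by positivity
    have h4 : C * (((2 : ℝ) ^ 0)⁻¹ + Λ⁻¹) * (I.card : ℝ) = (I.card : ℝ) * C + C * Λ⁻¹ * (I.card : ℝ) := by
      rw [pow_zero, inv_one]; ring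
    rw [h4]
    generalize C * B * (2 * n) ^ (0 + 1) = u at h2 ⊢
    linarith
  | succ s ih =>
    intro i f hf I hI
    set t : ℝ := (I.card : ℝ) with ht
    have ht0 : 0 ≤ t := Nat.cast_nonneg _
    have hpow1 : (1 : ℝ) ≤ (2 * n) ^ (s + 1 + 1) := one_le_pow₀ (by linarith)
    rcases Nat.eq_zero_or_pos i with hi | hi
    · subst hi
      refine (hbase f hf I hI).trans ?_
      have e1 : √t ≤ 2 ^ (s + 1) + ((2 : ℝ) ^ (s + 1))⁻¹ * t := sqrt_le_aux t _ ht0 (by positivity)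
      have e3 : (2 : ℝ) ^ (s + 1) + 1 ≤ B * (2 * n) ^ (s + 1 + 1) := by
        have p2 : (2 : ℝ) ^ (s + 1 + 1) ≤ (2 * n) ^ (s + 1 + 1) :=
          pow_le_pow_left₀ (by norm_num) (by linarith) _
        have p3 : (1 : ℝ) ≤ 2 ^ (s + 1) := one_le_pow₀ (by norm_num)
        have p4 : (2 : ℝ) ^ (s + 1 + 1) = 2 * 2 ^ (s + 1) := by ring
        nlinarith
      have e4 : 0 ≤ Λ⁻¹ * t := by positivity
      calc C * (1 + √t) ≤ C * (B * (2 * n) ^ (s + 1 + 1) + (((2 : ℝ) ^ (s + 1))⁻¹ + Λ⁻¹) * t) := by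
            refine mul_le_mul_of_nonneg_left ?_ hC0.le
            rw [add_mul]
            linarith
        _ = _ := by ring
    · by_cases hij : j ≤ i
      · refine (hhigh i hij hi f hf I hI).trans ?_
        have e1 : B ≤ B * (2 * n) ^ (s + 1 + 1) := by nlinarith
        have e2 : 0 ≤ ((2 : ℝ) ^ (s + 1))⁻¹ * t := by positivity
        calc C * (B + t / Λ) ≤ C * (B * (2 * n) ^ (s + 1 + 1) + (((2 : ℝ) ^ (s + 1))⁻¹ + Λ⁻¹) * t) := by
              refine mul_le_mul_of_nonneg_left ?_ hC0.le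
              rw [add_mul, div_eq_mul_inv, mul_comm t]
              linarith
          _ = _ := by ring
      · have hni := hn i (by omega)
        have h1 := lowstep hB hi n hni hf I hI (C * B * (2 * n) ^ (s + 1)) (C * (((2 : ℝ) ^ s)⁻¹ + Λ⁻¹))
          (by positivity) (by positivity) ih
        refine h1.trans ?_
        have hm : (4 : ℝ) ≤ mm i := by exact_mod_cast four_le_mm hi
        have hminv : (mm i : ℝ)⁻¹ ≤ 1 / 4 := by
          rw [one_div]
          exact inv_anti₀ (by norm_num) hm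
        set P : ℝ := (2 * n) ^ (s + 1) with hP
        have hP1 : 2 * n ≤ P := by
          rw [hP]
          exact le_self_pow₀ (by linarith) (by omega)
        have e1 : (mm i : ℝ)⁻¹ * (n * (C * B * P) + C * (((2 : ℝ) ^ s)⁻¹ + Λ⁻¹) * t) ≤
            1 / 4 * (n * (C * B * P) + C * (((2 : ℝ) ^ s)⁻¹ + Λ⁻¹) * t) :=
          mul_le_mul_of_nonneg_right hminv (by positivity)
        have e2 : (2 * n) ^ (s + 1 + 1) = 2 * n * P := by rw [hP]; ring
        have e3 : ((2 : ℝ) ^ (s + 1))⁻¹ = ((2 : ℝ) ^ s)⁻¹ / 2 := by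
          rw [pow_succ]
          field_simp
        rw [e2, e3]
        have e4 : n + 1 ≤ 7 / 4 * (n * (B * P)) := by
          have q1 : 2 * (2 * n) ≤ B * P := mul_le_mul hB2 hP1 (by positivity) (by linarith)
          nlinarith
        have e5 : C * (n + 1) ≤ 7 / 4 * (n * (C * B * P)) := by
          have := mul_le_mul_of_nonneg_left e4 hC0.le
          linarith
        have e6 : 0 ≤ C * ((2 : ℝ) ^ s)⁻¹ * t := by positivity
        have e7 : 0 ≤ C * Λ⁻¹ * t := by positivity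
        linarith

end

/-- rapidly increasing sequences -/
structure RIS (N : ℕ) (x : ℕ → ℝ → ℝ) (c d : ℕ → ℕ) (C : ℝ) (jj : ℕ → ℕ) : Prop where
  bl : Blocks N x c d C
  low : ∀ k < N, ∀ i, 1 ≤ i → i < jj k → ∀ f, W i f → pr f (x k) ≤ C / mm i
  mono : ∀ k, k + 1 < N → jj k < jj (k + 1)
  growth : ∀ k, k + 1 < N → 2 ^ (k + 1) * (d k + 1) ≤ mm (jj (k + 1))
  base : ∀ f, W 0 f → ∀ I ⊆ Finset.range N, ∑ k ∈ I, pr f (x k) ≤ C * (1 + √(I.card : ℝ))

lemma RIS.mono' {N : ℕ} {x : ℕ → ℝ → ℝ} {c d : ℕ → ℕ} {C : ℝ} {jj : ℕ → ℕ} (h : RIS N x c d C jj)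
    {k k' : ℕ} (hk : k < k') (hN : k' < N) : jj k < jj k' := by
  induction k', hk using Nat.le_induction with
  | base => exact h.mono k hN
  | succ k' hk' ih => exact (ih (by omega)).trans (h.mono k' hN)

/-- a vector is seen by few children -/
lemma pr_le_card {x : ℝ → ℝ} {c d : ℕ} {C : ℝ} (hx : VR x c d C) (hC : 1 ≤ C) (hc : 4 ≤ c) {i : ℕ} (hi : 1 ≤ i)
    {f : ℝ → ℝ} (hf : W i f) : pr f x ≤ C * (d + 1) / mm i := by
  classical
  obtain ⟨d', F, w, a, b, h1, h2, h3, h4, _⟩ := hf.fam hi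
  refine (h4 _ _ _ _ hx).trans ?_
  rw [← Finset.sum_filter_not_add_sum_filter (Finset.range d') (fun l => a l < d ∧ c < b l)]
  have e1 := unseen hx hC h2
  have e2 : ∑ l ∈ (Finset.range d').filter (fun l => a l < d ∧ c < b l), pr (F l) x ≤ d * C := by
    have h5 : ∑ l ∈ (Finset.range d').filter (fun l => a l < d ∧ c < b l), pr (F l) x ≤
        ∑ l ∈ (Finset.range d').filter (fun l => a l < d ∧ c < b l), C :=
      Finset.sum_le_sum fun l hl => hx.nrm _ _ (h2.hW l (Finset.mem_range.1 (Finset.mem_filter.1 hl).1))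
    refine h5.trans ?_
    rw [Finset.sum_const, nsmul_eq_mul]
    refine mul_le_mul_of_nonneg_right ?_ (by linarith)
    exact_mod_cast card_see_le h2.succ d _
  have e3 : 6 * C * ((2 : ℝ) ^ c)⁻¹ ≤ C := by
    have h6 : ((2 : ℝ) ^ c)⁻¹ ≤ ((2 : ℝ) ^ 4)⁻¹ :=
      inv_anti₀ (by positivity) (pow_le_pow_right₀ (by norm_num) hc)
    norm_num at h6
    nlinarith
  rw [div_eq_inv_mul]
  refine mul_le_mul_of_nonneg_left ?_ (by positivity)
  linarith

/-- high weights on rapidly increasing sequences -/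
lemma RIS.high {N : ℕ} {x : ℕ → ℝ → ℝ} {c d : ℕ → ℕ} {C : ℝ} {jj : ℕ → ℕ} (h : RIS N x c d C jj)
    {i : ℕ} (hi : 1 ≤ i) {f : ℝ → ℝ} (hf : W i f) (I : Finset ℕ) (hI : I ⊆ Finset.range N) :
    ∑ k ∈ I, pr f (x k) ≤ C * (2 + I.card / mm i) := by
  classical
  have hC := h.bl.one_le
  have hm : (0 : ℝ) < mm i := by exact_mod_cast mm_pos i
  -- the critical index
  set K : Finset ℕ := I.filter (fun k => jj k ≤ i ∧ ∀ k' < N, k < k' → i < jj k') with hK
  have hKcard : K.card ≤ 1 := by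
    rw [Finset.card_le_one]
    intro k hk k' hk'
    rw [Finset.mem_filter] at hk hk'
    rcases lt_trichotomy k k' with h1 | h1 | h1
    · have := hk.2.2 k' (Finset.mem_range.1 (hI hk'.1)) h1
      omega
    · exact h1
    · have := hk'.2.2 k (Finset.mem_range.1 (hI hk.1)) h1
      omega
  have hterm : ∀ k ∈ I, pr f (x k) ≤ C / mm i + C * ((2 : ℝ) ^ (k + 1))⁻¹ + (if k ∈ K then C else 0) := by
    intro k hk
    have hkN := Finset.mem_range.1 (hI hk)
    have p1 : (0 : ℝ) ≤ C / mm i := by positivity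
    have p2 : (0 : ℝ) ≤ C * ((2 : ℝ) ^ (k + 1))⁻¹ := by positivity
    by_cases h1 : i < jj k
    · have := h.low k hkN i hi h1 f hf
      split_ifs <;> linarith
    · by_cases h2 : ∀ k' < N, k < k' → i < jj k'
      · have h3 : k ∈ K := Finset.mem_filter.2 ⟨hk, by omega, h2⟩
        rw [if_pos h3]
        have := (h.bl.vr k hkN).nrm i f hf
        linarith
      · push Not at h2
        obtain ⟨k', hk', hkk, hle⟩ := h2
        have h4 : jj (k + 1) ≤ i := by
          rcases Nat.lt_or_ge (k + 1) k' with h5 | h5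
          · exact (h.mono' h5 hk').le.trans hle
          · have : k' = k + 1 := by omega
            rw [← this]; exact hle
        have hc : 4 ≤ c k := by
          have := h.bl.succ.a_ge hkN
          have := h.bl.start
          omega
        have h5 := pr_le_card (h.bl.vr k hkN) hC hc hi hf
        have h6 : (2 : ℝ) ^ (k + 1) * (d k + 1) ≤ mm i := by
          have h7 := (h.growth k (by omega)).trans (mm_mono h4)
          exact_mod_cast h7
        have h8 : C * (d k + 1) / mm i ≤ C * ((2 : ℝ) ^ (k + 1))⁻¹ := by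
          rw [div_le_iff₀ hm, mul_assoc]
          refine mul_le_mul_of_nonneg_left ?_ (by linarith)
          rw [inv_mul_eq_div, le_div_iff₀ (by positivity)]
          linarith
        split_ifs <;> linarith
  refine (Finset.sum_le_sum hterm).trans ?_
  rw [Finset.sum_add_distrib, Finset.sum_add_distrib, Finset.sum_const, ← Finset.mul_sum, nsmul_eq_mul,
    ← Finset.sum_filter, Finset.sum_const, nsmul_eq_mul]
  have e1 := sum_half_pow I
  have e2 : ((I.filter (fun k => k ∈ K)).card : ℝ) ≤ 1 := by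
    have : I.filter (fun k => k ∈ K) ⊆ K := fun k hk => (Finset.mem_filter.1 hk).2
    exact_mod_cast (Finset.card_le_card this).trans hKcard
  have e3 : C * ∑ k ∈ I, ((2 : ℝ) ^ (k + 1))⁻¹ ≤ C := by nlinarith
  have e4 : ((I.filter (fun k => k ∈ K)).card : ℝ) * C ≤ C := by nlinarith
  have e5 : (I.card : ℝ) * (C / mm i) = C * (I.card / mm i) := by ring
  rw [e5]
  linarith

end Pool.Agent.Helper64.Tight
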