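import Mathlib
import Pool.Agent.Helper64.Tight.Gen

/-!
# Estimates for averages of rapidly increasing sequences
-/

open MeasureTheory
open scoped ENNReal symmDiff

namespace Pool.Agent.Helper64.Tight

lemma mm_real_pos (j : ℕ) : (0 : ℝ) < mm j := by exact_mod_cast mm_pos j

lemma nn_real_pos (j : ℕ) : (0 : ℝ) < nn j := by exact_mod_cast nn_pos j

lemma mm_eq (j : ℕ) : (mm j : ℝ) = 2 ^ (2 ^ j) := by unfold mm; push_cast; rfl

/-- numerical facts about the lengths -/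
lemma nn_big (b : ℕ) (hb : 1 ≤ b) : ∃ n : ℝ, 1 ≤ n ∧ (∀ i < b, (nn i : ℝ) ≤ n) ∧
    2 * (2 * n) ^ (2 * 2 ^ b + 1) * (n + 1) ≤ nn b / (mm b : ℝ) ^ 4 := by
  obtain ⟨e, rfl⟩ : ∃ e, b = e + 1 := ⟨b - 1, by omega⟩
  have h1 : (1 : ℝ) ≤ nn e := by exact_mod_cast nn_pos e
  refine ⟨nn e, h1, fun i hi => by exact_mod_cast nn_mono (by omega : i ≤ e), ?_⟩
  rw [nn_succ]
  push_cast
  rw [mul_div_assoc, mul_comm ((mm (e + 1) : ℝ) ^ 4), div_mul_cancel₀ _ (pow_pos (mm_real_pos _) 4).ne']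
  set n : ℝ := (nn e : ℝ) with hn
  have h2 : (2 * n) ^ (2 * 2 ^ (e + 1) + 1) ≤ (4 * n) ^ (2 * 2 ^ (e + 1) + 1) :=
    pow_le_pow_left₀ (by linarith) (by linarith) _
  have h3 : (4 * n) ^ (2 * 2 ^ (e + 1) + 4) = (4 * n) ^ (2 * 2 ^ (e + 1) + 1) * (4 * n) ^ 3 := by
    rw [← pow_add]
  rw [h3]
  have h4 : 2 * (n + 1) ≤ (4 * n) ^ 3 := by nlinarith [sq_nonneg n, pow_pos (show 0 < n by linarith) 3]
  have h5 : 0 ≤ (4 * n) ^ (2 * 2 ^ (e + 1) + 1) := by positivity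
  calc 2 * (2 * n) ^ (2 * 2 ^ (e + 1) + 1) * (n + 1) = (2 * n) ^ (2 * 2 ^ (e + 1) + 1) * (2 * (n + 1)) := by ring
    _ ≤ (4 * n) ^ (2 * 2 ^ (e + 1) + 1) * (4 * n) ^ 3 := mul_le_mul h2 h4 (by positivity) h5

section
variable {b : ℕ} {x : ℕ → ℝ → ℝ} {c d : ℕ → ℕ} {C : ℝ} {jj : ℕ → ℕ}

/-- all functionals -/
theorem typed_all (hb : 1 ≤ b) (h : RIS (nn b) x c d C jj) {i : ℕ} {f : ℝ → ℝ} (hf : W i f) :
    (mm b / nn b : ℝ) * ∑ k ∈ Finset.range (nn b), pr f (x k) ≤ 3 * C := by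
  obtain ⟨n, hn1, hn, hbig⟩ := nn_big b hb
  have hC := h.bl.one_le
  have hm4 : (4 : ℝ) ≤ mm b := by exact_mod_cast four_le_mm hb
  have hN := nn_real_pos b
  have hg := general h.bl b n hn1 hn 2 (mm b) le_rfl (by linarith) h.base
    (fun i hi hi1 f hf I hI => by
      refine (h.high hi1 hf I hI).trans ?_
      refine mul_le_mul_of_nonneg_left ?_ (by linarith)
      have : (I.card : ℝ) / mm i ≤ I.card / mm b :=
        div_le_div_of_nonneg_left (Nat.cast_nonneg _) (by linarith) (by exact_mod_cast mm_mono hi)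
      linarith) (2 ^ b) i f hf (Finset.range (nn b)) (le_refl _)
  rw [Finset.card_range, ← mm_eq] at hg
  have e0 : (2 * n) ^ (2 ^ b + 1) ≤ (2 * n) ^ (2 * 2 ^ b + 1) :=
    pow_le_pow_right₀ (by linarith) (by omega)
  have e1 : 2 * (2 * n) ^ (2 ^ b + 1) ≤ nn b / (mm b : ℝ) ^ 4 := by
    refine le_trans ?_ hbig
    have : 0 ≤ (2 * n) ^ (2 * 2 ^ b + 1) := by positivity
    nlinarith
  have e2 : C * 2 * (2 * n) ^ (2 ^ b + 1) ≤ C * (nn b / mm b) := by
    have h3 : (nn b : ℝ) / (mm b : ℝ) ^ 4 ≤ nn b / mm b := by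
      refine div_le_div_of_nonneg_left hN.le (by linarith) ?_
      exact le_self_pow₀ (by linarith) (by norm_num)
    nlinarith
  have e3 : ∑ k ∈ Finset.range (nn b), pr f (x k) ≤ 3 * C * (nn b / mm b) := by
    refine hg.trans ?_
    have : C * ((mm b : ℝ)⁻¹ + (mm b : ℝ)⁻¹) * nn b = 2 * C * (nn b / mm b) := by
      field_simp
      ring
    rw [this]
    linarith
  calc (mm b / nn b : ℝ) * ∑ k ∈ Finset.range (nn b), pr f (x k)
      ≤ (mm b / nn b : ℝ) * (3 * C * (nn b / mm b)) := mul_le_mul_of_nonneg_left e3 (by positivity)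
    _ = 3 * C := by
      field_simp

/-- low weights -/
theorem typed_low (h : RIS (nn b) x c d C jj) {i : ℕ} (hi : 1 ≤ i) (hib : i < b)
    {f : ℝ → ℝ} (hf : W i f) :
    (mm b / nn b : ℝ) * ∑ k ∈ Finset.range (nn b), pr f (x k) ≤ 3 * C / mm i := by
  have hb : 1 ≤ b := by omega
  obtain ⟨n, hn1, hn, hbig⟩ := nn_big b hb
  have hC := h.bl.one_le
  have hm4 : (4 : ℝ) ≤ mm b := by exact_mod_cast four_le_mm hb
  have hN := nn_real_pos b
  have hmi := mm_real_pos i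
  have hg := general h.bl b n hn1 hn 2 (mm b) le_rfl (by linarith) h.base
    (fun i hi hi1 f hf I hI => by
      refine (h.high hi1 hf I hI).trans ?_
      refine mul_le_mul_of_nonneg_left ?_ (by linarith)
      have : (I.card : ℝ) / mm i ≤ I.card / mm b :=
        div_le_div_of_nonneg_left (Nat.cast_nonneg _) (by linarith) (by exact_mod_cast mm_mono hi)
      linarith) (2 ^ b)
  rw [← mm_eq] at hg
  have h1 := lowstep h.bl hi n (hn i hib) hf (Finset.range (nn b)) (le_refl _) _ _ (by positivity)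
    (by positivity) hg
  rw [Finset.card_range] at h1
  have e0 : (2 * n) ^ (2 ^ b + 1) ≤ (2 * n) ^ (2 * 2 ^ b + 1) :=
    pow_le_pow_right₀ (by linarith) (by omega)
  have hP : 1 ≤ (2 * n) ^ (2 * 2 ^ b + 1) := one_le_pow₀ (by linarith)
  -- both error terms
  have e1 : n + 1 ≤ nn b / (mm b : ℝ) ^ 4 := by
    refine le_trans ?_ hbig
    nlinarith
  have e2 : n * (2 * (2 * n) ^ (2 ^ b + 1)) ≤ nn b / (mm b : ℝ) ^ 4 := by
    refine le_trans ?_ hbig
    have q1 : 0 ≤ (2 * n) ^ (2 ^ b + 1) := by positivity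
    nlinarith
  have hmm : (mm i : ℝ) ≤ mm b := by exact_mod_cast mm_mono hib.le
  have e3 : (mm b / nn b : ℝ) * (nn b / (mm b : ℝ) ^ 4) ≤ (mm i : ℝ)⁻¹ / 4 := by
    have q1 : (mm b / nn b : ℝ) * (nn b / (mm b : ℝ) ^ 4) = ((mm b : ℝ) ^ 3)⁻¹ := by
      field_simp
    rw [q1]
    have q2 : (mm i : ℝ)⁻¹ / 4 = (4 * (mm i : ℝ))⁻¹ := by
      rw [mul_inv]; ring
    rw [q2]
    refine inv_anti₀ (by positivity) ?_
    have q3 : (1 : ℝ) ≤ mm b := by linarith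
    calc 4 * (mm i : ℝ) ≤ mm b * mm b := mul_le_mul hm4 hmm hmi.le (by linarith)
      _ = (mm b : ℝ) ^ 2 := by ring
      _ ≤ (mm b : ℝ) ^ 3 := pow_le_pow_right₀ q3 (by norm_num)
  have e4 : (mm b / nn b : ℝ) * (C * (n + 1)) ≤ C / 4 / mm i := by
    calc (mm b / nn b : ℝ) * (C * (n + 1)) ≤ (mm b / nn b : ℝ) * (C * (nn b / (mm b : ℝ) ^ 4)) :=
          mul_le_mul_of_nonneg_left (mul_le_mul_of_nonneg_left e1 (by linarith)) (by positivity)
      _ = C * ((mm b / nn b : ℝ) * (nn b / (mm b : ℝ) ^ 4)) := by ring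
      _ ≤ C * ((mm i : ℝ)⁻¹ / 4) := mul_le_mul_of_nonneg_left e3 (by linarith)
      _ = C / 4 / mm i := by ring
  have e5 : (mm b / nn b : ℝ) * (n * (C * 2 * (2 * n) ^ (2 ^ b + 1))) ≤ C / 4 := by
    calc (mm b / nn b : ℝ) * (n * (C * 2 * (2 * n) ^ (2 ^ b + 1)))
        = (mm b / nn b : ℝ) * (C * (n * (2 * (2 * n) ^ (2 ^ b + 1)))) := by ring
      _ ≤ (mm b / nn b : ℝ) * (C * (nn b / (mm b : ℝ) ^ 4)) :=
          mul_le_mul_of_nonneg_left (mul_le_mul_of_nonneg_left e2 (by linarith)) (by positivity)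
      _ = C * ((mm b / nn b : ℝ) * (nn b / (mm b : ℝ) ^ 4)) := by ring
      _ ≤ C * ((mm i : ℝ)⁻¹ / 4) := mul_le_mul_of_nonneg_left e3 (by linarith)
      _ ≤ C * (1 / 4) := by
        refine mul_le_mul_of_nonneg_left ?_ (by linarith)
        have : (mm i : ℝ)⁻¹ ≤ 1 := inv_le_one_of_one_le₀ (by
          have : (4 : ℝ) ≤ mm i := by exact_mod_cast four_le_mm hi
          linarith)
        linarith
      _ = C / 4 := by ring
  have e6 : (mm b / nn b : ℝ) * (C * ((mm b : ℝ)⁻¹ + (mm b : ℝ)⁻¹) * nn b) = 2 * C := by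
    field_simp
    ring
  calc (mm b / nn b : ℝ) * ∑ k ∈ Finset.range (nn b), pr f (x k)
      ≤ (mm b / nn b : ℝ) * (C * (n + 1) + (mm i : ℝ)⁻¹ * (n * (C * 2 * (2 * n) ^ (2 ^ b + 1)) +
          C * ((mm b : ℝ)⁻¹ + (mm b : ℝ)⁻¹) * nn b)) := mul_le_mul_of_nonneg_left h1 (by positivity)
    _ = (mm b / nn b : ℝ) * (C * (n + 1)) + (mm i : ℝ)⁻¹ * ((mm b / nn b : ℝ) * (n * (C * 2 * (2 * n) ^ (2 ^ b + 1))) +
          (mm b / nn b : ℝ) * (C * ((mm b : ℝ)⁻¹ + (mm b : ℝ)⁻¹) * nn b)) := by ring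
    _ ≤ C / 4 / mm i + (mm i : ℝ)⁻¹ * (C / 4 + 2 * C) := by
        refine add_le_add e4 (mul_le_mul_of_nonneg_left ?_ (by positivity))
        rw [e6]
        linarith
    _ = (5 / 2 * C) / mm i := by field_simp; ring
    _ ≤ 3 * C / mm i := div_le_div_of_nonneg_right (by linarith) hmi.le

/-- high weights -/
theorem typed_high (hb : 1 ≤ b) (h : RIS (nn b) x c d C jj) {i : ℕ} (hbi : b < i)
    {f : ℝ → ℝ} (hf : W i f) :
    (mm b / nn b : ℝ) * ∑ k ∈ Finset.range (nn b), pr f (x k) ≤ 3 * C / mm b := by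
  have hC := h.bl.one_le
  have hm4 : (4 : ℝ) ≤ mm b := by exact_mod_cast four_le_mm hb
  have hN := nn_real_pos b
  have hi : 1 ≤ i := by omega
  have h1 := h.high hi hf (Finset.range (nn b)) (le_refl _)
  rw [Finset.card_range] at h1
  have h2 : (mm b : ℝ) ^ 2 ≤ mm i := by
    have : mm (b + 1) ≤ mm i := mm_mono (by omega)
    rw [mm_succ] at this
    exact_mod_cast this
  have h3 : (mm b : ℝ) ^ 4 ≤ nn b := by
    obtain ⟨n, hn1, hn, hbig⟩ := nn_big b hb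
    have hP : 1 ≤ (2 * n) ^ (2 * 2 ^ b + 1) := one_le_pow₀ (by linarith)
    rw [le_div_iff₀ (by positivity)] at hbig
    have q1 : 0 < (mm b : ℝ) ^ 4 := by positivity
    have q2 : 1 ≤ 2 * (2 * n) ^ (2 * 2 ^ b + 1) * (n + 1) := by nlinarith
    nlinarith
  have e1 : (mm b / nn b : ℝ) * (C * 2) ≤ C / mm b := by
    rw [div_mul_eq_mul_div, div_le_div_iff₀ hN (by linarith)]
    have q1 : (mm b : ℝ) * (C * 2) * mm b = C * (2 * (mm b : ℝ) ^ 2) := by ring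
    rw [q1]
    refine mul_le_mul_of_nonneg_left ?_ (by linarith)
    have q0 : (16 : ℝ) ≤ (mm b : ℝ) ^ 2 := by nlinarith
    have q3 : (mm b : ℝ) ^ 4 = (mm b : ℝ) ^ 2 * (mm b : ℝ) ^ 2 := by ring
    have q2 : 2 * (mm b : ℝ) ^ 2 ≤ (mm b : ℝ) ^ 4 := by rw [q3]; nlinarith
    linarith
  have e2 : (mm b / nn b : ℝ) * (C * (nn b / mm i)) ≤ C / mm b := by
    have q1 : (mm b / nn b : ℝ) * (C * (nn b / mm i)) = C * (mm b / mm i) := by
      have := mm_real_pos i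
      field_simp
    rw [q1, div_eq_mul_inv C]
    refine mul_le_mul_of_nonneg_left ?_ (by linarith)
    rw [div_le_iff₀ (mm_real_pos i), inv_mul_eq_div, le_div_iff₀ (by linarith)]
    linarith
  calc (mm b / nn b : ℝ) * ∑ k ∈ Finset.range (nn b), pr f (x k)
      ≤ (mm b / nn b : ℝ) * (C * (2 + nn b / mm i)) := mul_le_mul_of_nonneg_left h1 (by positivity)
    _ = (mm b / nn b : ℝ) * (C * 2) + (mm b / nn b : ℝ) * (C * (nn b / mm i)) := by ring
    _ ≤ C / mm b + C / mm b := add_le_add e1 e2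
    _ = 2 * C / mm b := by ring
    _ ≤ 3 * C / mm b := div_le_div_of_nonneg_right (by linarith) (by linarith)

/-- the estimate when the functionals of weight `b` act badly -/
theorem typed_special (hb : 1 ≤ b) (h : RIS (nn b) x c d C jj)
    (hsp : ∀ f, W b f → ∀ I ⊆ Finset.range (nn b), ∑ k ∈ I, pr f (x k) ≤ C * 2)
    {i : ℕ} {f : ℝ → ℝ} (hf : W i f) :
    (nn b : ℝ)⁻¹ * ∑ k ∈ Finset.range (nn b), pr f (x k) ≤ 3 * C / (mm b : ℝ) ^ 2 := by
  obtain ⟨n, hn1, hn, hbig⟩ := nn_big b hb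
  have hC := h.bl.one_le
  have hm4 : (4 : ℝ) ≤ mm b := by exact_mod_cast four_le_mm hb
  have hN := nn_real_pos b
  have hm2 : (0 : ℝ) < (mm b : ℝ) ^ 2 := by positivity
  have hg := general h.bl b n hn1 hn 2 ((mm b : ℝ) ^ 2) le_rfl hm2 h.base
    (fun i hi hi1 f hf I hI => by
      rcases hi.eq_or_lt with heq | hlt
      · subst heq
        refine (hsp f hf I hI).trans ?_
        refine mul_le_mul_of_nonneg_left ?_ (by linarith)
        have : (0 : ℝ) ≤ I.card / (mm b : ℝ) ^ 2 := by positivity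
        linarith
      · refine (h.high hi1 hf I hI).trans ?_
        refine mul_le_mul_of_nonneg_left ?_ (by linarith)
        have h2 : (mm b : ℝ) ^ 2 ≤ mm i := by
          have : mm (b + 1) ≤ mm i := mm_mono (by omega)
          rw [mm_succ] at this
          exact_mod_cast this
        have : (I.card : ℝ) / mm i ≤ I.card / (mm b : ℝ) ^ 2 :=
          div_le_div_of_nonneg_left (Nat.cast_nonneg _) hm2 h2
        linarith) (2 * 2 ^ b) i f hf (Finset.range (nn b)) (le_refl _)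
  have e0 : (2 : ℝ) ^ (2 * 2 ^ b) = (mm b : ℝ) ^ 2 := by
    rw [mm_eq, ← pow_mul]
    congr 1
    ring
  rw [Finset.card_range, e0] at hg
  have e1 : 2 * (2 * n) ^ (2 * 2 ^ b + 1) ≤ nn b / (mm b : ℝ) ^ 4 := by
    refine le_trans ?_ hbig
    have : 0 ≤ (2 * n) ^ (2 * 2 ^ b + 1) := by positivity
    nlinarith
  have e2 : C * 2 * (2 * n) ^ (2 * 2 ^ b + 1) ≤ C * (nn b / (mm b : ℝ) ^ 2) := by
    have h3 : (nn b : ℝ) / (mm b : ℝ) ^ 4 ≤ nn b / (mm b : ℝ) ^ 2 := by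
      refine div_le_div_of_nonneg_left hN.le hm2 ?_
      exact pow_le_pow_right₀ (by linarith) (by norm_num)
    nlinarith
  have e3 : ∑ k ∈ Finset.range (nn b), pr f (x k) ≤ 3 * C * (nn b / (mm b : ℝ) ^ 2) := by
    refine hg.trans ?_
    have : C * (((mm b : ℝ) ^ 2)⁻¹ + ((mm b : ℝ) ^ 2)⁻¹) * nn b = 2 * C * (nn b / (mm b : ℝ) ^ 2) := by
      field_simp
      ring
    rw [this]
    linarith
  calc (nn b : ℝ)⁻¹ * ∑ k ∈ Finset.range (nn b), pr f (x k)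
      ≤ (nn b : ℝ)⁻¹ * (3 * C * (nn b / (mm b : ℝ) ^ 2)) := mul_le_mul_of_nonneg_left e3 (by positivity)
    _ = 3 * C / (mm b : ℝ) ^ 2 := by
      field_simp

end

/-- averages of long sequences -/
lemma avg_low {N : ℕ} {y : ℕ → ℝ → ℝ} {c d : ℕ → ℕ} (hB : Blocks N y c d 1) {i : ℕ} (hi : 1 ≤ i)
    (hN : mm i * nn i ≤ N) {f : ℝ → ℝ} (hf : W i f) :
    (N : ℝ)⁻¹ * ∑ k ∈ Finset.range N, pr f (y k) ≤ 3 / mm i := by
  have hm := mm_real_pos i
  have hn := nn_real_pos i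
  have hn1 : (1 : ℝ) ≤ nn i := by exact_mod_cast nn_pos i
  have hNr : (mm i : ℝ) * nn i ≤ N := by exact_mod_cast hN
  have hN0 : (0 : ℝ) < N := lt_of_lt_of_le (by positivity) hNr
  have h1 := lowstep hB hi (nn i) le_rfl hf (Finset.range N) (le_refl _) 0 1 le_rfl zero_le_one
    (fun i' f' hf' I' hI' => by
      rw [zero_add, one_mul, ← nsmul_one, ← Finset.sum_const]
      exact Finset.sum_le_sum fun k hk => (hB.vr k (Finset.mem_range.1 (hI' hk))).nrm i' f' hf')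
  rw [Finset.card_range] at h1
  rw [inv_mul_le_iff₀ hN0]
  refine h1.trans ?_
  have e1 : 1 * ((nn i : ℝ) + 1) ≤ 2 * (N / mm i) := by
    have : (nn i : ℝ) ≤ N / mm i := by rw [le_div_iff₀ hm]; linarith
    linarith
  have e2 : (mm i : ℝ)⁻¹ * (nn i * 0 + 1 * N) = N / mm i := by
    rw [mul_zero, zero_add, one_mul, inv_mul_eq_div]
  rw [e2]
  have e3 : (N : ℝ) * (3 / mm i) = 3 * (N / mm i) := by ring
  rw [e3]
  linarith

end Pool.Agent.Helper64.Tight
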