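import Mathlib
import Pool.Agent.Helper64.Tight.Typed

/-!
# The norm on bounded functions and sequences with small supports
-/

open MeasureTheory
open scoped ENNReal symmDiff

namespace Pool.Agent.Helper64.Tight

/-- bounded nonnegative measurable functions -/
structure Bd (x : ℝ → ℝ) : Prop where
  meas : Measurable x
  nonneg : ∀ t, 0 ≤ x t
  bdd : ∃ C, ∀ t, x t ≤ C

lemma Bd.memLp {x : ℝ → ℝ} (h : Bd x) (p : ℝ≥0∞) : MemLp x p mu := by
  obtain ⟨C, hC⟩ := h.bdd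
  exact memLp_of_bdd h.meas h.nonneg hC p

lemma Bd.integrable_mul {x : ℝ → ℝ} (h : Bd x) {i : ℕ} {f : ℝ → ℝ} (hf : W i f) :
    Integrable (fun t => f t * x t) mu := (hf.memLp 2).integrable_mul (h.memLp 2)

lemma Bd.zero : Bd (fun _ => 0) := ⟨measurable_const, fun _ => le_rfl, ⟨0, fun _ => le_rfl⟩⟩

lemma Bd.add {x y : ℝ → ℝ} (hx : Bd x) (hy : Bd y) : Bd (fun t => x t + y t) := by
  obtain ⟨C, hC⟩ := hx.bdd
  obtain ⟨C', hC'⟩ := hy.bdd
  exact ⟨hx.meas.add hy.meas, fun t => add_nonneg (hx.nonneg t) (hy.nonneg t),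
    ⟨C + C', fun t => add_le_add (hC t) (hC' t)⟩⟩

lemma Bd.smul {x : ℝ → ℝ} (hx : Bd x) {r : ℝ} (hr : 0 ≤ r) : Bd (fun t => r * x t) := by
  obtain ⟨C, hC⟩ := hx.bdd
  exact ⟨hx.meas.const_mul r, fun t => mul_nonneg hr (hx.nonneg t),
    ⟨r * C, fun t => mul_le_mul_of_nonneg_left (hC t) hr⟩⟩

/-- the norm of a nonnegative function -/
noncomputable def nrm (x : ℝ → ℝ) : ℝ := sSup {r | ∃ i f, W i f ∧ r = pr f x}

lemma nrm_set_nonempty (x : ℝ → ℝ) : {r | ∃ i f, W i f ∧ r = pr f x}.Nonempty :=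
  ⟨pr (bh 0) x, 0, bh 0, W.base 0, rfl⟩

lemma Bd.bddAbove {x : ℝ → ℝ} (h : Bd x) : BddAbove {r | ∃ i f, W i f ∧ r = pr f x} := by
  obtain ⟨C, hC⟩ := h.bdd
  have hC0 : 0 ≤ C := (h.nonneg 0).trans (hC 0)
  refine ⟨C * 2, ?_⟩
  rintro r ⟨i, f, hf, rfl⟩
  have h1 : pr f x ≤ ∫ t, C * f t ∂mu := by
    unfold pr
    refine integral_mono (h.integrable_mul hf) (((hf.memLp 1).integrable le_rfl).const_mul _) fun t => ?_
    dsimp only
    rw [mul_comm]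
    exact mul_le_mul_of_nonneg_right (hC t) (hf.nn t)
  refine h1.trans ?_
  rw [integral_const_mul]
  refine mul_le_mul_of_nonneg_left ?_ hC0
  have := hf.c1 Set.univ MeasurableSet.univ
  rw [setIntegral_univ] at this
  simpa using this

lemma Bd.pr_le {x : ℝ → ℝ} (h : Bd x) {i : ℕ} {f : ℝ → ℝ} (hf : W i f) : pr f x ≤ nrm x :=
  le_csSup h.bddAbove ⟨i, f, hf, rfl⟩

lemma nrm_le {x : ℝ → ℝ} {C : ℝ} (h : ∀ i f, W i f → pr f x ≤ C) : nrm x ≤ C := by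
  refine csSup_le (nrm_set_nonempty x) ?_
  rintro r ⟨i, f, hf, rfl⟩
  exact h i f hf

lemma exists_of_lt_nrm {x : ℝ → ℝ} {r : ℝ} (h : r < nrm x) : ∃ i f, W i f ∧ r < pr f x := by
  obtain ⟨_, ⟨i, f, hf, rfl⟩, hr⟩ := exists_lt_of_lt_csSup (nrm_set_nonempty x) h
  exact ⟨i, f, hf, hr⟩

lemma Bd.nrm_nonneg {x : ℝ → ℝ} (h : Bd x) : 0 ≤ nrm x :=
  (pr_nonneg (bh_nn 0) h.nonneg).trans (h.pr_le (W.base 0))

lemma pr_add {f x y : ℝ → ℝ} (hx : Integrable (fun t => f t * x t) mu)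
    (hy : Integrable (fun t => f t * y t) mu) : pr f (fun t => x t + y t) = pr f x + pr f y := by
  unfold pr
  simp_rw [mul_add]
  exact integral_add hx hy

lemma pr_smul (f x : ℝ → ℝ) (r : ℝ) : pr f (fun t => r * x t) = r * pr f x := by
  unfold pr
  rw [← integral_const_mul]
  refine integral_congr_ae (Filter.Eventually.of_forall fun t => ?_)
  dsimp only
  ring

lemma nrm_smul {x : ℝ → ℝ} (hx : Bd x) {r : ℝ} (hr : 0 ≤ r) : nrm (fun t => r * x t) = r * nrm x := by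
  refine le_antisymm (nrm_le fun i f hf => ?_) ?_
  · rw [pr_smul]
    exact mul_le_mul_of_nonneg_left (hx.pr_le hf) hr
  · rcases hr.eq_or_lt with h0 | h0
    · rw [← h0, zero_mul]
      exact (hx.smul le_rfl).nrm_nonneg
    · rw [← le_div_iff₀' h0]
      refine nrm_le fun i f hf => ?_
      rw [le_div_iff₀' h0, ← pr_smul]
      exact (hx.smul hr).pr_le hf

lemma pr_mono_right {f x y : ℝ → ℝ} (hf : ∀ t, 0 ≤ f t) (hx : Integrable (fun t => f t * x t) mu)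
    (hy : Integrable (fun t => f t * y t) mu) (h : ∀ t, x t ≤ y t) : pr f x ≤ pr f y :=
  integral_mono hx hy fun t => mul_le_mul_of_nonneg_left (h t) (hf t)

lemma nrm_mono {x y : ℝ → ℝ} (hx : Bd x) (hy : Bd y) (h : ∀ t, x t ≤ y t) : nrm x ≤ nrm y :=
  nrm_le fun _ _ hf => (pr_mono_right hf.nn (hx.integrable_mul hf) (hy.integrable_mul hf) h).trans (hy.pr_le hf)

/-- combinations -/
noncomputable def U (u : ℕ → ℝ → ℝ) : (ℕ →₀ ℝ) →ₗ[ℝ] (ℝ → ℝ) := Finsupp.linearCombination ℝ u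

lemma U_apply (u : ℕ → ℝ → ℝ) (a : ℕ →₀ ℝ) (t : ℝ) : U u a t = ∑ n ∈ a.support, a n * u n t := by
  unfold U
  rw [Finsupp.linearCombination_apply, Finsupp.sum, Finset.sum_apply]
  rfl

lemma U_single (u : ℕ → ℝ → ℝ) (n : ℕ) (r : ℝ) : U u (Finsupp.single n r) = fun t => r * u n t := by
  unfold U
  rw [Finsupp.linearCombination_single]
  rfl

/-- sequences with rapidly decreasing supports -/
structure TS (u : ℕ → ℝ → ℝ) (c : ℕ → ℕ) : Prop where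
  meas : ∀ n, Measurable (u n)
  nonneg : ∀ n t, 0 ≤ u n t
  supp : ∀ n, mu.real {t | ∃ i, n ≤ i ∧ u i t ≠ 0} ≤ ((16 : ℝ) ^ (c n))⁻¹
  bd : ∀ n t, 2 ^ 12 * u n t ≤ 2 ^ (c (n + 1))
  mono : StrictMono c
  start : 5 ≤ c 0

lemma TS.c_ge {u : ℕ → ℝ → ℝ} {c : ℕ → ℕ} (h : TS u c) (n : ℕ) : n + 5 ≤ c n := by
  induction n with
  | zero => simpa using h.start
  | succ n ih =>
    have := h.mono (Nat.lt_succ_self n)
    have h2 : c n < c (n + 1) := this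
    omega

lemma TS.c_add {u : ℕ → ℝ → ℝ} {c : ℕ → ℕ} (h : TS u c) (n k : ℕ) : c n + k ≤ c (n + k) := by
  induction k with
  | zero => simp
  | succ k ih =>
    have h2 : c (n + k) < c (n + k + 1) := h.mono (Nat.lt_succ_self _)
    have h3 : n + (k + 1) = n + k + 1 := by ring
    rw [h3]
    omega

lemma TS.bdU {u : ℕ → ℝ → ℝ} {c : ℕ → ℕ} (h : TS u c) (a : ℕ →₀ ℝ) (ha : ∀ n, 0 ≤ a n) : Bd (U u a) := by
  refine ⟨?_, fun t => ?_, ?_⟩
  · have : U u a = fun t => ∑ n ∈ a.support, a n * u n t := by funext t; exact U_apply u a t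
    rw [this]
    exact Finset.measurable_sum _ fun n _ => (h.meas n).const_mul _
  · rw [U_apply]
    exact Finset.sum_nonneg fun n _ => mul_nonneg (ha n) (h.nonneg n t)
  · refine ⟨∑ n ∈ a.support, a n * 2 ^ (c (n + 1)), fun t => ?_⟩
    rw [U_apply]
    refine Finset.sum_le_sum fun n _ => mul_le_mul_of_nonneg_left ?_ (ha n)
    have := h.bd n t
    have := h.nonneg n t
    linarith

lemma TS.bdu {u : ℕ → ℝ → ℝ} {c : ℕ → ℕ} (h : TS u c) (n : ℕ) : Bd (u n) := by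
  refine ⟨h.meas n, h.nonneg n, ⟨2 ^ (c (n + 1)), fun t => ?_⟩⟩
  have := h.bd n t
  have := h.nonneg n t
  linarith

/-- coefficient blocks -/
structure Cf (s e : ℕ) (a : ℕ →₀ ℝ) : Prop where
  nonneg : ∀ n, 0 ≤ a n
  supp : ∀ n ∈ a.support, s ≤ n ∧ n < e

lemma Cf.mono {s e s' e' : ℕ} {a : ℕ →₀ ℝ} (h : Cf s e a) (hs : s' ≤ s) (he : e ≤ e') : Cf s' e' a :=
  ⟨h.nonneg, fun n hn => by have := h.supp n hn; omega⟩

lemma Cf.smul {s e : ℕ} {a : ℕ →₀ ℝ} (h : Cf s e a) {r : ℝ} (hr : 0 ≤ r) : Cf s e (r • a) :=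
  ⟨fun n => by rw [Finsupp.smul_apply, smul_eq_mul]; exact mul_nonneg hr (h.nonneg n),
    fun n hn => h.supp n (Finsupp.support_smul hn)⟩

lemma Cf.sum {N : ℕ} {s e : ℕ} {a : ℕ → ℕ →₀ ℝ} (h : ∀ k < N, Cf s e (a k)) :
    Cf s e (∑ k ∈ Finset.range N, a k) := by
  refine ⟨fun n => ?_, fun n hn => ?_⟩
  · rw [Finsupp.finsetSum_apply]
    exact Finset.sum_nonneg fun k hk => (h k (Finset.mem_range.1 hk)).nonneg n
  · by_contra hcon
    rw [Finsupp.mem_support_iff, Finsupp.finsetSum_apply] at hn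
    apply hn
    refine Finset.sum_eq_zero fun k hk => ?_
    by_contra hne
    exact hcon ((h k (Finset.mem_range.1 hk)).supp n (Finsupp.mem_support_iff.2 hne))

lemma sum_pow_c_le {c : ℕ → ℕ} (hc : StrictMono c) (e : ℕ) (S : Finset ℕ) (hS : ∀ n ∈ S, n < e) :
    ∑ n ∈ S, (2 : ℝ) ^ (c (n + 1)) ≤ 2 ^ (c e + 1) := by
  have h1 : Set.InjOn (fun n => c (n + 1)) (S : Set ℕ) := by
    intro n _ n' _ hnn
    have := hc.injective hnn
    omega
  rw [← Finset.sum_image (f := fun k => (2 : ℝ) ^ k) h1]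
  have h2 : S.image (fun n => c (n + 1)) ⊆ Finset.range (c e + 1) := by
    intro k hk
    rw [Finset.mem_image] at hk
    obtain ⟨n, hn, rfl⟩ := hk
    rw [Finset.mem_range]
    have := hc.monotone (show n + 1 ≤ e from hS n hn)
    omega
  refine (Finset.sum_le_sum_of_subset_of_nonneg h2 (fun _ _ _ => by positivity)).trans ?_
  rw [geom_sum_eq (by norm_num)]
  have : (0 : ℝ) < 2 ^ (c e + 1) := by positivity
  rw [div_le_iff₀ (by norm_num)]
  linarith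

lemma TS.suppU {u : ℕ → ℝ → ℝ} {c : ℕ → ℕ} (h : TS u c) {s e : ℕ} {a : ℕ →₀ ℝ} (ha : Cf s e a) :
    {t | U u a t ≠ 0} ⊆ {t | ∃ i, s ≤ i ∧ u i t ≠ 0} := by
  intro t ht
  by_contra hcon
  apply ht
  rw [U_apply]
  refine Finset.sum_eq_zero fun n hn => ?_
  have : u n t = 0 := by
    by_contra hne
    exact hcon ⟨n, (ha.supp n hn).1, hne⟩
  rw [this, mul_zero]

lemma TS.vr {u : ℕ → ℝ → ℝ} {c : ℕ → ℕ} (h : TS u c) {s e : ℕ} (hse : s < e) {a : ℕ →₀ ℝ} (ha : Cf s e a)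
    (hle : ∀ n, a n ≤ 2 ^ 10) {C : ℝ} (hC : nrm (U u a) ≤ C) : VR (U u a) (c s) (c e) C where
  meas := (h.bdU a ha.nonneg).meas
  nonneg := (h.bdU a ha.nonneg).nonneg
  supp := (measureReal_mono (h.suppU ha)).trans (h.supp s)
  bd t := by
    rw [U_apply]
    have h1 : ∀ n ∈ a.support, a n * u n t ≤ 2 ^ (c (n + 1)) / 4 := by
      intro n _
      have e1 := h.bd n t
      have e2 := h.nonneg n t
      have e3 : a n * u n t ≤ 2 ^ 10 * u n t := mul_le_mul_of_nonneg_right (hle n) e2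
      linarith
    refine (Finset.sum_le_sum h1).trans ?_
    rw [← Finset.sum_div]
    have h2 := sum_pow_c_le h.mono e a.support (fun n hn => (ha.supp n hn).2)
    rw [pow_succ] at h2
    have : (0 : ℝ) < 2 ^ (c e) := by positivity
    linarith
  lt := h.mono hse
  nrm i f hf := ((h.bdU a ha.nonneg).pr_le hf).trans hC

lemma coef_le {u : ℕ → ℝ → ℝ} {c : ℕ → ℕ} (h : TS u c) {a : ℕ →₀ ℝ} (ha : ∀ n, 0 ≤ a n) (n : ℕ) :
    a n * nrm (u n) ≤ nrm (U u a) := by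
  rw [← nrm_smul (h.bdu n) (ha n)]
  refine nrm_mono ((h.bdu n).smul (ha n)) (h.bdU a ha) fun t => ?_
  rw [U_apply]
  by_cases hn : n ∈ a.support
  · exact Finset.single_le_sum (f := fun n => a n * u n t) (fun k _ => mul_nonneg (ha k) (h.nonneg k t)) hn
  · rw [Finsupp.notMem_support_iff.1 hn, zero_mul]
    exact Finset.sum_nonneg fun k _ => mul_nonneg (ha k) (h.nonneg k t)

lemma pr_sum {N : ℕ} {f : ℝ → ℝ} {x : ℕ → ℝ → ℝ} (S : Finset ℕ)
    (h : ∀ k ∈ S, Integrable (fun t => f t * x k t) mu) :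
    pr f (fun t => ∑ k ∈ S, x k t) = ∑ k ∈ S, pr f (x k) := by
  unfold pr
  simp_rw [Finset.mul_sum]
  exact integral_finsetSum _ h

lemma pr_U_sum {u : ℕ → ℝ → ℝ} {c : ℕ → ℕ} (h : TS u c) {i : ℕ} {f : ℝ → ℝ} (hf : W i f) (r : ℝ)
    (S : Finset ℕ) (a : ℕ → ℕ →₀ ℝ) (ha : ∀ k ∈ S, ∀ n, 0 ≤ a k n) :
    pr f (U u (r • ∑ k ∈ S, a k)) = r * ∑ k ∈ S, pr f (U u (a k)) := by
  rw [map_smul, map_sum]
  have h1 : (r • ∑ k ∈ S, U u (a k)) = fun t => r * ∑ k ∈ S, U u (a k) t := by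
    funext t
    rw [Pi.smul_apply, Finset.sum_apply, smul_eq_mul]
  rw [h1, pr_smul, pr_sum (N := 0) S (fun k hk => (h.bdU (a k) (ha k hk)).integrable_mul hf)]

end Pool.Agent.Helper64.Tight
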