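import Mathlib
import Pool.Agent.Helper64.Tight.Seq

/-!
# Norming functionals
-/

open MeasureTheory
open scoped ENNReal symmDiff

namespace Pool.Agent.Helper64.Tight

lemma int_ind_le {z : ℝ → ℝ} (hz : Integrable z mu) {B : Set ℝ} (hB : MeasurableSet B) {C δ : ℝ} (hC : 0 ≤ C)
    (hδ : mu.real B ≤ δ) (h : ∀ t, z t ≤ B.indicator (fun _ => C) t) : ∫ t, z t ∂mu ≤ C * δ := by
  have h1 : ∫ t, z t ∂mu ≤ ∫ t, B.indicator (fun _ => C) t ∂mu :=
    integral_mono hz ((integrable_const C).indicator hB) h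
  refine h1.trans ?_
  rw [integral_indicator hB, setIntegral_const, smul_eq_mul, mul_comm]
  exact mul_le_mul_of_nonneg_left hδ hC

/-- norming functionals living almost on the support -/
theorem norming {x y : ℝ → ℝ} (hx : Bd x) (hy : Bd y) (hxy : ∀ t, x t = 0 ∨ y t = 0) {c : ℕ}
    (hs : mu.real {t | x t ≠ 0} ≤ ((16 : ℝ) ^ (c + 1))⁻¹) {r : ℝ} (hr : r < nrm x) {ε : ℝ} (hε : 0 < ε) :
    ∃ i g β, W i g ∧ mu.real {t | g t ≠ 0} ≤ ((16 : ℝ) ^ c)⁻¹ ∧ (∀ t, g t ≤ 2 ^ β) ∧ r < pr g x ∧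
      pr g y ≤ ε := by
  obtain ⟨i, f, hf, hrf⟩ := exists_of_lt_nrm hr
  obtain ⟨Cf, hCf0, hCf⟩ := hf.bdd
  obtain ⟨Cx, hCx⟩ := hx.bdd
  obtain ⟨Cy, hCy⟩ := hy.bdd
  have hCx0 : 0 ≤ Cx := (hx.nonneg 0).trans (hCx 0)
  have hCy0 : 0 ≤ Cy := (hy.nonneg 0).trans (hCy 0)
  obtain ⟨δ, hδ0, h1, h2, h3⟩ : ∃ δ : ℝ, 0 < δ ∧ Cf * Cx * δ < pr f x - r ∧ Cf * Cy * δ ≤ ε ∧
      δ ≤ ((16 : ℝ) ^ (c + 1))⁻¹ := by
    have hd : 0 < pr f x - r := by linarith
    refine ⟨min ((pr f x - r) / (Cf * Cx + 1)) (min (ε / (Cf * Cy + 1)) ((16 : ℝ) ^ (c + 1))⁻¹),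
      lt_min (by positivity) (lt_min (by positivity) (by positivity)), ?_, ?_, ?_⟩
    · have hp : 0 < Cf * Cx + 1 := by positivity
      calc Cf * Cx * min ((pr f x - r) / (Cf * Cx + 1)) (min (ε / (Cf * Cy + 1)) ((16 : ℝ) ^ (c + 1))⁻¹)
          ≤ Cf * Cx * ((pr f x - r) / (Cf * Cx + 1)) :=
            mul_le_mul_of_nonneg_left (min_le_left _ _) (by positivity)
        _ < (Cf * Cx + 1) * ((pr f x - r) / (Cf * Cx + 1)) :=
            mul_lt_mul_of_pos_right (by linarith) (by positivity)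
        _ = pr f x - r := by field_simp
    · have hp : 0 < Cf * Cy + 1 := by positivity
      calc Cf * Cy * min ((pr f x - r) / (Cf * Cx + 1)) (min (ε / (Cf * Cy + 1)) ((16 : ℝ) ^ (c + 1))⁻¹)
          ≤ Cf * Cy * (ε / (Cf * Cy + 1)) :=
            mul_le_mul_of_nonneg_left ((min_le_right _ _).trans (min_le_left _ _)) (by positivity)
        _ ≤ (Cf * Cy + 1) * (ε / (Cf * Cy + 1)) :=
            mul_le_mul_of_nonneg_right (by linarith) (by positivity)
        _ = ε := by field_simp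
    · exact (min_le_right _ _).trans (min_le_right _ _)
  set A : Set ℝ := {t | x t ≠ 0} with hA
  have hAm : MeasurableSet A := measurableSet_supp hx.meas
  obtain ⟨k, hk⟩ := bE_dense A hAm δ hδ0
  have hkr : mu.real (A ∆ bE k) ≤ δ := by
    unfold Measure.real
    exact ENNReal.toReal_le_of_le_ofReal hδ0.le hk.le
  have hBm : MeasurableSet (A ∆ bE k) := hAm.symmDiff (bE_meas k)
  have hg := W.restr i f k hf
  obtain ⟨β, hβ⟩ := pow_unbounded_of_one_lt Cf (show (1 : ℝ) < 2 by norm_num)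
  have hgf : ∀ t, (bE k).indicator f t ≤ f t := fun t => Set.indicator_le_self' (fun _ _ => hf.nn t) t
  refine ⟨i, (bE k).indicator f, β, hg, ?_, ?_, ?_, ?_⟩
  · have hsub : {t | (bE k).indicator f t ≠ 0} ⊆ A ∪ (A ∆ bE k) := by
      intro t ht
      have htE : t ∈ bE k := by
        by_contra hne
        exact ht (Set.indicator_of_notMem hne f)
      by_cases htA : t ∈ A
      · exact Or.inl htA
      · exact Or.inr (Or.inr ⟨htE, htA⟩)
    have h4 : mu.real {t | (bE k).indicator f t ≠ 0} ≤ mu.real A + mu.real (A ∆ bE k) :=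
      (measureReal_mono hsub).trans (measureReal_union_le _ _)
    have h5 : ((16 : ℝ) ^ c)⁻¹ = 16 * ((16 : ℝ) ^ (c + 1))⁻¹ := by
      rw [pow_succ]
      field_simp
    rw [h5]
    have h6 : 0 < ((16 : ℝ) ^ (c + 1))⁻¹ := by positivity
    linarith
  · intro t
    exact (hgf t).trans ((hCf t).trans hβ.le)
  · have h4 : pr f x - pr ((bE k).indicator f) x ≤ Cf * Cx * δ := by
      unfold pr
      rw [← integral_sub (hx.integrable_mul hf) (hx.integrable_mul hg)]
      refine int_ind_le ((hx.integrable_mul hf).sub (hx.integrable_mul hg)) hBm (by positivity) hkr ?_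
      intro t
      show f t * x t - (bE k).indicator f t * x t ≤ (A ∆ bE k).indicator (fun _ => Cf * Cx) t
      by_cases htE : t ∈ bE k
      · rw [Set.indicator_of_mem htE, sub_self]
        exact Set.indicator_nonneg (fun _ _ => by positivity) t
      · rw [Set.indicator_of_notMem htE, zero_mul, sub_zero]
        by_cases htA : t ∈ A
        · rw [Set.indicator_of_mem (show t ∈ A ∆ bE k from Or.inl ⟨htA, htE⟩)]
          exact mul_le_mul (hCf t) (hCx t) (hx.nonneg t) hCf0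
        · have : x t = 0 := by
            by_contra hne
            exact htA hne
          rw [this, mul_zero]
          exact Set.indicator_nonneg (fun _ _ => by positivity) t
    linarith
  · refine le_trans ?_ h2
    unfold pr
    refine int_ind_le (hy.integrable_mul hg) hBm (by positivity) hkr ?_
    intro t
    rcases hxy t with hx0 | hy0
    · by_cases htE : t ∈ bE k
      · have htA : t ∉ A := fun h => h hx0
        rw [Set.indicator_of_mem htE, Set.indicator_of_mem (show t ∈ A ∆ bE k from Or.inr ⟨htE, htA⟩)]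
        exact mul_le_mul (hCf t) (hCy t) (hy.nonneg t) hCf0
      · rw [Set.indicator_of_notMem htE, zero_mul]
        exact Set.indicator_nonneg (fun _ _ => by positivity) t
    · rw [hy0, mul_zero]
      exact Set.indicator_nonneg (fun _ _ => by positivity) t

lemma sum_range_mul {α : Type*} [AddCommMonoid α] (g : ℕ → α) (N M : ℕ) :
    ∑ q ∈ Finset.range (N * M), g q = ∑ p ∈ Finset.range N, ∑ r ∈ Finset.range M, g (p * M + r) := by
  induction N with
  | zero => simp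
  | succ N ih =>
    rw [Nat.succ_mul, Finset.sum_range_add, ih, Finset.sum_range_succ]

section
variable {u : ℕ → ℝ → ℝ} {c : ℕ → ℕ} (h : TS u c) (h1 : ∀ n, nrm (u n) = 1)
include h h1

lemma coef_le_one {a : ℕ →₀ ℝ} (ha : ∀ n, 0 ≤ a n) {C : ℝ} (hC : nrm (U u a) ≤ C) (n : ℕ) : a n ≤ C := by
  have := coef_le h ha n
  rw [h1 n, mul_one] at this
  exact this.trans hC

/-- iterated averages are small if no average is large -/
lemma iterate_avg {N s : ℕ} (hN : 1 ≤ N)
    (hno : ∀ (σ : ℕ → ℕ) (a : ℕ → ℕ →₀ ℝ), s ≤ σ 0 → StrictMono σ → (∀ q < N, Cf (σ q) (σ (q + 1)) (a q)) →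
      (∀ q < N, nrm (U u (a q)) ≤ 1) → nrm (U u ((N : ℝ)⁻¹ • ∑ q ∈ Finset.range N, a q)) ≤ 1 / 2) (k : ℕ) :
    ∀ (σ : ℕ → ℕ) (a : ℕ → ℕ →₀ ℝ), s ≤ σ 0 → StrictMono σ → (∀ q < N ^ k, Cf (σ q) (σ (q + 1)) (a q)) →
      (∀ q < N ^ k, nrm (U u (a q)) ≤ 1) →
      nrm (U u (((N : ℝ) ^ k)⁻¹ • ∑ q ∈ Finset.range (N ^ k), a q)) ≤ ((2 : ℝ) ^ k)⁻¹ := by
  induction k with
  | zero =>
    intro σ a _ _ _ hn
    have := hn 0 (by simp)
    simpa using this
  | succ k ih =>
    intro σ a hσ0 hσ hcf hn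
    have hNk : 0 < N ^ k := by positivity
    have hlt : ∀ p < N, ∀ r < N ^ k, p * N ^ k + r < N ^ (k + 1) := by
      intro p hp r hr
      calc p * N ^ k + r < p * N ^ k + N ^ k := by omega
        _ = (p + 1) * N ^ k := by ring
        _ ≤ N * N ^ k := Nat.mul_le_mul_right _ (by omega)
        _ = N ^ (k + 1) := by ring
    -- the blocks
    set A : ℕ → ℕ →₀ ℝ := fun p => (2 : ℝ) ^ k • ((N : ℝ) ^ k)⁻¹ • ∑ r ∈ Finset.range (N ^ k), a (p * N ^ k + r)
      with hA
    have hcoefp : ∀ p < N, ∀ r < N ^ k, Cf (σ (p * N ^ k + r)) (σ (p * N ^ k + r + 1)) (a (p * N ^ k + r)) :=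
      fun p hp r hr => hcf _ (hlt p hp r hr)
    have hA1 : ∀ p < N, Cf (σ (p * N ^ k)) (σ ((p + 1) * N ^ k)) (A p) := by
      intro p hp
      rw [hA]
      refine (Cf.sum fun r hr => ?_).smul (by positivity) |>.smul (by positivity)
      refine (hcoefp p hp r hr).mono (hσ.monotone (by omega)) (hσ.monotone ?_)
      have : (p + 1) * N ^ k = p * N ^ k + N ^ k := by ring
      omega
    have hA2 : ∀ p < N, nrm (U u (A p)) ≤ 1 := by
      intro p hp
      have h2 := ih (fun r => σ (p * N ^ k + r)) (fun r => a (p * N ^ k + r))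
        (hσ0.trans (hσ.monotone (Nat.zero_le _))) (hσ.comp (fun r r' hr => by omega))
        (fun r hr => hcoefp p hp r hr) (fun r hr => hn _ (hlt p hp r hr))
      set v : ℕ →₀ ℝ := ((N : ℝ) ^ k)⁻¹ • ∑ r ∈ Finset.range (N ^ k), a (p * N ^ k + r) with hv
      have hv0 : ∀ n, 0 ≤ v n := by
        have : Cf 0 (σ ((p + 1) * N ^ k)) v := by
          rw [hv]
          refine (Cf.sum fun r hr => ?_).smul (by positivity)
          refine (hcoefp p hp r hr).mono (Nat.zero_le _) (hσ.monotone ?_)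
          have : (p + 1) * N ^ k = p * N ^ k + N ^ k := by ring
          omega
        exact this.nonneg
      have e1 : U u (A p) = fun t => (2 : ℝ) ^ k * U u v t := by
        rw [hA]
        dsimp only
        rw [map_smul]
        rfl
      rw [e1, nrm_smul (h.bdU v hv0) (by positivity)]
      calc (2 : ℝ) ^ k * nrm (U u v) ≤ 2 ^ k * ((2 : ℝ) ^ k)⁻¹ := mul_le_mul_of_nonneg_left h2 (by positivity)
        _ = 1 := by field_simp
    have h3 := hno (fun p => σ (p * N ^ k)) A (by simpa using hσ0)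
      (fun p p' hp => hσ (Nat.mul_lt_mul_of_pos_right hp hNk)) hA1 hA2
    have e2 : (((N : ℝ) ^ (k + 1))⁻¹ • ∑ q ∈ Finset.range (N ^ (k + 1)), a q) =
        ((2 : ℝ) ^ k)⁻¹ • ((N : ℝ)⁻¹ • ∑ q ∈ Finset.range N, A q) := by
      have e3 : N ^ (k + 1) = N * N ^ k := by ring
      rw [e3, sum_range_mul, hA]
      dsimp only
      rw [← Finset.smul_sum, ← Finset.smul_sum, smul_smul, smul_smul, smul_smul]
      congr 1
      rw [pow_succ]
      field_simp
    have hB0 : ∀ n, 0 ≤ ((N : ℝ)⁻¹ • ∑ q ∈ Finset.range N, A q) n := by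
      have : Cf 0 (σ (N * N ^ k)) ((N : ℝ)⁻¹ • ∑ q ∈ Finset.range N, A q) := by
        refine (Cf.sum fun r hr => ?_).smul (by positivity)
        refine (hA1 r hr).mono (Nat.zero_le _) (hσ.monotone ?_)
        exact Nat.mul_le_mul_right _ (by omega)
      exact this.nonneg
    have e4 : U u (((2 : ℝ) ^ k)⁻¹ • ((N : ℝ)⁻¹ • ∑ q ∈ Finset.range N, A q)) =
        fun t => ((2 : ℝ) ^ k)⁻¹ * U u ((N : ℝ)⁻¹ • ∑ q ∈ Finset.range N, A q) t := by
      rw [map_smul]
      rfl
    rw [e2, e4, nrm_smul (h.bdU _ hB0) (by positivity)]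
    calc ((2 : ℝ) ^ k)⁻¹ * nrm (U u ((N : ℝ)⁻¹ • ∑ q ∈ Finset.range N, A q)) ≤ ((2 : ℝ) ^ k)⁻¹ * (1 / 2) :=
          mul_le_mul_of_nonneg_left h3 (by positivity)
      _ = ((2 : ℝ) ^ (k + 1))⁻¹ := by
        rw [pow_succ]
        field_simp

end

end Pool.Agent.Helper64.Tight
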