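import Mathlib
import Pool.Agent.Helper64.Tight.Nf

/-!
# Averages of length `N`
-/

open MeasureTheory
open scoped ENNReal symmDiff

namespace Pool.Agent.Helper64.Tight

section
variable {u : ℕ → ℝ → ℝ} {c : ℕ → ℕ} (h : TS u c) (h1 : ∀ n, nrm (u n) = 1)
include h h1

lemma single_norming (i : ℕ) : ∃ w g β, W w g ∧ mu.real {t | g t ≠ 0} ≤ ((16 : ℝ) ^ (c i - 1))⁻¹ ∧
    (∀ t, g t ≤ 2 ^ β) ∧ 1 / 2 < pr g (u i) := by
  have hc := h.c_ge i
  have hs : mu.real {t | u i t ≠ 0} ≤ ((16 : ℝ) ^ (c i - 1 + 1))⁻¹ := by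
    have e1 : c i - 1 + 1 = c i := by omega
    rw [e1]
    have hsub : {t | u i t ≠ 0} ⊆ {t | ∃ k, i ≤ k ∧ u k t ≠ 0} := fun t ht => ⟨i, le_rfl, ht⟩
    exact (measureReal_mono hsub).trans (h.supp i)
  obtain ⟨w, g, β, h2, h3, h4, h5, _⟩ := norming (h.bdu i) Bd.zero (fun t => Or.inr rfl) hs
    (show (1 / 2 : ℝ) < nrm (u i) by rw [h1 i]; norm_num) zero_lt_one
  exact ⟨w, g, β, h2, h3, h4, h5⟩

/-- lower estimate -/
lemma lower_single (j M s : ℕ) (hj2 : 2 ≤ j) (hj : Even j) (hM : M ≤ nn j) (hM1 : 1 ≤ M) :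
    ∃ σ : ℕ → ℕ, s ≤ σ 0 ∧ StrictMono σ ∧
      (2 * (mm j : ℝ))⁻¹ ≤ nrm (U u ((M : ℝ)⁻¹ • ∑ q ∈ Finset.range M, Finsupp.single (σ q) (1 : ℝ))) := by
  choose w g β hW hs hb hp using single_norming h h1
  set σ : ℕ → ℕ := fun q => Nat.rec s (fun _ p => p + c p + β p + 1) q with hσ
  have hσs : ∀ q, σ (q + 1) = σ q + c (σ q) + β (σ q) + 1 := fun q => rfl
  have hσm : StrictMono σ := strictMono_nat_of_lt_succ fun q => by rw [hσs]; omega
  refine ⟨σ, le_of_eq rfl, hσm, ?_⟩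
  have hG : W j (fun t => (mm j : ℝ)⁻¹ * ∑ q ∈ Finset.range M, g (σ q) t) := by
    refine W.node j M (fun q => g (σ q)) (fun q => w (σ q)) (fun q => c (σ q) - 1)
      (fun q => c (σ q) + β (σ q)) hj2 hj hM (fun l _ => hW _) ⟨fun l _ => ?_, fun l _ => ?_⟩
      (fun l _ => hs _) (fun l _ t => ?_)
    · have := h.c_ge (σ l)
      dsimp only
      omega
    · have h2 := h.c_ge (σ (l + 1))
      rw [hσs] at h2
      dsimp only
      rw [hσs]
      omega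
    · refine (hb _ t).trans ?_
      exact pow_le_pow_right₀ (by norm_num) (by omega)
  set G : ℝ → ℝ := fun t => (mm j : ℝ)⁻¹ * ∑ q ∈ Finset.range M, g (σ q) t with hGdef
  have hm := mm_real_pos j
  have hM0 : (0 : ℝ) < M := by exact_mod_cast hM1
  have hc0 : ∀ k ∈ Finset.range M, ∀ n, 0 ≤ (Finsupp.single (σ k) (1 : ℝ)) n := by
    intro k _ n
    rw [Finsupp.single_apply]
    split_ifs <;> norm_num
  have hA0 : ∀ n, 0 ≤ ((M : ℝ)⁻¹ • ∑ q ∈ Finset.range M, Finsupp.single (σ q) (1 : ℝ)) n := by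
    intro n
    rw [Finsupp.smul_apply, Finsupp.finsetSum_apply, smul_eq_mul]
    exact mul_nonneg (by positivity) (Finset.sum_nonneg fun k hk => hc0 k hk n)
  refine le_trans ?_ ((h.bdU _ hA0).pr_le hG)
  rw [pr_U_sum h hG _ _ _ hc0]
  have hterm : ∀ q ∈ Finset.range M, (2 * (mm j : ℝ))⁻¹ ≤ pr G (U u (Finsupp.single (σ q) (1 : ℝ))) := by
    intro q hq
    have e1 : U u (Finsupp.single (σ q) (1 : ℝ)) = u (σ q) := by
      rw [U_single]
      funext t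
      rw [one_mul]
    rw [e1, hGdef, pr_const_sum _ _ _ _ (fun l _ => (h.bdu (σ q)).integrable_mul (hW _))]
    have e2 : pr (g (σ q)) (u (σ q)) ≤ ∑ l ∈ Finset.range M, pr (g (σ l)) (u (σ q)) :=
      Finset.single_le_sum (f := fun l => pr (g (σ l)) (u (σ q)))
        (fun l _ => pr_nonneg (hW _).nn (h.nonneg _)) hq
    have e3 := hp (σ q)
    rw [mul_inv, mul_comm]
    refine mul_le_mul_of_nonneg_left ?_ (by positivity)
    linarith
  calc (2 * (mm j : ℝ))⁻¹ = (M : ℝ)⁻¹ * ∑ q ∈ Finset.range M, (2 * (mm j : ℝ))⁻¹ := by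
        rw [Finset.sum_const, Finset.card_range, nsmul_eq_mul]
        field_simp
    _ ≤ _ := mul_le_mul_of_nonneg_left (Finset.sum_le_sum hterm) (by positivity)

/-- averages -/
theorem l1avg (N s : ℕ) (hN : 1 ≤ N) : ∃ e a, s < e ∧ Cf s e a ∧ nrm (U u a) ≤ 1 ∧ 1 / 2 ≤ nrm (U u a) ∧
    ∀ i, 1 ≤ i → mm i * nn i ≤ N → ∀ f, W i f → pr f (U u a) ≤ 3 / mm i := by
  by_contra hcon
  have hN0 : (0 : ℝ) < N := by exact_mod_cast hN
  have hno : ∀ (σ : ℕ → ℕ) (a : ℕ → ℕ →₀ ℝ), s ≤ σ 0 → StrictMono σ →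
      (∀ q < N, Cf (σ q) (σ (q + 1)) (a q)) → (∀ q < N, nrm (U u (a q)) ≤ 1) →
      nrm (U u ((N : ℝ)⁻¹ • ∑ q ∈ Finset.range N, a q)) ≤ 1 / 2 := by
    intro σ a hσ0 hσ hcf hn
    by_contra hgt
    apply hcon
    have hCf : Cf s (σ N) ((N : ℝ)⁻¹ • ∑ q ∈ Finset.range N, a q) := by
      refine (Cf.sum fun q hq => ?_).smul (by positivity)
      exact (hcf q hq).mono (hσ0.trans (hσ.monotone (Nat.zero_le _))) (hσ.monotone (by omega))
    have hpr : ∀ i f, W i f → pr f (U u ((N : ℝ)⁻¹ • ∑ q ∈ Finset.range N, a q)) =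
        (N : ℝ)⁻¹ * ∑ q ∈ Finset.range N, pr f (U u (a q)) := fun i f hf =>
      pr_U_sum h hf _ _ _ (fun k hk => (hcf k (Finset.mem_range.1 hk)).nonneg)
    refine ⟨σ N, _, hσ0.trans_lt (hσ (by omega)), hCf, nrm_le fun i f hf => ?_, by linarith [not_le.1 hgt], ?_⟩
    · rw [hpr i f hf, inv_mul_le_iff₀ hN0, mul_one]
      calc ∑ q ∈ Finset.range N, pr f (U u (a q)) ≤ ∑ q ∈ Finset.range N, (1 : ℝ) := by
            refine Finset.sum_le_sum fun q hq => ?_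
            have hq' := Finset.mem_range.1 hq
            exact ((h.bdU _ (hcf q hq').nonneg).pr_le hf).trans (hn q hq')
        _ = N := by simp
    · intro i hi hiN f hf
      rw [hpr i f hf]
      refine avg_low (c := fun q => c (σ q)) (d := fun q => c (σ (q + 1))) ⟨fun q hq => ?_, ⟨fun q _ => ?_, fun q _ => le_rfl⟩, ?_, le_rfl⟩ hi hiN hf
      · refine h.vr (hσ (Nat.lt_succ_self _)) (hcf q hq) (fun n => ?_) (hn q hq)
        refine (coef_le_one h h1 (hcf q hq).nonneg (hn q hq) n).trans (by norm_num)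
      · exact h.mono (hσ (Nat.lt_succ_self _))
      · have := h.c_ge (σ 0)
        omega
  -- parameters
  set j := 2 * N + 2 with hj
  set k := 2 ^ j + 2 with hk
  have hjN : N ≤ 4 * nn (2 * N + 1) := by
    have := self_le_nn (2 * N + 1)
    omega
  have hMn : N ^ k ≤ nn j := by
    have e1 : nn j = mm j ^ 4 * (4 * nn (2 * N + 1)) ^ (2 * 2 ^ j + 4) := nn_succ (2 * N + 1)
    rw [e1]
    have h2 := mm_pos j
    calc N ^ k ≤ (4 * nn (2 * N + 1)) ^ k := Nat.pow_le_pow_left hjN _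
      _ ≤ (4 * nn (2 * N + 1)) ^ (2 * 2 ^ j + 4) := by
        refine Nat.pow_le_pow_right ?_ (by omega)
        omega
      _ ≤ _ := Nat.le_mul_of_pos_left _ (by positivity)
  obtain ⟨σ, hσ0, hσ, hlow⟩ := lower_single h h1 j (N ^ k) s (by omega) ⟨N + 1, by omega⟩ hMn
    (Nat.one_le_pow _ _ (by omega))
  have hup := iterate_avg h h1 hN hno k σ (fun q => Finsupp.single (σ q) 1) hσ0 hσ
    (fun q _ => ⟨fun n => by
      rw [Finsupp.single_apply]
      split_ifs <;> norm_num, fun n hn => by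
      have := Finsupp.support_single_subset hn
      rw [Finset.mem_singleton] at this
      rw [this]
      exact ⟨le_rfl, hσ (Nat.lt_succ_self _)⟩⟩)
    (fun q _ => by
      rw [U_single]
      have : (fun t => (1 : ℝ) * u (σ q) t) = u (σ q) := by funext t; rw [one_mul]
      rw [this, h1])
  push_cast at hlow
  have h5 := hlow.trans hup
  rw [mm_eq, hk] at h5
  have h6 : (2 : ℝ) * 2 ^ 2 ^ j < 2 ^ (2 ^ j + 2) := by
    have e : (2 : ℝ) ^ (2 ^ j + 2) = 2 ^ 2 ^ j * 4 := by rw [pow_add]; norm_num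
    rw [e]
    have h0 : (0 : ℝ) < 2 ^ 2 ^ j := by positivity
    generalize (2 : ℝ) ^ 2 ^ j = P at h0 ⊢
    linarith
  have h7 : ((2 : ℝ) ^ (2 ^ j + 2))⁻¹ < (2 * 2 ^ 2 ^ j)⁻¹ := inv_strictAnti₀ (by positivity) h6
  exact absurd h5 (not_le.2 h7)

end

end Pool.Agent.Helper64.Tight
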