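import Mathlib
import Pool.Agent.Helper64.Tight.Avg

/-!
# Typed pairs
-/

open MeasureTheory
open scoped ENNReal symmDiff

namespace Pool.Agent.Helper64.Tight

lemma W.l2 {i : ℕ} {f : ℝ → ℝ} (h : W i f) : i = 0 → ∫ t, f t ^ 2 ∂mu ≤ 1 := by
  induction h with
  | base i => exact fun _ => bh_norm i
  | restr j f i h ih =>
    intro hj
    refine le_trans (integral_mono ((W.restr j f i h).memLp 2).integrable_sq (h.memLp 2).integrable_sq fun t => ?_)
      (ih hj)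
    exact pow_le_pow_left₀ ((W.restr j f i h).nn t) (Set.indicator_le_self' (fun _ _ => h.nn t) t) 2
  | node j d F w a b hj he hd hW hs hsupp hbd ih => intro h0; omega
  | special j d F w a b hj ho hd hW hs hsupp hbd hbig hcode ih => intro h0; omega

lemma pr_base_le {f x : ℝ → ℝ} (hf : W 0 f) (hx : Bd x) : pr f x ≤ √(∫ t, x t ^ 2 ∂mu) := by
  have h1 := cs (hf.memLp 2) (hx.memLp 2) hf.nn hx.nonneg
  refine h1.trans ?_
  have h2 : √(∫ t, f t ^ 2 ∂mu) ≤ 1 := by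
    rw [Real.sqrt_le_iff]
    refine ⟨zero_le_one, ?_⟩
    rw [one_pow]
    exact hf.l2 rfl
  have h3 := Real.sqrt_nonneg (∫ t, x t ^ 2 ∂mu)
  nlinarith

lemma sq_sum_disj {I : Finset ℕ} {z : ℕ → ℝ} (hd : ∀ k ∈ I, ∀ l ∈ I, k ≠ l → z k = 0 ∨ z l = 0) :
    (∑ k ∈ I, z k) ^ 2 = ∑ k ∈ I, z k ^ 2 := by
  classical
  rw [sq, Finset.sum_mul_sum]
  refine Finset.sum_congr rfl fun k hk => ?_
  rw [Finset.sum_eq_single k]
  · ring
  · intro l hl hlk
    rcases hd k hk l hl (Ne.symm hlk) with h | h <;> rw [h] <;> ring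
  · intro h
    exact absurd hk h

lemma base_disj {N : ℕ} {x : ℕ → ℝ → ℝ} {C : ℝ} (hC : 0 ≤ C) (hx : ∀ k < N, Bd (x k))
    (hn : ∀ k < N, nrm (x k) ≤ C)
    (hd : ∀ k < N, ∀ l < N, k ≠ l → ∀ t, x k t = 0 ∨ x l t = 0) (f : ℝ → ℝ) (hf : W 0 f) (I : Finset ℕ)
    (hI : I ⊆ Finset.range N) : ∑ k ∈ I, pr f (x k) ≤ C * (1 + √(I.card : ℝ)) := by
  have hI' : ∀ k ∈ I, k < N := fun k hk => Finset.mem_range.1 (hI hk)
  have hS : Bd (fun t => ∑ k ∈ I, x k t) := by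
    choose! B hB using fun k (hk : k < N) => (hx k hk).bdd
    exact ⟨Finset.measurable_sum _ fun k hk => (hx k (hI' k hk)).meas,
      fun t => Finset.sum_nonneg fun k hk => (hx k (hI' k hk)).nonneg t,
      ⟨∑ k ∈ I, B k, fun t => Finset.sum_le_sum fun k hk => hB k (hI' k hk) t⟩⟩
  rw [← pr_sum (N := 0) I (fun k hk => (hx k (hI' k hk)).integrable_mul hf)]
  refine (pr_base_le hf hS).trans ?_
  have h1 : ∫ t, (∑ k ∈ I, x k t) ^ 2 ∂mu = ∑ k ∈ I, ∫ t, x k t ^ 2 ∂mu := by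
    rw [← integral_finsetSum _ (fun k hk => ((hx k (hI' k hk)).memLp 2).integrable_sq)]
    refine integral_congr_ae (Filter.Eventually.of_forall fun t => ?_)
    exact sq_sum_disj fun k hk l hl hkl => hd k (hI' k hk) l (hI' l hl) hkl t
  have h2 : ∀ k ∈ I, ∫ t, x k t ^ 2 ∂mu ≤ C ^ 2 := by
    intro k hk
    have h3 : √(∫ t, x k t ^ 2 ∂mu) ≤ C := l2_le_of_nrm ((hx k (hI' k hk)).memLp 2) (hx k (hI' k hk)).nonneg
      (fun i f hf => ((hx k (hI' k hk)).pr_le hf).trans (hn k (hI' k hk)))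
    rwa [Real.sqrt_le_left hC] at h3
  rw [h1]
  calc √(∑ k ∈ I, ∫ t, x k t ^ 2 ∂mu) ≤ √(∑ k ∈ I, C ^ 2) := Real.sqrt_le_sqrt (Finset.sum_le_sum h2)
    _ = C * √(I.card : ℝ) := by
      rw [Finset.sum_const, nsmul_eq_mul, mul_comm, Real.sqrt_mul (sq_nonneg C), Real.sqrt_sq hC]
    _ ≤ C * (1 + √(I.card : ℝ)) := mul_le_mul_of_nonneg_left (by linarith) hC

/-- a pair of equivalent disjoint sequences -/
structure PR (u v : ℕ → ℝ → ℝ) (c : ℕ → ℕ) (K : ℝ) : Prop where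
  tu : TS u c
  tv : TS v c
  disj : ∀ n m t, u n t = 0 ∨ v m t = 0
  disju : ∀ n m, n ≠ m → ∀ t, u n t = 0 ∨ u m t = 0
  one : ∀ n, nrm (u n) = 1
  eq1 : ∀ a : ℕ →₀ ℝ, (∀ n, 0 ≤ a n) → nrm (U v a) ≤ K * nrm (U u a)
  eq2 : ∀ a : ℕ →₀ ℝ, (∀ n, 0 ≤ a n) → nrm (U u a) ≤ K * nrm (U v a)
  hK : 1 ≤ K

lemma U_disj {u v : ℕ → ℝ → ℝ} (h : ∀ n m t, u n t = 0 ∨ v m t = 0) (a a' : ℕ →₀ ℝ) (t : ℝ) :
    U u a t = 0 ∨ U v a' t = 0 := by
  by_cases h1 : ∀ n, u n t = 0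
  · left
    rw [U_apply]
    exact Finset.sum_eq_zero fun n _ => by rw [h1, mul_zero]
  · right
    push Not at h1
    obtain ⟨n, hn⟩ := h1
    rw [U_apply]
    refine Finset.sum_eq_zero fun m _ => ?_
    rcases h n m t with h2 | h2
    · exact absurd h2 hn
    · rw [h2, mul_zero]

lemma U_disj_blocks {u : ℕ → ℝ → ℝ} (h : ∀ n m, n ≠ m → ∀ t, u n t = 0 ∨ u m t = 0) {s e s' e' : ℕ}
    {a a' : ℕ →₀ ℝ} (ha : Cf s e a) (ha' : Cf s' e' a') (hes : e ≤ s') (t : ℝ) :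
    U u a t = 0 ∨ U u a' t = 0 := by
  by_cases h1 : ∀ n ∈ a.support, u n t = 0
  · left
    rw [U_apply]
    exact Finset.sum_eq_zero fun n hn => by rw [h1 n hn, mul_zero]
  · right
    push Not at h1
    obtain ⟨n, hn, hne⟩ := h1
    rw [U_apply]
    refine Finset.sum_eq_zero fun m hm => ?_
    have e1 := ha.supp n hn
    have e2 := ha'.supp m hm
    rcases h n m (by omega) t with h2 | h2
    · exact absurd h2 hne
    · rw [h2, mul_zero]

lemma succ_two_pow (n : ℕ) : n + 1 ≤ 2 ^ n := Nat.lt_two_pow_self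

section
variable {u v : ℕ → ℝ → ℝ} {c : ℕ → ℕ} {K : ℝ} (P : PR u v c K)
include P

lemma PR.step (s J : ℕ) : ∃ (e : ℕ) (a : ℕ →₀ ℝ) (g : ℝ → ℝ) (w β : ℕ), s < e ∧ Cf s e a ∧ nrm (U u a) ≤ 1 ∧
    (∀ i, 1 ≤ i → i < J → ∀ f, W i f → pr f (U u a) ≤ 3 / mm i) ∧ W w g ∧
    mu.real {t | g t ≠ 0} ≤ ((16 : ℝ) ^ (c s - 1))⁻¹ ∧ (∀ t, g t ≤ 2 ^ β) ∧ (4 * K)⁻¹ ≤ pr g (U v a) ∧
    pr g (U u a) ≤ ((2 : ℝ) ^ (s + 1))⁻¹ := by
  have hN : 1 ≤ mm J * nn J := Nat.mul_pos (mm_pos J) (nn_pos J)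
  obtain ⟨e, a, h1, h2, h3, h4, h5⟩ := l1avg P.tu P.one (mm J * nn J) s hN
  have hK := P.hK
  have h6 : (4 * K)⁻¹ < nrm (U v a) := by
    have h7 := P.eq2 a h2.nonneg
    rw [inv_lt_iff_one_lt_mul₀ (by linarith)]
    linarith
  have hc := P.tv.c_ge s
  have hs : mu.real {t | U v a t ≠ 0} ≤ ((16 : ℝ) ^ (c s - 1 + 1))⁻¹ := by
    have e1 : c s - 1 + 1 = c s := by omega
    rw [e1]
    exact (measureReal_mono (P.tv.suppU h2)).trans (P.tv.supp s)
  obtain ⟨w, g, β, g1, g2, g3, g4, g5⟩ := norming (P.tv.bdU a h2.nonneg) (P.tu.bdU a h2.nonneg)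
    (fun t => (U_disj P.disj a a t).symm) hs h6 (show (0 : ℝ) < ((2 : ℝ) ^ (s + 1))⁻¹ by positivity)
  refine ⟨e, a, g, w, β, h1, h2, h3, fun i hi hiJ f hf => ?_, g1, g2, g3, g4.le, g5⟩
  exact h5 i hi (Nat.mul_le_mul (mm_mono hiJ.le) (nn_mono hiJ.le)) f hf

/-- existence of typed pairs -/
theorem PR.typed_pair (b s : ℕ) (hb2 : 2 ≤ b) (hb : Even b) :
    ∃ (e : ℕ) (A : ℕ →₀ ℝ) (φ : ℝ → ℝ), s < e ∧ Cf s e A ∧ W b φ ∧
      mu.real {t | φ t ≠ 0} ≤ ((16 : ℝ) ^ (c s - 2))⁻¹ ∧ (∀ t, φ t ≤ 2 ^ (c e)) ∧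
      (∀ i f, W i f → pr f (U u A) ≤ 9) ∧
      (∀ i, 1 ≤ i → i < b → ∀ f, W i f → pr f (U u A) ≤ 9 / mm i) ∧
      (∀ i, b < i → ∀ f, W i f → pr f (U u A) ≤ 9 / mm b) ∧
      (4 * K)⁻¹ ≤ pr φ (U v A) ∧ pr φ (U u A) ≤ ((2 : ℝ) ^ s)⁻¹ := by
  classical
  choose e a g w β h1 h2 h3 h4 h5 h6 h7 h8 h9 using P.step
  set St : ℕ → ℕ × ℕ := fun l => Nat.rec (s, b + 1)
    (fun l p => (e p.1 p.2 + β p.1 p.2 + 1, p.2 + l + c (e p.1 p.2) + 2)) l with hSt
  have hSt1 : ∀ l, (St (l + 1)).1 = e (St l).1 (St l).2 + β (St l).1 (St l).2 + 1 := fun l => rfl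
  have hSt2 : ∀ l, (St (l + 1)).2 = (St l).2 + l + c (e (St l).1 (St l).2) + 2 := fun l => rfl
  set S : ℕ → ℕ := fun l => (St l).1 with hS
  set J : ℕ → ℕ := fun l => (St l).2 with hJ
  set E : ℕ → ℕ := fun l => e (S l) (J l) with hE
  set a' : ℕ → ℕ →₀ ℝ := fun l => a (S l) (J l) with ha'
  set g' : ℕ → ℝ → ℝ := fun l => g (S l) (J l) with hg'
  set w' : ℕ → ℕ := fun l => w (S l) (J l) with hw'
  set β' : ℕ → ℕ := fun l => β (S l) (J l) with hβ'
  have hS0 : S 0 = s := rfl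
  have hJ0 : J 0 = b + 1 := rfl
  have hS1 : ∀ l, S (l + 1) = E l + β' l + 1 := hSt1
  have hJ1 : ∀ l, J (l + 1) = J l + l + c (E l) + 2 := hSt2
  have q1 : ∀ l, S l < E l := fun l => h1 _ _
  have q2 : ∀ l, Cf (S l) (E l) (a' l) := fun l => h2 _ _
  have q3 : ∀ l, nrm (U u (a' l)) ≤ 1 := fun l => h3 _ _
  have q4 : ∀ l, ∀ i, 1 ≤ i → i < J l → ∀ f, W i f → pr f (U u (a' l)) ≤ 3 / mm i := fun l => h4 _ _
  have q5 : ∀ l, W (w' l) (g' l) := fun l => h5 _ _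
  have q6 : ∀ l, mu.real {t | g' l t ≠ 0} ≤ ((16 : ℝ) ^ (c (S l) - 1))⁻¹ := fun l => h6 _ _
  have q7 : ∀ l, ∀ t, g' l t ≤ 2 ^ (β' l) := fun l => h7 _ _
  have q8 : ∀ l, (4 * K)⁻¹ ≤ pr (g' l) (U v (a' l)) := fun l => h8 _ _
  have q9 : ∀ l, pr (g' l) (U u (a' l)) ≤ ((2 : ℝ) ^ (S l + 1))⁻¹ := fun l => h9 _ _
  clear_value S J E a' g' w' β'
  clear hS hJ hE ha' hg' hw' hβ' hSt1 hSt2 hSt St h1 h2 h3 h4 h5 h6 h7 h8 h9
  have hSm : StrictMono S := strictMono_nat_of_lt_succ fun l => by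
    rw [hS1]
    have := q1 l
    omega
  have hcS : ∀ l, c (E l) + β' l + 1 ≤ c (S (l + 1)) := by
    intro l
    rw [hS1]
    have := P.tu.c_add (E l) (β' l + 1)
    rw [← add_assoc, ← add_assoc] at this
    exact this
  have hcSE : ∀ l, c (S l) < c (E l) := fun l => P.tu.mono (q1 l)
  set N := nn b with hN
  have hN1 : 1 ≤ N := nn_pos b
  have hN0 : (0 : ℝ) < N := by exact_mod_cast hN1
  have hm4 : (4 : ℝ) ≤ mm b := by exact_mod_cast four_le_mm (by omega : 1 ≤ b)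
  -- the family of functionals
  have hFam : Fam N g' w' (fun l => c (S l) - 1) (fun l => c (E l) + β' l) := by
    refine ⟨fun l _ => q5 l, ⟨fun l _ => ?_, fun l _ => ?_⟩, fun l _ => q6 l, fun l _ t => ?_⟩
    · have := hcSE l
      dsimp only
      omega
    · have := hcS l
      dsimp only
      omega
    · exact (q7 l t).trans (pow_le_pow_right₀ (by norm_num) (by omega))
  have hvr : ∀ l, ∀ C, 1 ≤ C → VR (U u (a' l)) (c (S l)) (c (E l)) C := by
    intro l C hC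
    refine P.tu.vr (q1 l) (q2 l) (fun n => ?_) ((q3 l).trans hC)
    exact (coef_le_one P.tu P.one (q2 l).nonneg (q3 l) n).trans (by norm_num)
  have hbl : Blocks N (fun l => U u (a' l)) (fun l => c (S l)) (fun l => c (E l)) 3 := by
    refine ⟨fun l _ => hvr l 3 (by norm_num), ⟨fun l _ => hcSE l, fun l _ => ?_⟩, ?_, by norm_num⟩
    · have := hcS l
      dsimp only
      omega
    · have := P.tu.c_ge (S 0)
      omega
  have hdisj : ∀ k < N, ∀ l < N, k ≠ l → ∀ t, U u (a' k) t = 0 ∨ U u (a' l) t = 0 := by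
    have key : ∀ k l, k < l → ∀ t, U u (a' k) t = 0 ∨ U u (a' l) t = 0 := by
      intro k l hkl t
      refine U_disj_blocks P.disju (q2 k) (q2 l) ?_ t
      have e1 : S (k + 1) ≤ S l := hSm.monotone hkl
      have e2 := hS1 k
      omega
    intro k _ l _ hkl t
    rcases lt_or_gt_of_ne hkl with h | h
    · exact key k l h t
    · exact (key l k h t).symm
  have hbd : ∀ l, Bd (U u (a' l)) := fun l => P.tu.bdU _ (q2 l).nonneg
  have hris : RIS N (fun l => U u (a' l)) (fun l => c (S l)) (fun l => c (E l)) 3 J := by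
    refine ⟨hbl, fun k _ i hi hij f hf => q4 k i hi hij f hf, fun k _ => ?_, fun k _ => ?_, ?_⟩
    · rw [hJ1]; omega
    · rw [hJ1]
      refine le_trans ?_ (two_pow_le_mm _)
      have e1 : c (E k) + 1 ≤ 2 ^ (c (E k)) := succ_two_pow _
      calc 2 ^ (k + 1) * (c (E k) + 1) ≤ 2 ^ (k + 1) * 2 ^ (c (E k)) := Nat.mul_le_mul_left _ e1
        _ = 2 ^ (k + 1 + c (E k)) := by rw [← pow_add]
        _ ≤ 2 ^ (J k + k + c (E k) + 2 + 1) := Nat.pow_le_pow_right (by norm_num) (by omega)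
    · exact base_disj (by norm_num) (fun k _ => hbd k) (fun k _ => (q3 k).trans (by norm_num)) hdisj
  -- the functional
  have hφ : W b (fun t => (mm b : ℝ)⁻¹ * ∑ l ∈ Finset.range N, g' l t) :=
    W.node b N g' w' _ _ hb2 hb le_rfl hFam.hW hFam.succ hFam.supp hFam.bd
  set φ : ℝ → ℝ := fun t => (mm b : ℝ)⁻¹ * ∑ l ∈ Finset.range N, g' l t with hφd
  set A : ℕ →₀ ℝ := ((mm b : ℝ) / N) • ∑ l ∈ Finset.range N, a' l with hA
  have hprA : ∀ i f, W i f → pr f (U u A) = ((mm b : ℝ) / N) * ∑ l ∈ Finset.range N, pr f (U u (a' l)) :=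
    fun i f hf => pr_U_sum P.tu hf _ _ _ (fun k _ => (q2 k).nonneg)
  have hprB : ∀ i f, W i f → pr f (U v A) = ((mm b : ℝ) / N) * ∑ l ∈ Finset.range N, pr f (U v (a' l)) :=
    fun i f hf => pr_U_sum P.tv hf _ _ _ (fun k _ => (q2 k).nonneg)
  have hCfA : Cf s (S N) A := by
    refine (Cf.sum fun l hl => ?_).smul (by positivity)
    refine (q2 l).mono ?_ ?_
    · rw [← hS0]
      exact hSm.monotone (Nat.zero_le _)
    · have e1 : S (l + 1) ≤ S N := hSm.monotone hl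
      have e2 := hS1 l
      omega
  refine ⟨S N, A, φ, ?_, hCfA, hφ, ?_, ?_, ?_, ?_, ?_, ?_, ?_⟩
  · have := hSm hN1
    rw [← hS0]
    exact (hSm (show 0 < N from hN1))
  · -- support
    have hsub : {t | φ t ≠ 0} ⊆ ⋃ l ∈ Finset.range N, {t | g' l t ≠ 0} := by
      intro t ht
      by_contra hcon
      apply ht
      rw [hφd]
      dsimp only
      rw [Finset.sum_eq_zero, mul_zero]
      intro l hl
      by_contra hne
      apply hcon
      rw [Set.mem_iUnion₂]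
      exact ⟨l, hl, hne⟩
    refine (measureReal_mono hsub (measure_ne_top _ _)).trans ((measureReal_biUnion_finset_le _ _).trans ?_)
    have hterm : ∀ l ∈ Finset.range N, mu.real {t | g' l t ≠ 0} ≤
        ((16 : ℝ) ^ (c s - 2))⁻¹ * ((2 : ℝ) ^ (l + 1))⁻¹ := by
      intro l _
      refine (q6 l).trans ?_
      rw [← mul_inv]
      refine inv_anti₀ (by positivity) ?_
      have e1 : c s + l ≤ c (S l) := by
        have e2 : s + l ≤ S l := by
          rw [← hS0]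
          have := hSm.add_le_nat l 0
          rw [add_zero] at this
          omega
        exact (P.tu.c_add s l).trans (P.tu.mono.monotone e2)
      have e3 := P.tu.c_ge s
      calc (16 : ℝ) ^ (c s - 2) * 2 ^ (l + 1) ≤ 16 ^ (c s - 2) * 16 ^ (l + 1) :=
            mul_le_mul_of_nonneg_left (pow_le_pow_left₀ (by norm_num) (by norm_num) _) (by positivity)
        _ = 16 ^ (c s - 2 + (l + 1)) := by rw [← pow_add]
        _ ≤ 16 ^ (c (S l) - 1) := pow_le_pow_right₀ (by norm_num) (by omega)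
    refine (Finset.sum_le_sum hterm).trans ?_
    rw [← Finset.mul_sum]
    have := sum_half_pow (Finset.range N)
    have h0 : (0 : ℝ) ≤ ((16 : ℝ) ^ (c s - 2))⁻¹ := by positivity
    nlinarith
  · -- bound
    intro t
    rw [hφd]
    dsimp only
    have e1 : ∑ l ∈ Finset.range N, g' l t ≤ ∑ l ∈ Finset.range N, (2 : ℝ) ^ (c (E l) + β' l) :=
      Finset.sum_le_sum fun l hl => hFam.bd l (Finset.mem_range.1 hl) t
    have e2 := sum_two_pow_le hFam.succ (c (S N))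
    have e3 : (Finset.range N).filter (fun l => c (E l) + β' l ≤ c (S N)) = Finset.range N := by
      rw [Finset.filter_true_of_mem]
      intro l hl
      have e4 := hcS l
      have e5 : c (S (l + 1)) ≤ c (S N) := P.tu.mono.monotone (hSm.monotone (Finset.mem_range.1 hl))
      omega
    rw [e3] at e2
    have e6 : (0 : ℝ) < 2 ^ c (S N) := by positivity
    rw [pow_succ] at e2
    have e7 : (mm b : ℝ)⁻¹ ≤ 4⁻¹ := inv_anti₀ (by norm_num) hm4
    have e8 : 0 ≤ ∑ l ∈ Finset.range N, g' l t := Finset.sum_nonneg fun l _ => (q5 l).nn t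
    calc (mm b : ℝ)⁻¹ * ∑ l ∈ Finset.range N, g' l t ≤ 4⁻¹ * ∑ l ∈ Finset.range N, g' l t :=
          mul_le_mul_of_nonneg_right e7 e8
      _ ≤ 4⁻¹ * (2 ^ c (S N) * 2) := mul_le_mul_of_nonneg_left (e1.trans e2) (by norm_num)
      _ ≤ 2 ^ c (S N) := by linarith
  · intro i f hf
    rw [hprA i f hf]
    refine (typed_all (by omega) hris hf).trans (by norm_num)
  · intro i hi hib f hf
    rw [hprA i f hf]
    refine (typed_low hris hi hib hf).trans (le_of_eq ?_)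
    norm_num
  · intro i hbi f hf
    rw [hprA i f hf]
    refine (typed_high (by omega) hris hbi hf).trans (le_of_eq ?_)
    norm_num
  · -- lower estimate
    rw [hprB b φ hφ]
    have hterm : ∀ l ∈ Finset.range N, (mm b : ℝ)⁻¹ * (4 * K)⁻¹ ≤ pr φ (U v (a' l)) := by
      intro l hl
      rw [hφd, pr_const_sum _ _ _ _ (fun k _ => (P.tv.bdU _ (q2 l).nonneg).integrable_mul (q5 k))]
      refine mul_le_mul_of_nonneg_left ?_ (by positivity)
      refine (q8 l).trans ?_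
      exact Finset.single_le_sum (f := fun k => pr (g' k) (U v (a' l)))
        (fun k _ => pr_nonneg (q5 k).nn (P.tv.bdU _ (q2 l).nonneg).nonneg) hl
    calc (4 * K)⁻¹ = ((mm b : ℝ) / N) * ∑ l ∈ Finset.range N, (mm b : ℝ)⁻¹ * (4 * K)⁻¹ := by
          rw [Finset.sum_const, Finset.card_range, nsmul_eq_mul]
          field_simp
      _ ≤ _ := mul_le_mul_of_nonneg_left (Finset.sum_le_sum hterm) (by positivity)
  · -- upper estimate
    rw [hprA b φ hφ]
    have hterm : ∀ l ∈ Finset.range N, pr φ (U u (a' l)) ≤ (mm b : ℝ)⁻¹ * ((2 : ℝ) ^ s)⁻¹ := by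
      intro l hl
      rw [hφd, pr_const_sum _ _ _ _ (fun k _ => (hbd l).integrable_mul (q5 k))]
      refine mul_le_mul_of_nonneg_left ?_ (by positivity)
      rw [← Finset.sum_filter_not_add_sum_filter (Finset.range N)
        (fun k => c (S k) - 1 < c (E l) ∧ c (S l) < c (E k) + β' k)]
      have e1 := unseen (hvr l 1 le_rfl) le_rfl hFam
      have e2 : (Finset.range N).filter (fun k => c (S k) - 1 < c (E l) ∧ c (S l) < c (E k) + β' k) ⊆ {l} := by
        intro k hk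
        rw [Finset.mem_filter] at hk
        rw [Finset.mem_singleton]
        rcases lt_trichotomy k l with h | h | h
        · have e3 := hcS k
          have e4 : c (S (k + 1)) ≤ c (S l) := P.tu.mono.monotone (hSm.monotone h)
          omega
        · exact h
        · have e3 := hcS l
          have e4 : c (S (l + 1)) ≤ c (S k) := P.tu.mono.monotone (hSm.monotone h)
          omega
      have e3 : ∑ k ∈ (Finset.range N).filter (fun k => c (S k) - 1 < c (E l) ∧ c (S l) < c (E k) + β' k),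
          pr (g' k) (U u (a' l)) ≤ ∑ k ∈ {l}, pr (g' k) (U u (a' l)) :=
        Finset.sum_le_sum_of_subset_of_nonneg e2 (fun k _ _ => pr_nonneg (q5 k).nn (hbd l).nonneg)
      rw [Finset.sum_singleton] at e3
      have e4 : s ≤ S l := by
        rw [← hS0]
        exact hSm.monotone (Nat.zero_le _)
      have e5 : ((2 : ℝ) ^ (S l + 1))⁻¹ ≤ ((2 : ℝ) ^ (s + 1))⁻¹ :=
        inv_anti₀ (by positivity) (pow_le_pow_right₀ (by norm_num) (by omega))
      have e6 : ((2 : ℝ) ^ (c (S l)))⁻¹ ≤ ((2 : ℝ) ^ (s + 5))⁻¹ := by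
        refine inv_anti₀ (by positivity) (pow_le_pow_right₀ (by norm_num) ?_)
        have := P.tu.c_ge (S l)
        omega
      have e7 : ((2 : ℝ) ^ (s + 1))⁻¹ = ((2 : ℝ) ^ s)⁻¹ / 2 := by
        rw [pow_succ]
        field_simp
      have e8 : ((2 : ℝ) ^ (s + 5))⁻¹ = ((2 : ℝ) ^ s)⁻¹ / 32 := by
        rw [pow_add, mul_inv]
        norm_num
        ring
      have e9 := q9 l
      have e10 : (0 : ℝ) < ((2 : ℝ) ^ s)⁻¹ := by positivity
      rw [e7] at e5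
      rw [e8] at e6
      linarith
    calc ((mm b : ℝ) / N) * ∑ l ∈ Finset.range N, pr φ (U u (a' l))
        ≤ ((mm b : ℝ) / N) * ∑ l ∈ Finset.range N, (mm b : ℝ)⁻¹ * ((2 : ℝ) ^ s)⁻¹ :=
          mul_le_mul_of_nonneg_left (Finset.sum_le_sum hterm) (by positivity)
      _ = ((2 : ℝ) ^ s)⁻¹ := by
        rw [Finset.sum_const, Finset.card_range, nsmul_eq_mul]
        field_simp

end

end Pool.Agent.Helper64.Tight
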