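import Mathlib
import Pool.Agent.Helper64.Tight.Pair

/-!
# Dependent sequences and the contradiction
-/

open MeasureTheory
open scoped ENNReal symmDiff

namespace Pool.Agent.Helper64.Tight

lemma pre_succ (F : ℕ → ℝ → ℝ) (b : ℕ → ℕ) (l : ℕ) : pre F b (l + 1) = pre F b l ++ [(F l, b l)] := by
  unfold pre
  rw [List.range_succ, List.map_append]
  rfl

lemma self_le_mm (j : ℕ) : j ≤ mm j := by
  have h1 := two_pow_le_mm j
  have h2 := succ_two_pow (j + 1)
  omega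

/-- the combinatorial estimate -/
lemma special_count {N d : ℕ} (hd : d ≤ N) (hN : 1 ≤ N) {F φ : ℕ → ℝ → ℝ} {w b bF M : ℕ → ℕ}
    (hFD : ∀ l < d, F l ∈ DD) (hφD : ∀ k < N, φ k ∈ DD)
    (hwc : ∀ l, l + 1 < d → w (l + 1) = 2 * code (pre F bF (l + 1)))
    (hbc : ∀ k, k + 1 < N → b (k + 1) = 2 * code (pre φ M (k + 1)))
    (hbm : ∀ k l, k < l → l < N → b k < b l)
    {I : Finset ℕ} (hI : I ⊆ Finset.range N) {z : ℕ → ℕ → ℝ} {ε : ℕ → ℝ} (hε : ∀ k, ε k ≤ ((2 : ℝ) ^ (k + 1))⁻¹)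
    (hε0 : ∀ k, 0 ≤ ε k)
    (hz1 : ∀ l < d, ∀ k < N, w l ≠ b k → z l k ≤ 9 / (N : ℝ) ^ 2)
    (hz2 : ∀ l < d, ∀ k < N, z l k ≤ 9)
    (hz3 : ∀ k < N, k < d → F k = φ k → z k k ≤ ε k) :
    ∑ k ∈ I, ∑ l ∈ Finset.range d, z l k ≤ 37 := by
  classical
  have hN0 : (0 : ℝ) < N := by exact_mod_cast hN
  set S : Finset (ℕ × ℕ) := Finset.range d ×ˢ I with hS
  set T : Finset (ℕ × ℕ) := S.filter (fun p => w p.1 = b p.2 ∧ ¬ (p.1 = p.2 ∧ F p.1 = φ p.2)) with hT
  have hmemS : ∀ p ∈ S, p.1 < d ∧ p.2 ∈ I ∧ p.2 < N := by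
    intro p hp
    rw [hS, Finset.mem_product, Finset.mem_range] at hp
    exact ⟨hp.1, hp.2, Finset.mem_range.1 (hI hp.2)⟩
  -- codes determine everything
  have hwb : ∀ l k, l + 1 < d → k + 1 < N → w (l + 1) = b (k + 1) →
      l = k ∧ ∀ i < k + 1, F i = φ i := by
    intro l k hl hk h
    rw [hwc l hl, hbc k hk] at h
    have h2 : code (pre F bF (l + 1)) = code (pre φ M (k + 1)) := by omega
    have h3 := code_inj (fun p hp => by
      unfold pre at hp
      rw [List.mem_map] at hp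
      obtain ⟨i, hi, rfl⟩ := hp
      exact hFD i (by have := List.mem_range.1 hi; omega)) (fun p hp => by
      unfold pre at hp
      rw [List.mem_map] at hp
      obtain ⟨i, hi, rfl⟩ := hp
      exact hφD i (by have := List.mem_range.1 hi; omega)) h2
    have h4 : l = k := by
      have := congrArg List.length h3
      rw [pre_length, pre_length] at this
      omega
    subst h4
    rw [pre_eq_iff] at h3
    exact ⟨rfl, fun i hi => (h3 i hi).1⟩
  have hww : ∀ l l', l + 1 < d → l' + 1 < d → w (l + 1) = w (l' + 1) → l = l' := by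
    intro l l' hl hl' h
    rw [hwc l hl, hwc l' hl'] at h
    have h2 : code (pre F bF (l + 1)) = code (pre F bF (l' + 1)) := by omega
    have h3 := code_inj (fun p hp => by
      unfold pre at hp
      rw [List.mem_map] at hp
      obtain ⟨i, hi, rfl⟩ := hp
      exact hFD i (by have := List.mem_range.1 hi; omega)) (fun p hp => by
      unfold pre at hp
      rw [List.mem_map] at hp
      obtain ⟨i, hi, rfl⟩ := hp
      exact hFD i (by have := List.mem_range.1 hi; omega)) h2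
    have := congrArg List.length h3
    rw [pre_length, pre_length] at this
    omega
  have hTcard : T.card ≤ 3 := by
    have hsplit : T ⊆ (T.filter (fun p => p.1 = 0)) ∪ ((T.filter (fun p => p.1 ≠ 0 ∧ p.2 = 0)) ∪
        (T.filter (fun p => p.1 ≠ 0 ∧ p.2 ≠ 0))) := by
      intro p hp
      by_cases h1 : p.1 = 0
      · exact Finset.mem_union_left _ (Finset.mem_filter.2 ⟨hp, h1⟩)
      · refine Finset.mem_union_right _ ?_
        by_cases h2 : p.2 = 0
        · exact Finset.mem_union_left _ (Finset.mem_filter.2 ⟨hp, h1, h2⟩)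
        · exact Finset.mem_union_right _ (Finset.mem_filter.2 ⟨hp, h1, h2⟩)
    have h1 : (T.filter (fun p => p.1 = 0)).card ≤ 1 := by
      rw [Finset.card_le_one]
      rintro ⟨l, k⟩ hp ⟨l', k'⟩ hq
      rw [Finset.mem_filter, hT, Finset.mem_filter] at hp hq
      obtain ⟨⟨hpS, hp1, _⟩, hp0⟩ := hp
      obtain ⟨⟨hqS, hq1, _⟩, hq0⟩ := hq
      have e1 := hmemS _ hpS
      have e2 := hmemS _ hqS
      dsimp only at *
      subst hp0
      subst hq0
      have h3 : k = k' := by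
        rcases lt_trichotomy k k' with h | h | h
        · have := hbm k k' h e2.2.2
          omega
        · exact h
        · have := hbm k' k h e1.2.2
          omega
      rw [h3]
    have h2 : (T.filter (fun p => p.1 ≠ 0 ∧ p.2 = 0)).card ≤ 1 := by
      rw [Finset.card_le_one]
      rintro ⟨l, k⟩ hp ⟨l', k'⟩ hq
      rw [Finset.mem_filter, hT, Finset.mem_filter] at hp hq
      obtain ⟨⟨hpS, hp1, _⟩, hp0, hp0'⟩ := hp
      obtain ⟨⟨hqS, hq1, _⟩, hq0, hq0'⟩ := hq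
      have e1 := hmemS _ hpS
      have e2 := hmemS _ hqS
      dsimp only at *
      subst hp0'
      subst hq0'
      obtain ⟨l₁, rfl⟩ := Nat.exists_eq_succ_of_ne_zero hp0
      obtain ⟨l₂, rfl⟩ := Nat.exists_eq_succ_of_ne_zero hq0
      have h3 := hww l₁ l₂ e1.1 e2.1 (hp1.trans hq1.symm)
      rw [h3]
    have h3 : (T.filter (fun p => p.1 ≠ 0 ∧ p.2 ≠ 0)).card ≤ 1 := by
      rw [Finset.card_le_one]
      rintro ⟨l, k⟩ hp ⟨l', k'⟩ hq
      rw [Finset.mem_filter, hT, Finset.mem_filter] at hp hq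
      obtain ⟨⟨hpS, hp1, hp2⟩, hp0, hp0'⟩ := hp
      obtain ⟨⟨hqS, hq1, hq2⟩, hq0, hq0'⟩ := hq
      have e1 := hmemS _ hpS
      have e2 := hmemS _ hqS
      dsimp only at *
      obtain ⟨l₁, rfl⟩ := Nat.exists_eq_succ_of_ne_zero hp0
      obtain ⟨l₂, rfl⟩ := Nat.exists_eq_succ_of_ne_zero hq0
      obtain ⟨k₁, rfl⟩ := Nat.exists_eq_succ_of_ne_zero hp0'
      obtain ⟨k₂, rfl⟩ := Nat.exists_eq_succ_of_ne_zero hq0'
      obtain ⟨rfl, h4⟩ := hwb l₁ k₁ e1.1 e1.2.2 hp1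
      obtain ⟨rfl, h5⟩ := hwb l₂ k₂ e2.1 e2.2.2 hq1
      rcases lt_trichotomy l₁ l₂ with h | h | h
      · exact absurd ⟨rfl, h5 (l₁ + 1) (by omega)⟩ hp2
      · rw [h]
      · exact absurd ⟨rfl, h4 (l₂ + 1) (by omega)⟩ hq2
    refine (Finset.card_le_card hsplit).trans ((Finset.card_union_le _ _).trans ?_)
    have h4 := Finset.card_union_le (T.filter (fun p => p.1 ≠ 0 ∧ p.2 = 0)) (T.filter (fun p => p.1 ≠ 0 ∧ p.2 ≠ 0))
    omega
  have hterm : ∀ p ∈ S, z p.1 p.2 ≤ 9 / (N : ℝ) ^ 2 + (if p.1 = p.2 then ε p.2 else 0) +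
      (if p ∈ T then 9 else 0) := by
    intro p hp
    obtain ⟨h1, h2, h3⟩ := hmemS p hp
    have q1 : (0 : ℝ) ≤ 9 / (N : ℝ) ^ 2 := by positivity
    have q2 : (0 : ℝ) ≤ (if p.1 = p.2 then ε p.2 else 0) := by
      split_ifs
      · exact hε0 _
      · exact le_rfl
    have q3 : (0 : ℝ) ≤ (if p ∈ T then 9 else 0) := by split_ifs <;> norm_num
    by_cases h4 : w p.1 = b p.2
    · by_cases h5 : p.1 = p.2 ∧ F p.1 = φ p.2
      · have h6 : z p.1 p.2 ≤ ε p.2 := by
          rw [h5.1]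
          refine hz3 p.2 h3 (by rw [← h5.1]; exact h1) ?_
          rw [← h5.2, h5.1]
        rw [if_pos h5.1]
        linarith
      · have h6 : p ∈ T := Finset.mem_filter.2 ⟨hp, h4, h5⟩
        rw [if_pos h6]
        have := hz2 p.1 h1 p.2 h3
        linarith
    · have := hz1 p.1 h1 p.2 h3 h4
      linarith
  have e0 : ∑ k ∈ I, ∑ l ∈ Finset.range d, z l k = ∑ p ∈ S, z p.1 p.2 := by
    rw [hS, Finset.sum_product_right]
  rw [e0]
  refine (Finset.sum_le_sum hterm).trans ?_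
  rw [Finset.sum_add_distrib, Finset.sum_add_distrib, Finset.sum_const, nsmul_eq_mul]
  have e1 : (S.card : ℝ) * (9 / (N : ℝ) ^ 2) ≤ 9 := by
    have h1 : (S.card : ℝ) ≤ (N : ℝ) ^ 2 := by
      have h2 : S.card ≤ N * N := by
        rw [hS, Finset.card_product, Finset.card_range]
        refine Nat.mul_le_mul hd ?_
        have := Finset.card_le_card hI
        rwa [Finset.card_range] at this
      rw [sq]
      exact_mod_cast h2
    calc (S.card : ℝ) * (9 / (N : ℝ) ^ 2) ≤ (N : ℝ) ^ 2 * (9 / (N : ℝ) ^ 2) :=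
          mul_le_mul_of_nonneg_right h1 (by positivity)
      _ = 9 := by field_simp
  have e2 : ∑ p ∈ S, (if p.1 = p.2 then ε p.2 else 0) ≤ 1 := by
    rw [hS, Finset.sum_product_right]
    refine le_trans (Finset.sum_le_sum (g := fun k => ((2 : ℝ) ^ (k + 1))⁻¹) fun k _ => ?_) (sum_half_pow I)
    dsimp only
    rw [Finset.sum_ite_eq']
    split_ifs
    · exact hε k
    · positivity
  have e3 : ∑ p ∈ S, (if p ∈ T then (9 : ℝ) else 0) ≤ 27 := by
    rw [← Finset.sum_filter, Finset.sum_const, nsmul_eq_mul]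
    have h1 : ((S.filter (fun p => p ∈ T)).card : ℝ) ≤ 3 := by
      have : S.filter (fun p => p ∈ T) ⊆ T := fun k hk => (Finset.mem_filter.1 hk).2
      exact_mod_cast (Finset.card_le_card this).trans hTcard
    linarith
  linarith

section
variable {u v : ℕ → ℝ → ℝ} {c : ℕ → ℕ} {K : ℝ} (P : PR u v c K)
include P

/-- existence of dependent sequences -/
lemma PR.dep (N b₀ : ℕ) (hb2 : 2 ≤ b₀) (hb : Even b₀) :
    ∃ (S E B M : ℕ → ℕ) (A : ℕ → ℕ →₀ ℝ) (φ : ℕ → ℝ → ℝ), B 0 = b₀ ∧ (∀ k, k + 1 ≤ S k) ∧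
      (∀ k, S k < E k) ∧ (∀ k, Cf (S k) (E k) (A k)) ∧ (∀ k, Even (B k)) ∧ (∀ k, 2 ≤ B k) ∧ (∀ k, B k < B (k + 1)) ∧
      (∀ k, B (k + 1) = 2 * code (pre φ M (k + 1))) ∧
      (∀ k, M k = c (E k) + k + 1 + B k) ∧ (∀ k, S (k + 1) = E k + k + 4 + B k) ∧
      (∀ k, W (B k) (φ k)) ∧ (∀ k, mu.real {t | φ k t ≠ 0} ≤ ((16 : ℝ) ^ (c (S k) - 2))⁻¹) ∧
      (∀ k t, φ k t ≤ 2 ^ (c (E k))) ∧
      (∀ k i f, W i f → pr f (U u (A k)) ≤ 9) ∧
      (∀ k i, 1 ≤ i → i < B k → ∀ f, W i f → pr f (U u (A k)) ≤ 9 / mm i) ∧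
      (∀ k i, B k < i → ∀ f, W i f → pr f (U u (A k)) ≤ 9 / mm (B k)) ∧
      (∀ k, (4 * K)⁻¹ ≤ pr (φ k) (U v (A k))) ∧ (∀ k, pr (φ k) (U u (A k)) ≤ ((2 : ℝ) ^ (S k))⁻¹) := by
  choose! e A φ h using P.typed_pair
  set St : ℕ → List ((ℝ → ℝ) × ℕ) × ℕ × ℕ := fun l => Nat.rec ([], b₀, 1)
    (fun k p => (p.1 ++ [(φ p.2.1 p.2.2, c (e p.2.1 p.2.2) + k + 1 + p.2.1)],
      2 * code (p.1 ++ [(φ p.2.1 p.2.2, c (e p.2.1 p.2.2) + k + 1 + p.2.1)]),
      e p.2.1 p.2.2 + k + 4 + p.2.1)) l with hSt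
  set B : ℕ → ℕ := fun k => (St k).2.1 with hB
  set S : ℕ → ℕ := fun k => (St k).2.2 with hS
  set E : ℕ → ℕ := fun k => e (B k) (S k) with hE
  set M : ℕ → ℕ := fun k => c (E k) + k + 1 + B k with hM
  set A' : ℕ → ℕ →₀ ℝ := fun k => A (B k) (S k) with hA'
  set φ' : ℕ → ℝ → ℝ := fun k => φ (B k) (S k) with hφ'
  have h1 : ∀ k, (St (k + 1)).1 = (St k).1 ++ [(φ' k, M k)] := fun k => rfl
  have h2 : ∀ k, B (k + 1) = 2 * code ((St k).1 ++ [(φ' k, M k)]) := fun k => rfl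
  have h3 : ∀ k, S (k + 1) = E k + k + 4 + B k := fun k => rfl
  have h4 : ∀ k, (St k).1 = pre φ' M k := by
    intro k
    induction k with
    | zero => rfl
    | succ k ih => rw [h1, ih, pre_succ]
  have h5 : ∀ k, B (k + 1) = 2 * code (pre φ' M (k + 1)) := by
    intro k
    rw [h2, h4, pre_succ]
  have h6 : ∀ k, B k < B (k + 1) := by
    intro k
    rw [h5]
    have h7 : M k ≤ code (pre φ' M (k + 1)) := le_code (mem_pre φ' M (Nat.lt_succ_self k))
    have h8 : M k = c (E k) + k + 1 + B k := rfl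
    omega
  have h7 : ∀ k, Even (B k) := by
    intro k
    cases k with
    | zero => exact hb
    | succ k =>
      rw [h5]
      exact even_two_mul _
  have h8 : ∀ k, 2 ≤ B k := by
    intro k
    induction k with
    | zero => exact hb2
    | succ k ih =>
      have := h6 k
      omega
  have h9 := fun k => h (B k) (S k) (h8 k) (h7 k)
  refine ⟨S, E, B, M, A', φ', rfl, fun k => ?_, fun k => (h9 k).1, fun k => (h9 k).2.1, h7, h8, h6, h5,
    fun k => rfl, h3, fun k => (h9 k).2.2.1, fun k => (h9 k).2.2.2.1, fun k => (h9 k).2.2.2.2.1,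
    fun k => (h9 k).2.2.2.2.2.1, fun k => (h9 k).2.2.2.2.2.2.1, fun k => (h9 k).2.2.2.2.2.2.2.1,
    fun k => (h9 k).2.2.2.2.2.2.2.2.1, fun k => (h9 k).2.2.2.2.2.2.2.2.2⟩
  cases k with
  | zero => exact le_rfl
  | succ k =>
    rw [h3]
    omega

/-- there are no equivalent disjoint sequences -/
theorem PR.false : False := by
  classical
  have hK := P.hK
  -- the weight
  obtain ⟨m, hm⟩ := exists_nat_gt (108 * K ^ 2)
  set J := 2 * m + 3 with hJ
  have hJodd : Odd J := ⟨m + 1, by omega⟩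
  have hJ3 : 3 ≤ J := by omega
  have hmJ : 108 * K ^ 2 < mm J := by
    refine hm.trans_le ?_
    have := self_le_mm J
    have h2 : m ≤ mm J := by omega
    exact_mod_cast h2
  set N := nn J with hN
  have hN1 : 1 ≤ N := nn_pos J
  have hN0 : (0 : ℝ) < N := by exact_mod_cast hN1
  have hm4 : (4 : ℝ) ≤ mm J := by exact_mod_cast four_le_mm (by omega : 1 ≤ J)
  set b₀ := 2 * (N ^ 2 + J) with hb₀
  obtain ⟨S, E, B, M, A, φ, p1, p2, p3, p4, p5, p6, p7, p8, p9, p10, p11, p12, p13, p14, p15, p16, p17, p18⟩ :=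
    P.dep N b₀ (by omega) (even_two_mul _)
  have hBm : StrictMono B := strictMono_nat_of_lt_succ p7
  have hSm : StrictMono S := strictMono_nat_of_lt_succ fun k => by
    rw [p10]
    have := p3 k
    omega
  have hBbig : ∀ k, N ^ 2 ≤ mm (B k) := by
    intro k
    have e1 : B 0 ≤ B k := hBm.monotone (Nat.zero_le _)
    have e2 := self_le_mm (B k)
    rw [p1] at e1
    omega
  have hBJ : ∀ k, J < B k := by
    intro k
    have e1 : B 0 ≤ B k := hBm.monotone (Nat.zero_le _)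
    rw [p1] at e1
    omega
  have hcS : ∀ k, c (E k) + k + 4 + B k ≤ c (S (k + 1)) := by
    intro k
    rw [p10]
    have := P.tu.c_add (E k) (k + 4 + B k)
    have e1 : E k + (k + 4 + B k) = E k + k + 4 + B k := by ring
    rw [e1] at this
    omega
  have hcSE : ∀ k, c (S k) < c (E k) := fun k => P.tu.mono (p3 k)
  have hbdu : ∀ k, Bd (U u (A k)) := fun k => P.tu.bdU _ (p4 k).nonneg
  have hbdv : ∀ k, Bd (U v (A k)) := fun k => P.tv.bdU _ (p4 k).nonneg
  have hn9 : ∀ k, nrm (U u (A k)) ≤ 9 := fun k => nrm_le (p14 k)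
  have hdisj : ∀ k < N, ∀ l < N, k ≠ l → ∀ t, U u (A k) t = 0 ∨ U u (A l) t = 0 := by
    have key : ∀ k l, k < l → ∀ t, U u (A k) t = 0 ∨ U u (A l) t = 0 := by
      intro k l hkl t
      refine U_disj_blocks P.disju (p4 k) (p4 l) ?_ t
      have e1 : S (k + 1) ≤ S l := hSm.monotone hkl
      have e2 := p10 k
      omega
    intro k _ l _ hkl t
    rcases lt_or_gt_of_ne hkl with h | h
    · exact key k l h t
    · exact (key l k h t).symm
  have hbl : Blocks N (fun k => U u (A k)) (fun k => c (S k)) (fun k => c (E k)) 9 := by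
    refine ⟨fun k _ => ?_, ⟨fun l _ => hcSE l, fun l _ => ?_⟩, ?_, by norm_num⟩
    · refine P.tu.vr (p3 k) (p4 k) (fun n => ?_) (hn9 k)
      exact (coef_le_one P.tu P.one (p4 k).nonneg (hn9 k) n).trans (by norm_num)
    · have := hcS l
      dsimp only
      omega
    · have := P.tu.c_ge (S 0)
      omega
  have hris : RIS N (fun k => U u (A k)) (fun k => c (S k)) (fun k => c (E k)) 9 B := by
    refine ⟨hbl, fun k _ i hi hij f hf => p15 k i hi hij f hf, fun k _ => p7 k, fun k _ => ?_, ?_⟩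
    · have h1 : M k ≤ code (pre φ M (k + 1)) := le_code (mem_pre φ M (Nat.lt_succ_self k))
      have h2 := p8 k
      have h3 := p9 k
      refine le_trans ?_ (two_pow_le_mm _)
      have e1 : c (E k) + 1 ≤ 2 ^ (c (E k)) := succ_two_pow _
      calc 2 ^ (k + 1) * (c (E k) + 1) ≤ 2 ^ (k + 1) * 2 ^ (c (E k)) := Nat.mul_le_mul_left _ e1
        _ = 2 ^ (k + 1 + c (E k)) := by rw [← pow_add]
        _ ≤ 2 ^ (B (k + 1) + 1) := Nat.pow_le_pow_right (by norm_num) (by omega)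
    · exact base_disj (by norm_num) (fun k _ => hbdu k) (fun k _ => hn9 k) hdisj
  -- functionals of weight `J`
  have hsp : ∀ f, W J f → ∀ I ⊆ Finset.range N, ∑ k ∈ I, pr f (U u (A k)) ≤ 9 * 2 := by
    intro f hf I hI
    obtain ⟨d, F, w, a, b, h1, h2, h3, h4, h5⟩ := hf.fam (by omega)
    obtain ⟨h6, h7⟩ := h5 hJodd
    have h8 : ∑ k ∈ I, ∑ l ∈ Finset.range d, pr (F l) (U u (A k)) ≤ 37 := by
      refine special_count (ε := fun k => ((2 : ℝ) ^ (S k))⁻¹) h1 hN1 (fun l hl => (h2.hW l hl).mem_DD)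
        (fun k _ => (p11 k).mem_DD) h7 (fun k _ => p8 k) (fun k l hkl _ => hBm hkl) hI (fun k => ?_)
        (fun k => by positivity) (fun l hl k hk hne => ?_) (fun l hl k hk => p14 k _ _ (h2.hW l hl))
        (fun k hk hkd heq => ?_)
      · exact inv_anti₀ (by positivity) (pow_le_pow_right₀ (by norm_num) (p2 k))
      · have hNr : (0 : ℝ) < (N : ℝ) ^ 2 := by positivity
        rcases lt_or_gt_of_ne hne with h9 | h9
        · refine (p15 k _ (h6 l hl).1 h9 _ (h2.hW l hl)).trans ?_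
          refine div_le_div_of_nonneg_left (by norm_num) hNr ?_
          exact_mod_cast (h6 l hl).2.2
        · refine (p16 k _ h9 _ (h2.hW l hl)).trans ?_
          refine div_le_div_of_nonneg_left (by norm_num) hNr ?_
          exact_mod_cast hBbig k
      · rw [heq]
        exact p18 k
    have h9 : ∑ k ∈ I, pr f (U u (A k)) ≤ ∑ k ∈ I, (mm J : ℝ)⁻¹ * ∑ l ∈ Finset.range d, pr (F l) (U u (A k)) :=
      Finset.sum_le_sum fun k hk => h4 _ _ _ _ (hbl.vr k (Finset.mem_range.1 (hI hk)))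
    refine h9.trans ?_
    rw [← Finset.mul_sum]
    have h10 : (mm J : ℝ)⁻¹ ≤ 4⁻¹ := inv_anti₀ (by norm_num) hm4
    have h11 : 0 ≤ ∑ k ∈ I, ∑ l ∈ Finset.range d, pr (F l) (U u (A k)) :=
      Finset.sum_nonneg fun k _ => Finset.sum_nonneg fun l hl =>
        pr_nonneg (h2.hW l (Finset.mem_range.1 hl)).nn (hbdu k).nonneg
    calc (mm J : ℝ)⁻¹ * ∑ k ∈ I, ∑ l ∈ Finset.range d, pr (F l) (U u (A k))
        ≤ 4⁻¹ * ∑ k ∈ I, ∑ l ∈ Finset.range d, pr (F l) (U u (A k)) := mul_le_mul_of_nonneg_right h10 h11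
      _ ≤ 4⁻¹ * 37 := mul_le_mul_of_nonneg_left h8 (by norm_num)
      _ ≤ 9 * 2 := by norm_num
  -- the average
  set Z : ℕ →₀ ℝ := (N : ℝ)⁻¹ • ∑ k ∈ Finset.range N, A k with hZ
  have hZ0 : ∀ n, 0 ≤ Z n := by
    intro n
    rw [hZ, Finsupp.smul_apply, Finsupp.finsetSum_apply, smul_eq_mul]
    exact mul_nonneg (by positivity) (Finset.sum_nonneg fun k _ => (p4 k).nonneg n)
  have hup : nrm (U u Z) ≤ 27 / (mm J : ℝ) ^ 2 := by
    refine nrm_le fun i f hf => ?_
    rw [pr_U_sum P.tu hf _ _ _ (fun k _ => (p4 k).nonneg)]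
    refine (typed_special (by omega) hris hsp hf).trans (le_of_eq ?_)
    norm_num
  -- the special functional
  have hΦ : W J (fun t => (mm J : ℝ)⁻¹ * ∑ k ∈ Finset.range N, φ k t) := by
    refine W.special J N φ B (fun k => c (S k) - 2) M hJ3 hJodd le_rfl (fun l _ => p11 l)
      ⟨fun l _ => ?_, fun l _ => ?_⟩ (fun l _ => p12 l) (fun l _ t => ?_)
      (fun l _ => ⟨by have := p6 l; omega, p5 l, hBbig l⟩) (fun l _ => p8 l)
    · have e1 := hcSE l
      have e2 := p9 l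
      dsimp only
      omega
    · have e1 := hcS l
      have e2 := p9 l
      dsimp only
      omega
    · refine (p13 l t).trans (pow_le_pow_right₀ (by norm_num) ?_)
      have e2 := p9 l
      omega
  set Φ : ℝ → ℝ := fun t => (mm J : ℝ)⁻¹ * ∑ k ∈ Finset.range N, φ k t with hΦd
  have hlow : (mm J : ℝ)⁻¹ * (4 * K)⁻¹ ≤ nrm (U v Z) := by
    refine le_trans ?_ ((P.tv.bdU Z hZ0).pr_le hΦ)
    rw [pr_U_sum P.tv hΦ _ _ _ (fun k _ => (p4 k).nonneg)]
    have hterm : ∀ l ∈ Finset.range N, (mm J : ℝ)⁻¹ * (4 * K)⁻¹ ≤ pr Φ (U v (A l)) := by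
      intro l hl
      rw [hΦd, pr_const_sum _ _ _ _ (fun k _ => (hbdv l).integrable_mul (p11 k))]
      refine mul_le_mul_of_nonneg_left ?_ (by positivity)
      refine (p17 l).trans ?_
      exact Finset.single_le_sum (f := fun k => pr (φ k) (U v (A l)))
        (fun k _ => pr_nonneg (p11 k).nn (hbdv l).nonneg) hl
    calc (mm J : ℝ)⁻¹ * (4 * K)⁻¹ = (N : ℝ)⁻¹ * ∑ l ∈ Finset.range N, (mm J : ℝ)⁻¹ * (4 * K)⁻¹ := by
          rw [Finset.sum_const, Finset.card_range, nsmul_eq_mul]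
          field_simp
      _ ≤ _ := mul_le_mul_of_nonneg_left (Finset.sum_le_sum hterm) (by positivity)
  have hfin : (mm J : ℝ)⁻¹ * (4 * K)⁻¹ ≤ K * (27 / (mm J : ℝ) ^ 2) :=
    hlow.trans ((P.eq1 Z hZ0).trans (mul_le_mul_of_nonneg_left hup (by linarith)))
  have hmpos : (0 : ℝ) < mm J := by linarith
  have h1 : (mm J : ℝ)⁻¹ * (4 * K)⁻¹ * ((mm J : ℝ) ^ 2 * (4 * K)) = mm J := by
    field_simp
  have h2 : K * (27 / (mm J : ℝ) ^ 2) * ((mm J : ℝ) ^ 2 * (4 * K)) = 108 * K ^ 2 := by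
    field_simp
    norm_num
  have h3 := mul_le_mul_of_nonneg_right hfin (show (0 : ℝ) ≤ (mm J : ℝ) ^ 2 * (4 * K) by positivity)
  rw [h1, h2] at h3
  linarith

end

end Pool.Agent.Helper64.Tight
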