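import Mathlib
import Pool.Agent.Helper64.Tight.Seq

/-!
# Functions of finite norm
-/

open MeasureTheory
open scoped ENNReal symmDiff

namespace Pool.Agent.Helper64.Tight

/-- square integrable functions of finite norm -/
structure Good (g : ℝ → ℝ) : Prop where
  memLp : MemLp g 2 mu
  bdd : ∃ C, ∀ i f, W i f → pr f (fun t => |g t|) ≤ C

/-- the norm of a function -/
noncomputable def gn (g : ℝ → ℝ) : ℝ := nrm (fun t => |g t|)

lemma pr_congr {f x y : ℝ → ℝ} (h : x =ᵐ[mu] y) : pr f x = pr f y := by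
  refine integral_congr_ae ?_
  filter_upwards [h] with t ht
  rw [ht]

lemma nrm_congr {x y : ℝ → ℝ} (h : x =ᵐ[mu] y) : nrm x = nrm y := by
  unfold nrm
  congr 1
  ext r
  constructor
  · rintro ⟨i, f, hf, rfl⟩
    exact ⟨i, f, hf, pr_congr h⟩
  · rintro ⟨i, f, hf, rfl⟩
    exact ⟨i, f, hf, (pr_congr h).symm⟩

lemma gn_congr {x y : ℝ → ℝ} (h : x =ᵐ[mu] y) : gn x = gn y := by
  refine nrm_congr ?_
  filter_upwards [h] with t ht
  rw [ht]

lemma int_mul {f g : ℝ → ℝ} {i : ℕ} (hf : W i f) (hg : MemLp g 2 mu) : Integrable (fun t => f t * g t) mu :=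
  (hf.memLp 2).integrable_mul hg

lemma pr_mono_ae {f x y : ℝ → ℝ} {i : ℕ} (hf : W i f) (hx : MemLp x 2 mu) (hy : MemLp y 2 mu)
    (h : ∀ᵐ t ∂mu, x t ≤ y t) : pr f x ≤ pr f y := by
  refine integral_mono_ae (int_mul hf hx) (int_mul hf hy) ?_
  filter_upwards [h] with t ht
  exact mul_le_mul_of_nonneg_left ht (hf.nn t)

lemma memLp_abs {g : ℝ → ℝ} (hg : MemLp g 2 mu) : MemLp (fun t => |g t|) 2 mu := hg.norm

lemma Good.pr_le {g : ℝ → ℝ} (h : Good g) {i : ℕ} {f : ℝ → ℝ} (hf : W i f) : pr f (fun t => |g t|) ≤ gn g := by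
  obtain ⟨C, hC⟩ := h.bdd
  refine le_csSup ⟨C, ?_⟩ ⟨i, f, hf, rfl⟩
  rintro r ⟨i, f, hf, rfl⟩
  exact hC i f hf

lemma gn_le {g : ℝ → ℝ} {C : ℝ} (h : ∀ i f, W i f → pr f (fun t => |g t|) ≤ C) : gn g ≤ C := nrm_le h

lemma gn_nonneg {g : ℝ → ℝ} (h : Good g) : 0 ≤ gn g :=
  (pr_nonneg (bh_nn 0) fun t => abs_nonneg (g t)).trans (h.pr_le (W.base 0))

lemma Good.of_le {x y : ℝ → ℝ} (hy : Good y) (hx : MemLp x 2 mu) (h : ∀ᵐ t ∂mu, |x t| ≤ |y t|) : Good x := by
  obtain ⟨C, hC⟩ := hy.bdd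
  exact ⟨hx, C, fun i f hf => (pr_mono_ae hf (memLp_abs hx) (memLp_abs hy.memLp) h).trans (hC i f hf)⟩

lemma gn_mono {x y : ℝ → ℝ} (hy : Good y) (hx : MemLp x 2 mu) (h : ∀ᵐ t ∂mu, |x t| ≤ |y t|) : gn x ≤ gn y :=
  gn_le fun _ _ hf => (pr_mono_ae hf (memLp_abs hx) (memLp_abs hy.memLp) h).trans (hy.pr_le hf)

lemma pr_add_le {x y : ℝ → ℝ} (hx : MemLp x 2 mu) (hy : MemLp y 2 mu) {i : ℕ} {f : ℝ → ℝ} (hf : W i f) :
    pr f (fun t => |x t + y t|) ≤ pr f (fun t => |x t|) + pr f (fun t => |y t|) := by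
  rw [← pr_add (int_mul hf (memLp_abs hx)) (int_mul hf (memLp_abs hy))]
  exact pr_mono_ae hf (memLp_abs (hx.add hy)) ((memLp_abs hx).add (memLp_abs hy))
    (Filter.Eventually.of_forall fun t => abs_add_le _ _)

lemma Good.add {x y : ℝ → ℝ} (hx : Good x) (hy : Good y) : Good (fun t => x t + y t) :=
  ⟨hx.memLp.add hy.memLp, gn x + gn y, fun _ _ hf =>
    (pr_add_le hx.memLp hy.memLp hf).trans (add_le_add (hx.pr_le hf) (hy.pr_le hf))⟩

lemma gn_add {x y : ℝ → ℝ} (hx : Good x) (hy : Good y) : gn (fun t => x t + y t) ≤ gn x + gn y :=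
  gn_le fun _ _ hf => (pr_add_le hx.memLp hy.memLp hf).trans (add_le_add (hx.pr_le hf) (hy.pr_le hf))

lemma pr_smul_abs (r : ℝ) (f x : ℝ → ℝ) : pr f (fun t => |r * x t|) = |r| * pr f (fun t => |x t|) := by
  rw [← pr_smul]
  simp_rw [abs_mul]

lemma Good.smul {x : ℝ → ℝ} (hx : Good x) (r : ℝ) : Good (fun t => r * x t) :=
  ⟨hx.memLp.const_mul r, |r| * gn x, fun i f hf => by
    rw [pr_smul_abs]
    exact mul_le_mul_of_nonneg_left (hx.pr_le hf) (abs_nonneg r)⟩

lemma gn_smul {x : ℝ → ℝ} (hx : Good x) (r : ℝ) : gn (fun t => r * x t) = |r| * gn x := by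
  refine le_antisymm (gn_le fun i f hf => ?_) ?_
  · rw [pr_smul_abs]
    exact mul_le_mul_of_nonneg_left (hx.pr_le hf) (abs_nonneg r)
  · rcases (abs_nonneg r).eq_or_lt with h0 | h0
    · rw [← h0, zero_mul]
      exact gn_nonneg (hx.smul r)
    · rw [← le_div_iff₀' h0]
      refine gn_le fun i f hf => ?_
      rw [le_div_iff₀' h0, ← pr_smul_abs]
      exact (hx.smul r).pr_le hf

lemma Good.zero : Good (fun _ => 0) :=
  ⟨MemLp.zero', 0, fun i f _ => by
    unfold pr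
    simp⟩

lemma Good.sup {x y : ℝ → ℝ} (hx : Good x) (hy : Good y) : Good (fun t => x t ⊔ y t) := by
  refine Good.of_le (y := fun t => |x t| + |y t|) ?_ (hx.memLp.sup hy.memLp)
    (Filter.Eventually.of_forall fun t => ?_)
  · have h1 : Good (fun t => |x t|) := hx.of_le (memLp_abs hx.memLp) (Filter.Eventually.of_forall fun t => by
      rw [abs_abs])
    have h2 : Good (fun t => |y t|) := hy.of_le (memLp_abs hy.memLp) (Filter.Eventually.of_forall fun t => by
      rw [abs_abs])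
    exact h1.add h2
  · have h1 := abs_nonneg (x t)
    have h2 := abs_nonneg (y t)
    rw [abs_of_nonneg (add_nonneg h1 h2)]
    refine (abs_max_le_max_abs_abs).trans ?_
    exact max_le (by linarith) (by linarith)

lemma Good.inf {x y : ℝ → ℝ} (hx : Good x) (hy : Good y) : Good (fun t => x t ⊓ y t) := by
  refine Good.of_le (y := fun t => |x t| + |y t|) ?_ (hx.memLp.inf hy.memLp)
    (Filter.Eventually.of_forall fun t => ?_)
  · have h1 : Good (fun t => |x t|) := hx.of_le (memLp_abs hx.memLp) (Filter.Eventually.of_forall fun t => by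
      rw [abs_abs])
    have h2 : Good (fun t => |y t|) := hy.of_le (memLp_abs hy.memLp) (Filter.Eventually.of_forall fun t => by
      rw [abs_abs])
    exact h1.add h2
  · have h1 := abs_nonneg (x t)
    have h2 := abs_nonneg (y t)
    rw [abs_of_nonneg (add_nonneg h1 h2)]
    refine (abs_min_le_max_abs_abs).trans ?_
    exact max_le (by linarith) (by linarith)

lemma Good.congr {x y : ℝ → ℝ} (hx : Good x) (h : x =ᵐ[mu] y) : Good y := by
  refine hx.of_le (hx.memLp.ae_eq h) ?_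
  filter_upwards [h] with t ht
  rw [ht]

lemma Good.l2 {x : ℝ → ℝ} (hx : Good x) : √(∫ t, x t ^ 2 ∂mu) ≤ gn x := by
  have h1 := l2_le_of_nrm (memLp_abs hx.memLp) (fun t => abs_nonneg (x t)) (fun i f hf => hx.pr_le hf)
  simpa only [sq_abs] using h1

lemma Bd.good {x : ℝ → ℝ} (h : Bd x) : Good x :=
  ⟨h.memLp 2, nrm x, fun i f hf => by
    simp_rw [abs_of_nonneg (h.nonneg _)]
    exact h.pr_le hf⟩

lemma Bd.gn {x : ℝ → ℝ} (h : Bd x) : gn x = nrm x := by
  unfold Tight.gn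
  simp_rw [abs_of_nonneg (h.nonneg _)]

/-- bounded functions -/
lemma good_of_bdd {x : ℝ → ℝ} (hx : AEStronglyMeasurable x mu) {C : ℝ} (hC : ∀ᵐ t ∂mu, |x t| ≤ C) :
    Good x ∧ Tight.gn x ≤ 2 * C := by
  have hC0 : 0 ≤ C := by
    obtain ⟨t, ht⟩ := hC.exists
    exact (abs_nonneg _).trans ht
  have hL : MemLp x 2 mu := MemLp.of_bound hx C (by simpa using hC)
  have key : ∀ i f, W i f → pr f (fun t => |x t|) ≤ 2 * C := by
    intro i f hf
    have h1 : pr f (fun t => |x t|) ≤ pr f (fun _ => C) :=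
      pr_mono_ae hf (memLp_abs hL) (memLp_const C) hC
    refine h1.trans ?_
    unfold pr
    rw [integral_mul_const]
    refine mul_le_mul_of_nonneg_right ?_ hC0
    have := hf.c1 Set.univ MeasurableSet.univ
    rw [setIntegral_univ] at this
    simpa using this
  exact ⟨⟨hL, _, key⟩, gn_le key⟩

end Pool.Agent.Helper64.Tight
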