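import Mathlib
import Pool.Agent.Helper64.Tight.Good
import Pool.Agent.Helper64.Tight.Dep

/-!
# Absolute continuity of the norm
-/

open MeasureTheory
open scoped ENNReal symmDiff

namespace Pool.Agent.Helper64.Tight

lemma mm4_le_nn {j : ℕ} (hj : 1 ≤ j) : mm j ^ 4 ≤ nn j := by
  obtain ⟨e, rfl⟩ : ∃ e, j = e + 1 := ⟨j - 1, by omega⟩
  rw [nn_succ]
  have h1 := nn_pos e
  exact Nat.le_mul_of_pos_right _ (by positivity)

lemma pr_ind_le {f x : ℝ → ℝ} {i : ℕ} (hf : W i f) {C : ℝ} (hC0 : 0 ≤ C) (hC : ∀ t, f t ≤ C)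
    (hx : MemLp x 2 mu) {B : Set ℝ} (hB : MeasurableSet B) :
    pr (B.indicator f) (fun t => |x t|) ≤ C * √(mu.real B) * √(∫ t, x t ^ 2 ∂mu) := by
  have h1 : MemLp (B.indicator f) 2 mu := (hf.memLp 2).indicator hB
  have h2 := cs h1 (memLp_abs hx) (fun t => Set.indicator_nonneg (fun t _ => hf.nn t) t)
    (fun t => abs_nonneg (x t))
  simp only [sq_abs] at h2
  refine h2.trans (mul_le_mul_of_nonneg_right ?_ (Real.sqrt_nonneg _))
  have h3 : ∫ t, (B.indicator f t) ^ 2 ∂mu ≤ C ^ 2 * mu.real B := by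
    have h4 : ∫ t, (B.indicator f t) ^ 2 ∂mu ≤ ∫ t, B.indicator (fun _ => C ^ 2) t ∂mu := by
      refine integral_mono h1.integrable_sq ((integrable_const _).indicator hB) fun t => ?_
      dsimp only
      by_cases ht : t ∈ B
      · rw [Set.indicator_of_mem ht, Set.indicator_of_mem ht]
        exact pow_le_pow_left₀ (hf.nn t) (hC t) 2
      · rw [Set.indicator_of_notMem ht, Set.indicator_of_notMem ht]
        norm_num
    rw [integral_indicator hB, setIntegral_const, smul_eq_mul, mul_comm] at h4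
    exact h4
  calc √(∫ t, (B.indicator f t) ^ 2 ∂mu) ≤ √(C ^ 2 * mu.real B) := Real.sqrt_le_sqrt h3
    _ = C * √(mu.real B) := by rw [Real.sqrt_mul (sq_nonneg C), Real.sqrt_sq hC0]

/-- absolute continuity -/
theorem Good.ac {x : ℝ → ℝ} (hx : Good x) {ε : ℝ} (hε : 0 < ε) :
    ∃ δ : ℝ, 0 < δ ∧ ∀ A, MeasurableSet A → mu.real A < δ → Tight.gn (A.indicator x) ≤ ε := by
  by_contra hcon
  push Not at hcon
  set X := √(∫ t, x t ^ 2 ∂mu) with hX
  have hX0 : 0 ≤ X := Real.sqrt_nonneg _
  have step : ∀ c : ℕ, ∃ (w : ℕ) (g : ℝ → ℝ) (β : ℕ), W w g ∧ mu.real {t | g t ≠ 0} ≤ ((16 : ℝ) ^ c)⁻¹ ∧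
      (∀ t, g t ≤ 2 ^ β) ∧ ε / 2 ≤ pr g (fun t => |x t|) := by
    intro c
    obtain ⟨A, hA, hAs, hAg⟩ := hcon (((16 : ℝ) ^ (c + 1))⁻¹) (by positivity)
    unfold Tight.gn at hAg
    obtain ⟨i, f, hf, hfr⟩ := exists_of_lt_nrm hAg
    obtain ⟨C, hC0, hC⟩ := hf.bdd
    have hd0 : 0 < ε / (2 * (C * X + 1)) := by positivity
    obtain ⟨k, hk⟩ := bE_dense A hA (min ((16 : ℝ) ^ (c + 1))⁻¹ ((ε / (2 * (C * X + 1))) ^ 2))
      (lt_min (by positivity) (by positivity))
    have hkr : mu.real (A ∆ bE k) ≤ min ((16 : ℝ) ^ (c + 1))⁻¹ ((ε / (2 * (C * X + 1))) ^ 2) := by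
      unfold Measure.real
      exact ENNReal.toReal_le_of_le_ofReal (le_min (by positivity) (by positivity)) hk.le
    have hBm : MeasurableSet (A ∆ bE k) := hA.symmDiff (bE_meas k)
    have hg := W.restr i f k hf
    obtain ⟨β, hβ⟩ := pow_unbounded_of_one_lt C (show (1 : ℝ) < 2 by norm_num)
    refine ⟨i, (bE k).indicator f, β, hg, ?_, ?_, ?_⟩
    · have hsub : {t | (bE k).indicator f t ≠ 0} ⊆ A ∪ (A ∆ bE k) := by
        intro t ht
        have htE : t ∈ bE k := by
          by_contra hne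
          exact ht (Set.indicator_of_notMem hne f)
        by_cases htA : t ∈ A
        · exact Or.inl htA
        · exact Or.inr (Or.inr ⟨htE, htA⟩)
      have h4 : mu.real {t | (bE k).indicator f t ≠ 0} ≤ mu.real A + mu.real (A ∆ bE k) :=
        (measureReal_mono hsub).trans (measureReal_union_le _ _)
      have h5 : ((16 : ℝ) ^ c)⁻¹ = 16 * ((16 : ℝ) ^ (c + 1))⁻¹ := by
        rw [pow_succ]
        field_simp
      rw [h5]
      have h6 : 0 < ((16 : ℝ) ^ (c + 1))⁻¹ := by positivity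
      have h7 := hkr.trans (min_le_left _ _)
      linarith
    · intro t
      exact (Set.indicator_le_self' (fun _ _ => hf.nn t) t).trans ((hC t).trans hβ.le)
    · have h1 := pr_ind_le hf hC0 hC hx.memLp hBm
      have h2 : √(mu.real (A ∆ bE k)) ≤ ε / (2 * (C * X + 1)) := by
        rw [Real.sqrt_le_left hd0.le]
        exact hkr.trans (min_le_right _ _)
      have h3 : C * √(mu.real (A ∆ bE k)) * X ≤ ε / 2 := by
        calc C * √(mu.real (A ∆ bE k)) * X = (C * X) * √(mu.real (A ∆ bE k)) := by ring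
          _ ≤ (C * X + 1) * (ε / (2 * (C * X + 1))) :=
            mul_le_mul (by linarith) h2 (Real.sqrt_nonneg _) (by positivity)
          _ = ε / 2 := by field_simp
      have hAx : MemLp (A.indicator x) 2 mu := hx.memLp.indicator hA
      have h4 : pr f (fun t => |A.indicator x t|) ≤ pr ((bE k).indicator f) (fun t => |x t|) +
          pr ((A ∆ bE k).indicator f) (fun t => |x t|) := by
        unfold pr
        have i1 : Integrable (fun t => f t * |A.indicator x t|) mu := int_mul hf (memLp_abs hAx)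
        have i2 : Integrable (fun t => (bE k).indicator f t * |x t|) mu := int_mul hg (memLp_abs hx.memLp)
        have i3 : Integrable (fun t => (A ∆ bE k).indicator f t * |x t|) mu :=
          ((hf.memLp 2).indicator hBm).integrable_mul (memLp_abs hx.memLp)
        rw [← integral_add i2 i3]
        refine integral_mono i1 (i2.add i3) fun t => ?_
        show f t * |A.indicator x t| ≤ (bE k).indicator f t * |x t| + (A ∆ bE k).indicator f t * |x t|
        have p0 : 0 ≤ f t * |x t| := mul_nonneg (hf.nn t) (abs_nonneg _)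
        by_cases htA : t ∈ A
        · rw [Set.indicator_of_mem htA]
          by_cases htE : t ∈ bE k
          · rw [Set.indicator_of_mem htE]
            have p1 : 0 ≤ (A ∆ bE k).indicator f t * |x t| :=
              mul_nonneg (Set.indicator_nonneg (fun t _ => hf.nn t) t) (abs_nonneg _)
            linarith
          · rw [Set.indicator_of_notMem htE, Set.indicator_of_mem (show t ∈ A ∆ bE k from Or.inl ⟨htA, htE⟩)]
            linarith
        · rw [Set.indicator_of_notMem htA, abs_zero, mul_zero]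
          exact add_nonneg (mul_nonneg (Set.indicator_nonneg (fun t _ => hf.nn t) t) (abs_nonneg _))
            (mul_nonneg (Set.indicator_nonneg (fun t _ => hf.nn t) t) (abs_nonneg _))
      linarith
  choose w g β hW hs hb hp using step
  -- the recursion
  set σ : ℕ → ℕ := fun q => Nat.rec 0 (fun _ p => p + β p + 1) q with hσ
  have hσs : ∀ q, σ (q + 1) = σ q + β (σ q) + 1 := fun q => rfl
  have key : ∀ j : ℕ, 1 ≤ j → (j : ℝ) * (ε / 2) ≤ Tight.gn x := by
    intro j hj
    have hG : W (2 * j) (fun t => (mm (2 * j) : ℝ)⁻¹ * ∑ q ∈ Finset.range (nn (2 * j)), g (σ q) t) := by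
      refine W.node (2 * j) (nn (2 * j)) (fun q => g (σ q)) (fun q => w (σ q)) σ
        (fun q => σ q + β (σ q) + 1) (by omega) (even_two_mul _) le_rfl (fun l _ => hW _)
        ⟨fun l _ => ?_, fun l _ => ?_⟩ (fun l _ => hs _) (fun l _ t => ?_)
      · dsimp only
        omega
      · dsimp only
        rw [hσs]
      · exact (hb _ t).trans (pow_le_pow_right₀ (by norm_num) (by omega))
    have h1 := hx.pr_le hG
    rw [pr_const_sum _ _ _ _ (fun l _ => int_mul (hW (σ l)) (memLp_abs hx.memLp))] at h1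
    have h2 : ∑ q ∈ Finset.range (nn (2 * j)), ε / 2 ≤
        ∑ l ∈ Finset.range (nn (2 * j)), pr (g (σ l)) (fun t => |x t|) :=
      Finset.sum_le_sum fun q _ => hp (σ q)
    rw [Finset.sum_const, Finset.card_range, nsmul_eq_mul] at h2
    have h3 : mm (2 * j) * j ≤ nn (2 * j) := by
      refine le_trans ?_ (mm4_le_nn (by omega))
      have h4 : j ≤ mm (2 * j) := (by omega : j ≤ 2 * j).trans (self_le_mm _)
      have h5 : 1 ≤ mm (2 * j) := mm_pos _
      calc mm (2 * j) * j ≤ mm (2 * j) * mm (2 * j) := Nat.mul_le_mul_left _ h4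
        _ = mm (2 * j) ^ 2 := by ring
        _ ≤ mm (2 * j) ^ 4 := Nat.pow_le_pow_right h5 (by norm_num)
    have h3r : (mm (2 * j) : ℝ) * j ≤ nn (2 * j) := by exact_mod_cast h3
    have hm := mm_real_pos (2 * j)
    calc (j : ℝ) * (ε / 2) = (mm (2 * j) : ℝ)⁻¹ * ((mm (2 * j) * j) * (ε / 2)) := by field_simp
      _ ≤ (mm (2 * j) : ℝ)⁻¹ * (nn (2 * j) * (ε / 2)) :=
          mul_le_mul_of_nonneg_left (mul_le_mul_of_nonneg_right h3r (by positivity)) (by positivity)
      _ ≤ (mm (2 * j) : ℝ)⁻¹ * ∑ l ∈ Finset.range (nn (2 * j)), pr (g (σ l)) (fun t => |x t|) :=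
          mul_le_mul_of_nonneg_left h2 (by positivity)
      _ ≤ _ := h1
  obtain ⟨n, hn⟩ := exists_nat_gt (Tight.gn x / (ε / 2))
  rw [div_lt_iff₀ (by positivity)] at hn
  have h1 := key (n + 1) (by omega)
  push_cast at h1
  nlinarith

end Pool.Agent.Helper64.Tight
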