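import Mathlib
import Pool.Agent.Helper64.Tight.Ac

/-!
# The Banach lattice
-/

open MeasureTheory
open scoped ENNReal symmDiff

namespace Pool.Agent.Helper64.Tight

/-- elements of finite norm -/
def ES : Submodule ℝ (Lp ℝ 2 mu) where
  carrier := {x | Good x}
  add_mem' {x y} hx hy := (Good.add hx hy).congr (Lp.coeFn_add x y).symm
  zero_mem' := Good.zero.congr (Lp.coeFn_zero ℝ 2 mu).symm
  smul_mem' c x hx := (Good.smul hx c).congr (Lp.coeFn_smul c x).symm

lemma mem_ES {x : Lp ℝ 2 mu} : x ∈ ES ↔ Good x := Iff.rfl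

/-- the Banach lattice -/
def E : Type := ES

noncomputable instance : AddCommGroup E := inferInstanceAs (AddCommGroup ES)

noncomputable instance : Module ℝ E := inferInstanceAs (Module ℝ ES)

noncomputable instance : Lattice E := Subtype.lattice (P := fun x : Lp ℝ 2 mu => x ∈ ES)
  (fun x y hx hy => (Good.sup (mem_ES.1 hx) (mem_ES.1 hy)).congr (Lp.coeFn_sup x y).symm)
  (fun x y hx hy => (Good.inf (mem_ES.1 hx) (mem_ES.1 hy)).congr (Lp.coeFn_inf x y).symm)

noncomputable instance : Norm E := ⟨fun x => Tight.gn (x.1 : ℝ → ℝ)⟩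

/-- the underlying square integrable function -/
def E.l2 (x : E) : Lp ℝ 2 mu := x.1

lemma E.ext {x y : E} (h : x.l2 = y.l2) : x = y := Subtype.ext h

lemma E.good (x : E) : Good x.l2 := x.2

lemma E.norm_def (x : E) : ‖x‖ = Tight.gn x.l2 := rfl

lemma E.l2_add (x y : E) : (x + y).l2 = x.l2 + y.l2 := rfl

lemma E.l2_sub (x y : E) : (x - y).l2 = x.l2 - y.l2 := rfl

lemma E.l2_neg (x : E) : (-x).l2 = -x.l2 := rfl

lemma E.l2_zero : (0 : E).l2 = 0 := rfl

lemma E.l2_smul (c : ℝ) (x : E) : (c • x).l2 = c • x.l2 := rfl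

lemma E.l2_abs (x : E) : |x|.l2 = |x.l2| := rfl

lemma E.l2_inf (x y : E) : (x ⊓ y).l2 = x.l2 ⊓ y.l2 := rfl

lemma E.le_iff (x y : E) : x ≤ y ↔ x.l2 ≤ y.l2 := Iff.rfl

lemma norm_l2 (z : Lp ℝ 2 mu) : √(∫ t, z t ^ 2 ∂mu) = ‖z‖ := by
  rw [← sq_norm_toLp (Lp.memLp z), Lp.toLp_coeFn]

lemma E.l2_le (x : E) : ‖x.l2‖ ≤ ‖x‖ := by
  rw [← norm_l2]
  exact x.good.l2

lemma E.core : NormedSpace.Core ℝ E where
  norm_nonneg x := gn_nonneg x.good
  norm_smul c x := by
    rw [E.norm_def, E.norm_def, E.l2_smul, gn_congr (Lp.coeFn_smul c x.l2)]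
    exact gn_smul x.good c
  norm_triangle x y := by
    rw [E.norm_def, E.l2_add, gn_congr (Lp.coeFn_add x.l2 y.l2)]
    exact gn_add x.good y.good
  norm_eq_zero_iff x := by
    constructor
    · intro h
      have h1 := x.l2_le
      rw [h] at h1
      have h2 : x.l2 = 0 := norm_le_zero_iff.1 h1
      exact E.ext h2
    · rintro rfl
      have h1 : Tight.gn (0 : E).l2 = Tight.gn (fun _ => (0 : ℝ)) := gn_congr (Lp.coeFn_zero ℝ 2 mu)
      rw [E.norm_def, h1]
      refine le_antisymm (gn_le fun i f _ => ?_) (gn_nonneg Good.zero)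
      unfold pr
      simp

noncomputable instance : NormedAddCommGroup E := NormedAddCommGroup.ofCore E.core

noncomputable instance : NormedSpace ℝ E := NormedSpace.ofCore E.core

instance : IsOrderedAddMonoid E where
  add_le_add_left x y h z := by
    rw [E.le_iff] at h ⊢
    rw [E.l2_add, E.l2_add]
    gcongr

instance : PosSMulMono ℝ E where
  smul_le_smul_of_nonneg_left c hc x y h := by
    rw [E.le_iff] at h ⊢
    rw [E.l2_smul, E.l2_smul]
    rw [← Lp.coeFn_le] at h ⊢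
    filter_upwards [h, Lp.coeFn_smul c x.l2, Lp.coeFn_smul c y.l2] with t h1 h2 h3
    rw [h2, h3, Pi.smul_apply, Pi.smul_apply]
    exact mul_le_mul_of_nonneg_left h1 hc

instance : HasSolidNorm E where
  solid x y h := by
    rw [E.le_iff, E.l2_abs, E.l2_abs, ← Lp.coeFn_le] at h
    rw [E.norm_def, E.norm_def]
    refine gn_mono y.good x.good.memLp ?_
    filter_upwards [h, Lp.coeFn_abs x.l2, Lp.coeFn_abs y.l2] with t h1 h2 h3
    rwa [h2, h3] at h1

/-- pairing and the Hilbert norm -/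
lemma pr_le_l2 {i : ℕ} {f : ℝ → ℝ} (hf : W i f) {z : ℝ → ℝ} (hz : MemLp z 2 mu) :
    pr f (fun t => |z t|) ≤ √(∫ t, f t ^ 2 ∂mu) * √(∫ t, z t ^ 2 ∂mu) := by
  have h2 := cs (hf.memLp 2) (memLp_abs hz) hf.nn (fun t => abs_nonneg (z t))
  simp only [sq_abs] at h2
  exact h2

/-- elements of the space from square integrable functions -/
def E.mk (y : Lp ℝ 2 mu) (h : y ∈ ES) : E := (⟨y, h⟩ : ES)

lemma E.l2_mk (y : Lp ℝ 2 mu) (h : y ∈ ES) : (E.mk y h).l2 = y := rfl

instance : CompleteSpace E := by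
  refine Metric.complete_of_cauchySeq_tendsto fun x hx => ?_
  have h1 : CauchySeq (fun n => (x n).l2) := by
    rw [Metric.cauchySeq_iff] at hx ⊢
    intro ε hε
    obtain ⟨N, hN⟩ := hx ε hε
    refine ⟨N, fun m hm n hn => ?_⟩
    refine lt_of_le_of_lt ?_ (hN m hm n hn)
    rw [dist_eq_norm, dist_eq_norm, ← E.l2_sub]
    exact E.l2_le _
  obtain ⟨y, hy⟩ := cauchySeq_tendsto_of_complete h1
  -- the estimate
  have key : ∀ ε : ℝ, 0 < ε → ∃ N, ∀ n, N ≤ n → ∀ i f, W i f → pr f (fun t => |(y - (x n).l2) t|) ≤ ε := by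
    intro ε hε
    obtain ⟨N, hN⟩ := Metric.cauchySeq_iff.1 hx ε hε
    refine ⟨N, fun n hn i f hf => ?_⟩
    have h2 : ∀ m, N ≤ m → pr f (fun t => |(y - (x n).l2) t|) ≤ √(∫ t, f t ^ 2 ∂mu) * ‖y - (x m).l2‖ + ε := by
      intro m hm
      have h3 := pr_add_le (Lp.memLp (y - (x m).l2)) (Lp.memLp (x m - x n).l2) hf
      have h4 : pr f (fun t => |(y - (x n).l2) t|) =
          pr f (fun t => |(y - (x m).l2) t + (x m - x n).l2 t|) := by
        refine pr_congr ?_
        rw [E.l2_sub]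
        filter_upwards [Lp.coeFn_sub y (x n).l2, Lp.coeFn_sub y (x m).l2, Lp.coeFn_sub (x m).l2 (x n).l2]
          with t e1 e2 e3
        rw [e1, e2, e3, Pi.sub_apply, Pi.sub_apply, Pi.sub_apply]
        congr 1
        ring
      have h5 := pr_le_l2 hf (Lp.memLp (y - (x m).l2))
      rw [norm_l2] at h5
      have h6 : pr f (fun t => |(x m - x n).l2 t|) ≤ ‖x m - x n‖ := (x m - x n).good.pr_le hf
      have h7 : ‖x m - x n‖ < ε := by
        rw [← dist_eq_norm]
        exact hN m hm n hn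
      linarith
    have h3 : Filter.Tendsto (fun m => √(∫ t, f t ^ 2 ∂mu) * ‖y - (x m).l2‖ + ε) Filter.atTop
        (nhds (√(∫ t, f t ^ 2 ∂mu) * ‖y - y‖ + ε)) :=
      (((tendsto_const_nhds.sub hy).norm).const_mul _).add_const _
    rw [sub_self, norm_zero, mul_zero, zero_add] at h3
    exact ge_of_tendsto h3 (Filter.eventually_atTop.2 ⟨N, h2⟩)
  -- the limit belongs to the space
  obtain ⟨N, hN⟩ := key 1 zero_lt_one
  have hgd : Good (y - (x N).l2 : Lp ℝ 2 mu) := ⟨Lp.memLp _, 1, hN N le_rfl⟩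
  have hgy : y ∈ ES := by
    have h2 : y = (y - (x N).l2) + (x N).l2 := by abel
    rw [h2]
    exact ES.add_mem hgd (x N).good
  refine ⟨E.mk y hgy, ?_⟩
  rw [Metric.tendsto_atTop]
  intro ε hε
  obtain ⟨N, hN⟩ := key (ε / 2) (by positivity)
  refine ⟨N, fun n hn => ?_⟩
  rw [dist_comm, dist_eq_norm]
  have h2 : ‖E.mk y hgy - x n‖ ≤ ε / 2 := gn_le (hN n hn)
  linarith

end Pool.Agent.Helper64.Tight
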