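import Mathlib
import Pool.Agent.Helper64.Tight.Space

/-!
# Basic operations on the Banach lattice
-/

open MeasureTheory
open scoped ENNReal symmDiff InnerProductSpace

namespace Pool.Agent.Helper64.Tight

/-- elements of the space from functions -/
noncomputable def E.of (g : ℝ → ℝ) (hg : Good g) : E :=
  E.mk (hg.memLp.toLp g) (hg.congr hg.memLp.coeFn_toLp.symm)

lemma E.coe_of (g : ℝ → ℝ) (hg : Good g) : (E.of g hg).l2 =ᵐ[mu] g := hg.memLp.coeFn_toLp

lemma E.norm_of (g : ℝ → ℝ) (hg : Good g) : ‖E.of g hg‖ = Tight.gn g := gn_congr (E.coe_of g hg)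

lemma E.ext_ae {x y : E} (h : x.l2 =ᵐ[mu] y.l2) : x = y := E.ext (Lp.ext h)

lemma E.norm_le_of {x : E} {g : ℝ → ℝ} (hg : Good g) (h : ∀ᵐ t ∂mu, |x.l2 t| ≤ |g t|) : ‖x‖ ≤ Tight.gn g :=
  gn_mono hg x.good.memLp h

lemma Good.ind {g : ℝ → ℝ} (hg : Good g) {A : Set ℝ} (hA : MeasurableSet A) : Good (A.indicator g) := by
  refine hg.of_le (hg.memLp.indicator hA) (Filter.Eventually.of_forall fun t => ?_)
  by_cases ht : t ∈ A
  · rw [Set.indicator_of_mem ht]
  · rw [Set.indicator_of_notMem ht, abs_zero]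
    exact abs_nonneg _

/-- restriction to a set -/
noncomputable def E.res (x : E) (A : Set ℝ) (hA : MeasurableSet A) : E :=
  E.of (A.indicator x.l2) (x.good.ind hA)

lemma E.coe_res (x : E) (A : Set ℝ) (hA : MeasurableSet A) : (x.res A hA).l2 =ᵐ[mu] A.indicator x.l2 :=
  E.coe_of _ _

lemma E.norm_res (x : E) (A : Set ℝ) (hA : MeasurableSet A) : ‖x.res A hA‖ = Tight.gn (A.indicator x.l2) :=
  E.norm_of _ _

/-- absolute continuity -/
lemma E.ac (x : E) {ε : ℝ} (hε : 0 < ε) :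
    ∃ δ : ℝ, 0 < δ ∧ ∀ A (hA : MeasurableSet A), mu.real A < δ → ‖x.res A hA‖ ≤ ε := by
  obtain ⟨δ, h1, h2⟩ := x.good.ac hε
  exact ⟨δ, h1, fun A hA h => by rw [E.norm_res]; exact h2 A hA h⟩

/-- restrictions to complementary parts -/
lemma E.res_add (x : E) (A B : Set ℝ) (hA : MeasurableSet A) (hB : MeasurableSet B) :
    x.res (A ∩ B) (hA.inter hB) + x.res (A \ B) (hA.diff hB) = x.res A hA := by
  refine E.ext_ae ?_
  rw [E.l2_add]
  filter_upwards [Lp.coeFn_add (x.res (A ∩ B) (hA.inter hB)).l2 (x.res (A \ B) (hA.diff hB)).l2,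
    x.coe_res (A ∩ B) (hA.inter hB), x.coe_res (A \ B) (hA.diff hB), x.coe_res A hA] with t h1 h2 h3 h4
  rw [h1, Pi.add_apply, h2, h3, h4]
  by_cases h5 : t ∈ A
  · by_cases h6 : t ∈ B
    · rw [Set.indicator_of_mem (show t ∈ A ∩ B from ⟨h5, h6⟩),
        Set.indicator_of_notMem (show t ∉ A \ B from fun h => h.2 h6), Set.indicator_of_mem h5, add_zero]
    · rw [Set.indicator_of_notMem (show t ∉ A ∩ B from fun h => h6 h.2),
        Set.indicator_of_mem (show t ∈ A \ B from ⟨h5, h6⟩), Set.indicator_of_mem h5, zero_add]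
  · rw [Set.indicator_of_notMem (show t ∉ A ∩ B from fun h => h5 h.1),
      Set.indicator_of_notMem (show t ∉ A \ B from fun h => h5 h.1), Set.indicator_of_notMem h5, add_zero]

/-- the inclusion into the Hilbert space -/
noncomputable def E.toL2 : E →L[ℝ] Lp ℝ 2 mu :=
  LinearMap.mkContinuous
    { toFun := E.l2
      map_add' := E.l2_add
      map_smul' := E.l2_smul } 1 (fun x => by rw [one_mul]; exact x.l2_le)

lemma E.toL2_apply (x : E) : E.toL2 x = x.l2 := rfl

lemma inner_eq {φ : ℝ → ℝ} (hφ : MemLp φ 2 mu) (z : Lp ℝ 2 mu) :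
    ⟪hφ.toLp φ, z⟫_ℝ = ∫ t, φ t * z t ∂mu := by
  rw [L2.inner_def]
  refine integral_congr_ae ?_
  filter_upwards [hφ.coeFn_toLp] with t ht
  rw [ht]
  simp [mul_comm]

/-- functionals given by square integrable functions -/
noncomputable def E.dual (g : Lp ℝ 2 mu) : E →L[ℝ] ℝ := (innerSL ℝ g).comp E.toL2

lemma E.dual_apply (g : Lp ℝ 2 mu) (x : E) : E.dual g x = ⟪g, x.l2⟫_ℝ := rfl

lemma E.dual_add (g g' : Lp ℝ 2 mu) : E.dual (g + g') = E.dual g + E.dual g' := by
  ext x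
  rw [ContinuousLinearMap.add_apply, E.dual_apply, E.dual_apply, E.dual_apply, inner_add_left]

lemma E.dual_smul (c : ℝ) (g : Lp ℝ 2 mu) : E.dual (c • g) = c • E.dual g := by
  ext x
  rw [ContinuousLinearMap.smul_apply, E.dual_apply, E.dual_apply, real_inner_smul_left, smul_eq_mul]

lemma E.dual_norm (g : Lp ℝ 2 mu) : ‖E.dual g‖ ≤ ‖g‖ := by
  refine ContinuousLinearMap.opNorm_le_bound _ (norm_nonneg _) fun x => ?_
  rw [E.dual_apply]
  exact (norm_inner_le_norm g x.l2).trans (mul_le_mul_of_nonneg_left x.l2_le (norm_nonneg _))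

/-- pairing with a function -/
noncomputable def E.pair (φ : ℝ → ℝ) (hφ : MemLp φ 2 mu) : E →L[ℝ] ℝ := E.dual (hφ.toLp φ)

lemma E.pair_apply (φ : ℝ → ℝ) (hφ : MemLp φ 2 mu) (x : E) : E.pair φ hφ x = ∫ t, φ t * x.l2 t ∂mu :=
  inner_eq hφ x.l2

lemma measurable_l2 (x : E) : Measurable (x.l2 : ℝ → ℝ) := (Lp.stronglyMeasurable x.l2).measurable

lemma measurableSet_le (x : E) (r : ℝ) : MeasurableSet {t | |x.l2 t| ≤ r} :=
  _root_.measurableSet_le (measurable_l2 x).abs measurable_const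

/-- large values live on small sets -/
lemma E.large (x : E) {δ : ℝ} (hδ : 0 < δ) : ∃ R : ℝ, 0 ≤ R ∧ mu.real {t | |x.l2 t| ≤ R}ᶜ < δ := by
  have hint : Integrable (fun t => x.l2 t ^ 2) mu := x.good.memLp.integrable_sq
  set I := ∫ t, x.l2 t ^ 2 ∂mu with hI
  have hI0 : 0 ≤ I := integral_nonneg fun t => sq_nonneg _
  refine ⟨I / δ + 1, by positivity, ?_⟩
  set R := I / δ + 1 with hR
  have hR1 : 1 ≤ R := by
    have : 0 ≤ I / δ := by positivity
    linarith
  have hm := (measurableSet_le x R).compl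
  have h1 : R ^ 2 * mu.real {t | |x.l2 t| ≤ R}ᶜ ≤ I := by
    have h2 : ∫ t, {t | |x.l2 t| ≤ R}ᶜ.indicator (fun _ => R ^ 2) t ∂mu ≤ I := by
      refine integral_mono ((integrable_const _).indicator hm) hint fun t => ?_
      dsimp only
      by_cases ht : t ∈ {t | |x.l2 t| ≤ R}ᶜ
      · rw [Set.indicator_of_mem ht, ← sq_abs (x.l2 t)]
        have h3 : R < |x.l2 t| := not_le.1 ht
        exact pow_le_pow_left₀ (by linarith) h3.le 2
      · rw [Set.indicator_of_notMem ht]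
        exact sq_nonneg _
    rw [integral_indicator hm, setIntegral_const, smul_eq_mul, mul_comm] at h2
    exact h2
  have h3 : I < R * δ := by
    rw [hR, add_mul, div_mul_cancel₀ _ hδ.ne']
    linarith
  by_contra hcon
  have h4 : R * δ ≤ R ^ 2 * mu.real {t | |x.l2 t| ≤ R}ᶜ := by
    have h5 := not_lt.1 hcon
    have h6 : R * δ ≤ R ^ 2 * δ := by
      refine mul_le_mul_of_nonneg_right ?_ hδ.le
      nlinarith
    exact h6.trans (mul_le_mul_of_nonneg_left h5 (by positivity))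
  linarith

end Pool.Agent.Helper64.Tight
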