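import Mathlib
import Pool.Agent.Helper64.Tight.Dep

/-!
# Passing to subsequences
-/

open MeasureTheory
open scoped ENNReal symmDiff

namespace Pool.Agent.Helper64.Tight

lemma tail_supp {u : ℕ → ℝ → ℝ} {c : ℕ → ℕ} (hc : StrictMono c)
    (h : ∀ n, mu.real {t | u n t ≠ 0} ≤ ((16 : ℝ) ^ (c n + 1))⁻¹) (n : ℕ) :
    mu.real {t | ∃ i, n ≤ i ∧ u i t ≠ 0} ≤ ((16 : ℝ) ^ (c n))⁻¹ := by
  have hset : {t | ∃ i, n ≤ i ∧ u i t ≠ 0} = ⋃ k, {t | u (n + k) t ≠ 0} := by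
    ext t
    rw [Set.mem_iUnion]
    constructor
    · rintro ⟨i, hi, ht⟩
      refine ⟨i - n, ?_⟩
      have : n + (i - n) = i := by omega
      show u (n + (i - n)) t ≠ 0
      rwa [this]
    · rintro ⟨k, hk⟩
      exact ⟨n + k, Nat.le_add_right _ _, hk⟩
  have hterm : ∀ k, mu {t | u (n + k) t ≠ 0} ≤ ENNReal.ofReal (((16 : ℝ) ^ (c n + 1))⁻¹) * (2⁻¹) ^ k := by
    intro k
    have h1 := h (n + k)
    have h2 : mu {t | u (n + k) t ≠ 0} ≤ ENNReal.ofReal (((16 : ℝ) ^ (c (n + k) + 1))⁻¹) := by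
      rw [← ENNReal.ofReal_toReal (measure_ne_top mu {t | u (n + k) t ≠ 0})]
      exact ENNReal.ofReal_le_ofReal h1
    refine h2.trans ?_
    have h3 : (2⁻¹ : ℝ≥0∞) ^ k = ENNReal.ofReal (((2 : ℝ) ^ k)⁻¹) := by
      rw [ENNReal.ofReal_inv_of_pos (by positivity), ENNReal.ofReal_pow (by norm_num), ENNReal.inv_pow]
      norm_num
    rw [h3, ← ENNReal.ofReal_mul (by positivity)]
    refine ENNReal.ofReal_le_ofReal ?_
    rw [← mul_inv]
    refine inv_anti₀ (by positivity) ?_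
    have h4 : c n + k ≤ c (n + k) := by
      clear h h1 h2 h3 hset
      induction k with
      | zero => simp
      | succ k ih =>
        have := hc (Nat.lt_succ_self (n + k))
        have h5 : n + (k + 1) = (n + k).succ := rfl
        rw [h5]
        omega
    calc (16 : ℝ) ^ (c n + 1) * 2 ^ k ≤ 16 ^ (c n + 1) * 16 ^ k :=
          mul_le_mul_of_nonneg_left (pow_le_pow_left₀ (by norm_num) (by norm_num) _) (by positivity)
      _ = 16 ^ (c n + 1 + k) := by rw [← pow_add]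
      _ ≤ 16 ^ (c (n + k) + 1) := pow_le_pow_right₀ (by norm_num) (by omega)
  have hsum : mu {t | ∃ i, n ≤ i ∧ u i t ≠ 0} ≤ ENNReal.ofReal (((16 : ℝ) ^ (c n + 1))⁻¹) * 2 := by
    rw [hset]
    refine (measure_iUnion_le _).trans ((ENNReal.tsum_le_tsum hterm).trans ?_)
    rw [ENNReal.tsum_mul_left, ENNReal.tsum_geometric]
    simp
  have h5 : mu.real {t | ∃ i, n ≤ i ∧ u i t ≠ 0} ≤ ((16 : ℝ) ^ (c n + 1))⁻¹ * 2 := by
    unfold Measure.real
    refine ENNReal.toReal_le_of_le_ofReal (by positivity) ?_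
    rw [ENNReal.ofReal_mul (by positivity)]
    refine hsum.trans (le_of_eq ?_)
    norm_num
  refine h5.trans ?_
  have h6 : ((16 : ℝ) ^ c n)⁻¹ = 16 * ((16 : ℝ) ^ (c n + 1))⁻¹ := by
    rw [pow_succ]
    field_simp
  rw [h6]
  have : 0 < ((16 : ℝ) ^ (c n + 1))⁻¹ := by positivity
  linarith

lemma TS.build {u : ℕ → ℝ → ℝ} {c : ℕ → ℕ} (hm : ∀ n, Measurable (u n)) (h0 : ∀ n t, 0 ≤ u n t)
    (hs : ∀ n, mu.real {t | u n t ≠ 0} ≤ ((16 : ℝ) ^ (c n + 1))⁻¹)
    (hb : ∀ n t, 2 ^ 12 * u n t ≤ 2 ^ (c (n + 1))) (hc : StrictMono c) (hc0 : 5 ≤ c 0) : TS u c :=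
  ⟨hm, h0, tail_supp hc hs, hb, hc, hc0⟩

lemma Bd.sum {u : ℕ → ℝ → ℝ} (hu : ∀ n, Bd (u n)) (F : Finset ℕ) {a : ℕ → ℝ} (ha : ∀ n, 0 ≤ a n) :
    Bd (fun t => ∑ n ∈ F, a n * u n t) := by
  choose B hB using fun k => (hu k).bdd
  exact ⟨Finset.measurable_sum _ fun k _ => (hu k).meas.const_mul _,
    fun t => Finset.sum_nonneg fun k _ => mul_nonneg (ha k) ((hu k).nonneg t),
    ⟨∑ k ∈ F, a k * B k, fun t => Finset.sum_le_sum fun k _ => mul_le_mul_of_nonneg_left (hB k t) (ha k)⟩⟩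

/-- there are no equivalent disjoint sequences of bounded functions -/
theorem no_pair {u v : ℕ → ℝ → ℝ} {K : ℝ} (hK : 1 ≤ K) (hu : ∀ n, Bd (u n)) (hv : ∀ n, Bd (v n))
    (hpos : ∀ n, 0 < nrm (u n))
    (hsu : Filter.Tendsto (fun n => mu.real {t | u n t ≠ 0}) Filter.atTop (nhds 0))
    (hsv : Filter.Tendsto (fun n => mu.real {t | v n t ≠ 0}) Filter.atTop (nhds 0))
    (hd : ∀ n m t, u n t = 0 ∨ v m t = 0) (hdu : ∀ n m, n ≠ m → ∀ t, u n t = 0 ∨ u m t = 0)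
    (h1 : ∀ (F : Finset ℕ) (a : ℕ → ℝ), (∀ n, 0 ≤ a n) →
      nrm (fun t => ∑ n ∈ F, a n * v n t) ≤ K * nrm (fun t => ∑ n ∈ F, a n * u n t))
    (h2 : ∀ (F : Finset ℕ) (a : ℕ → ℝ), (∀ n, 0 ≤ a n) →
      nrm (fun t => ∑ n ∈ F, a n * u n t) ≤ K * nrm (fun t => ∑ n ∈ F, a n * v n t)) : False := by
  classical
  -- indices of small supports
  have hnext : ∀ i c : ℕ, ∃ i', i < i' ∧ mu.real {t | u i' t ≠ 0} ≤ ((16 : ℝ) ^ (c + 1))⁻¹ ∧
      mu.real {t | v i' t ≠ 0} ≤ ((16 : ℝ) ^ (c + 1))⁻¹ := by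
    intro i c
    have h0 : (0 : ℝ) < ((16 : ℝ) ^ (c + 1))⁻¹ := by positivity
    obtain ⟨i', h3, h4, h5⟩ := ((Filter.eventually_gt_atTop i).and
      ((hsu.eventually (gt_mem_nhds h0)).and (hsv.eventually (gt_mem_nhds h0)))).exists
    exact ⟨i', h3, h4.le, h5.le⟩
  have hbound : ∀ i, ∃ β : ℕ, (∀ t, 2 ^ 12 * ((nrm (u i))⁻¹ * u i t) ≤ 2 ^ β) ∧
      ∀ t, 2 ^ 12 * ((nrm (u i))⁻¹ * v i t) ≤ 2 ^ β := by
    intro i
    obtain ⟨B, hB⟩ := (hu i).bdd
    obtain ⟨B', hB'⟩ := (hv i).bdd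
    have hp := hpos i
    obtain ⟨β, hβ⟩ := pow_unbounded_of_one_lt (2 ^ 12 * ((nrm (u i))⁻¹ * max B B')) (show (1 : ℝ) < 2 by norm_num)
    refine ⟨β, fun t => le_trans ?_ hβ.le, fun t => le_trans ?_ hβ.le⟩
    · exact mul_le_mul_of_nonneg_left (mul_le_mul_of_nonneg_left ((hB t).trans (le_max_left _ _)) (by positivity))
        (by norm_num)
    · exact mul_le_mul_of_nonneg_left (mul_le_mul_of_nonneg_left ((hB' t).trans (le_max_right _ _)) (by positivity))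
        (by norm_num)
  choose nx hnx1 hnx2 hnx3 using hnext
  choose β hβ1 hβ2 using hbound
  set St : ℕ → ℕ × ℕ := fun l => Nat.rec (nx 0 5, 5)
    (fun _ p => (nx p.1 (p.2 + β p.1 + 1), p.2 + β p.1 + 1)) l with hSt
  set ι : ℕ → ℕ := fun n => (St n).1 with hι
  set c : ℕ → ℕ := fun n => (St n).2 with hc
  have hι1 : ∀ n, ι (n + 1) = nx (ι n) (c n + β (ι n) + 1) := fun n => rfl
  have hc1 : ∀ n, c (n + 1) = c n + β (ι n) + 1 := fun n => rfl
  have hc0 : c 0 = 5 := rfl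
  have hsmall : ∀ n, mu.real {t | u (ι n) t ≠ 0} ≤ ((16 : ℝ) ^ (c n + 1))⁻¹ ∧
      mu.real {t | v (ι n) t ≠ 0} ≤ ((16 : ℝ) ^ (c n + 1))⁻¹ := by
    intro n
    cases n with
    | zero => exact ⟨hnx2 0 5, hnx3 0 5⟩
    | succ n =>
      rw [hι1, hc1]
      exact ⟨hnx2 _ _, hnx3 _ _⟩
  have hιm : StrictMono ι := strictMono_nat_of_lt_succ fun n => by
    rw [hι1]
    exact hnx1 _ _
  have hcm : StrictMono c := strictMono_nat_of_lt_succ fun n => by
    rw [hc1]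
    omega
  clear_value ι c
  -- normalised sequences
  set r : ℕ → ℝ := fun n => (nrm (u (ι n)))⁻¹ with hr
  have hr0 : ∀ n, 0 < r n := fun n => inv_pos.2 (hpos _)
  set u' : ℕ → ℝ → ℝ := fun n t => r n * u (ι n) t with hu'
  set v' : ℕ → ℝ → ℝ := fun n t => r n * v (ι n) t with hv'
  have hTu : TS u' c := by
    refine TS.build (fun n => (hu _).meas.const_mul _) (fun n t => mul_nonneg (hr0 n).le ((hu _).nonneg t))
      (fun n => ?_) (fun n t => ?_) hcm (by omega)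
    · refine le_trans (measureReal_mono fun t ht => ?_) (hsmall n).1
      intro h0
      apply ht
      show r n * u (ι n) t = 0
      rw [h0, mul_zero]
    · refine (hβ1 (ι n) t).trans (pow_le_pow_right₀ (by norm_num) ?_)
      rw [hc1]
      omega
  have hTv : TS v' c := by
    refine TS.build (fun n => (hv _).meas.const_mul _) (fun n t => mul_nonneg (hr0 n).le ((hv _).nonneg t))
      (fun n => ?_) (fun n t => ?_) hcm (by omega)
    · refine le_trans (measureReal_mono fun t ht => ?_) (hsmall n).2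
      intro h0
      apply ht
      show r n * v (ι n) t = 0
      rw [h0, mul_zero]
    · refine (hβ2 (ι n) t).trans (pow_le_pow_right₀ (by norm_num) ?_)
      rw [hc1]
      omega
  -- transfer of sums
  have htr : ∀ (x : ℕ → ℝ → ℝ) (a : ℕ →₀ ℝ), ∃ (F : Finset ℕ) (b : ℕ → ℝ), ((∀ n, 0 ≤ a n) → ∀ n, 0 ≤ b n) ∧
      F = a.support.image ι ∧ b = Function.extend ι (fun n => a n * r n) 0 ∧
      U (fun n t => r n * x (ι n) t) a = fun t => ∑ n ∈ F, b n * x n t := by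
    intro x a
    refine ⟨a.support.image ι, Function.extend ι (fun n => a n * r n) 0, fun ha n => ?_, rfl, rfl, ?_⟩
    · by_cases hn : ∃ m, ι m = n
      · obtain ⟨m, rfl⟩ := hn
        rw [hιm.injective.extend_apply]
        exact mul_nonneg (ha m) (hr0 m).le
      · rw [Function.extend_apply' _ _ _ hn]
        exact le_rfl
    · funext t
      rw [U_apply, Finset.sum_image hιm.injective.injOn]
      refine Finset.sum_congr rfl fun n _ => ?_
      rw [hιm.injective.extend_apply]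
      ring
  refine PR.false (u := u') (v := v') (c := c) (K := K) ⟨hTu, hTv, fun n m t => ?_, fun n m hnm t => ?_,
    fun n => ?_, fun a ha => ?_, fun a ha => ?_, hK⟩
  · rcases hd (ι n) (ι m) t with h | h
    · left
      show r n * u (ι n) t = 0
      rw [h, mul_zero]
    · right
      show r m * v (ι m) t = 0
      rw [h, mul_zero]
  · rcases hdu (ι n) (ι m) (fun h => hnm (hιm.injective h)) t with h | h
    · left
      show r n * u (ι n) t = 0
      rw [h, mul_zero]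
    · right
      show r m * u (ι m) t = 0
      rw [h, mul_zero]
  · show nrm (fun t => r n * u (ι n) t) = 1
    rw [nrm_smul (hu _) (hr0 n).le]
    exact inv_mul_cancel₀ (hpos _).ne'
  · obtain ⟨F, b, q1, q2, q3, q4⟩ := htr v a
    obtain ⟨F', b', q1', q2', q3', q4'⟩ := htr u a
    subst q2 q3 q2' q3'
    rw [hv', hu', q4, q4']
    exact h1 _ _ (q1 ha)
  · obtain ⟨F, b, q1, q2, q3, q4⟩ := htr v a
    obtain ⟨F', b', q1', q2', q3', q4'⟩ := htr u a
    subst q2 q3 q2' q3'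
    rw [hv', hu', q4, q4']
    exact h2 _ _ (q1 ha)

end Pool.Agent.Helper64.Tight
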