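import Mathlib
import Pool.Agent.Helper64.Tight.Sub

/-!
# Averages of sequences which are small in the Hilbert norm
-/

open MeasureTheory
open scoped ENNReal symmDiff

namespace Pool.Agent.Helper64.Tight

/-- total mass of the coefficients -/
noncomputable def tot : (ℕ →₀ ℝ) →ₗ[ℝ] ℝ := Finsupp.linearCombination ℝ (fun _ => (1 : ℝ))

lemma tot_single (n : ℕ) (r : ℝ) : tot (Finsupp.single n r) = r := by
  unfold tot
  rw [Finsupp.linearCombination_single, smul_eq_mul, mul_one]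

lemma tot_apply (a : ℕ →₀ ℝ) : tot a = ∑ n ∈ a.support, a n := by
  unfold tot
  rw [Finsupp.linearCombination_apply, Finsupp.sum]
  refine Finset.sum_congr rfl fun n _ => ?_
  rw [smul_eq_mul, mul_one]

lemma le_tot {a : ℕ →₀ ℝ} (ha : ∀ n, 0 ≤ a n) (n : ℕ) : a n ≤ tot a := by
  rw [tot_apply]
  by_cases hn : n ∈ a.support
  · exact Finset.single_le_sum (f := fun n => a n) (fun k _ => ha k) hn
  · rw [Finsupp.notMem_support_iff.1 hn]
    exact Finset.sum_nonneg fun k _ => ha k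

section
variable {Y : ℕ → ℝ → ℝ} {c : ℕ → ℕ} (h : TS Y c) (h1 : ∀ n, nrm (Y n) ≤ 1)
  (h2 : ∀ n, √(∫ t, Y n t ^ 2 ∂mu) ≤ ((2 : ℝ) ^ (n + 1))⁻¹)
include h h1 h2

lemma ces_step (s J : ℕ) : ∃ (e : ℕ) (a : ℕ →₀ ℝ), s < e ∧ Cf s e a ∧ tot a = 1 ∧ nrm (U Y a) ≤ 1 ∧
    (∀ i, 1 ≤ i → i < J → ∀ f, W i f → pr f (U Y a) ≤ 3 / mm i) ∧
    (∀ f, W 0 f → pr f (U Y a) ≤ ((2 : ℝ) ^ (s + 1))⁻¹) := by
  set N := mm J * nn J with hN
  have hN1 : 1 ≤ N := Nat.mul_pos (mm_pos J) (nn_pos J)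
  have hN0 : (0 : ℝ) < N := by exact_mod_cast hN1
  set a : ℕ →₀ ℝ := (N : ℝ)⁻¹ • ∑ q ∈ Finset.range N, Finsupp.single (s + q) (1 : ℝ) with ha
  have hc0 : ∀ k, ∀ n, 0 ≤ (Finsupp.single (s + k) (1 : ℝ)) n := by
    intro k n
    rw [Finsupp.single_apply]
    split_ifs <;> norm_num
  have hcf : ∀ k, Cf (s + k) (s + k + 1) (Finsupp.single (s + k) (1 : ℝ)) := by
    intro k
    refine ⟨hc0 k, fun n hn => ?_⟩
    have := Finsupp.support_single_subset hn
    rw [Finset.mem_singleton] at this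
    omega
  have hU : ∀ k, U Y (Finsupp.single (s + k) (1 : ℝ)) = Y (s + k) := by
    intro k
    rw [U_single]
    funext t
    rw [one_mul]
  have hpr : ∀ i f, W i f → pr f (U Y a) = (N : ℝ)⁻¹ * ∑ q ∈ Finset.range N, pr f (Y (s + q)) := by
    intro i f hf
    rw [ha, pr_U_sum h hf _ _ _ (fun k _ => hc0 k)]
    simp_rw [hU]
  refine ⟨s + N, a, by omega, ?_, ?_, ?_, ?_, ?_⟩
  · refine (Cf.sum fun q hq => ?_).smul (by positivity)
    exact (hcf q).mono (by omega) (by omega)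
  · rw [ha, map_smul, map_sum]
    simp_rw [tot_single]
    rw [Finset.sum_const, Finset.card_range, nsmul_eq_mul, smul_eq_mul, mul_one, inv_mul_cancel₀ hN0.ne']
  · refine nrm_le fun i f hf => ?_
    rw [hpr i f hf, inv_mul_le_iff₀ hN0, mul_one]
    calc ∑ q ∈ Finset.range N, pr f (Y (s + q)) ≤ ∑ q ∈ Finset.range N, (1 : ℝ) :=
          Finset.sum_le_sum fun q _ => ((h.bdu _).pr_le hf).trans (h1 _)
      _ = N := by simp
  · intro i hi hiJ f hf
    rw [hpr i f hf]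
    refine avg_low (c := fun q => c (s + q)) (d := fun q => c (s + q + 1)) ⟨fun q _ => ?_, ⟨fun q _ => ?_,
      fun q _ => le_rfl⟩, ?_, le_rfl⟩ hi (Nat.mul_le_mul (mm_mono hiJ.le) (nn_mono hiJ.le)) hf
    · rw [← hU q]
      refine h.vr (Nat.lt_succ_self _) (hcf q) (fun n => ?_) ?_
      · rw [Finsupp.single_apply]
        split_ifs <;> norm_num
      · rw [hU q]
        exact h1 _
    · exact h.mono (Nat.lt_succ_self _)
    · have := h.c_ge (s + 0)
      omega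
  · intro f hf
    rw [hpr 0 f hf, inv_mul_le_iff₀ hN0]
    calc ∑ q ∈ Finset.range N, pr f (Y (s + q)) ≤ ∑ q ∈ Finset.range N, ((2 : ℝ) ^ (s + 1))⁻¹ := by
          refine Finset.sum_le_sum fun q _ => ?_
          refine (pr_base_le hf (h.bdu _)).trans ((h2 _).trans ?_)
          exact inv_anti₀ (by positivity) (pow_le_pow_right₀ (by norm_num) (by omega))
      _ = N * ((2 : ℝ) ^ (s + 1))⁻¹ := by
        rw [Finset.sum_const, Finset.card_range, nsmul_eq_mul]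

/-- averages are small -/
theorem cesaro (b : ℕ) (hb : 1 ≤ b) : ∃ a : ℕ →₀ ℝ, (∀ n, 0 ≤ a n) ∧ tot a = 1 ∧ nrm (U Y a) ≤ 9 / mm b := by
  choose e a g1 g2 g3 g4 g5 g6 using ces_step h h1 h2
  set St : ℕ → ℕ × ℕ := fun l => Nat.rec (0, b + 1)
    (fun l p => (e p.1 p.2, p.2 + l + c (e p.1 p.2) + 2)) l with hSt
  have hSt1 : ∀ l, (St (l + 1)).1 = e (St l).1 (St l).2 := fun l => rfl
  have hSt2 : ∀ l, (St (l + 1)).2 = (St l).2 + l + c (e (St l).1 (St l).2) + 2 := fun l => rfl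
  set S : ℕ → ℕ := fun l => (St l).1 with hS
  set J : ℕ → ℕ := fun l => (St l).2 with hJ
  set a' : ℕ → ℕ →₀ ℝ := fun l => a (S l) (J l) with ha'
  have hS1 : ∀ l, S (l + 1) = e (S l) (J l) := hSt1
  have hJ1 : ∀ l, J (l + 1) = J l + l + c (S (l + 1)) + 2 := hSt2
  have q1 : ∀ l, S l < S (l + 1) := fun l => by rw [hS1]; exact g1 _ _
  have q2 : ∀ l, Cf (S l) (S (l + 1)) (a' l) := fun l => by rw [hS1]; exact g2 _ _
  have q3 : ∀ l, tot (a' l) = 1 := fun l => g3 _ _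
  have q4 : ∀ l, nrm (U Y (a' l)) ≤ 1 := fun l => g4 _ _
  have q5 : ∀ l, ∀ i, 1 ≤ i → i < J l → ∀ f, W i f → pr f (U Y (a' l)) ≤ 3 / mm i := fun l => g5 _ _
  have q6 : ∀ l, ∀ f, W 0 f → pr f (U Y (a' l)) ≤ ((2 : ℝ) ^ (S l + 1))⁻¹ := fun l => g6 _ _
  clear_value S J a'
  clear hS hJ ha' hSt1 hSt2 hSt St g1 g2 g3 g4 g5 g6 hS1
  have hSm : StrictMono S := strictMono_nat_of_lt_succ q1
  have hSge : ∀ l, l ≤ S l := fun l => hSm.le_apply
  set N := nn b with hN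
  have hN1 : 1 ≤ N := nn_pos b
  have hN0 : (0 : ℝ) < N := by exact_mod_cast hN1
  have hmb := mm_real_pos b
  have hbl : Blocks N (fun l => U Y (a' l)) (fun l => c (S l)) (fun l => c (S (l + 1))) 3 := by
    refine ⟨fun l _ => ?_, ⟨fun l _ => h.mono (q1 l), fun l _ => le_rfl⟩, ?_, by norm_num⟩
    · refine h.vr (q1 l) (q2 l) (fun n => ?_) ((q4 l).trans (by norm_num))
      refine (le_tot (q2 l).nonneg n).trans ?_
      rw [q3]
      norm_num
    · have := h.c_ge (S 0)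
      omega
  have hris : RIS N (fun l => U Y (a' l)) (fun l => c (S l)) (fun l => c (S (l + 1))) 3 J := by
    refine ⟨hbl, fun k _ i hi hij f hf => q5 k i hi hij f hf, fun k _ => ?_, fun k _ => ?_, ?_⟩
    · rw [hJ1]; omega
    · rw [hJ1]
      refine le_trans ?_ (two_pow_le_mm _)
      have e1 : c (S (k + 1)) + 1 ≤ 2 ^ (c (S (k + 1))) := succ_two_pow _
      calc 2 ^ (k + 1) * (c (S (k + 1)) + 1) ≤ 2 ^ (k + 1) * 2 ^ (c (S (k + 1))) := Nat.mul_le_mul_left _ e1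
        _ = 2 ^ (k + 1 + c (S (k + 1))) := by rw [← pow_add]
        _ ≤ 2 ^ (J k + k + c (S (k + 1)) + 2 + 1) := Nat.pow_le_pow_right (by norm_num) (by omega)
    · intro f hf I hI
      have e1 : ∑ k ∈ I, pr f (U Y (a' k)) ≤ ∑ k ∈ I, ((2 : ℝ) ^ (k + 1))⁻¹ := by
        refine Finset.sum_le_sum fun k _ => (q6 k f hf).trans ?_
        exact inv_anti₀ (by positivity) (pow_le_pow_right₀ (by norm_num) (by have := hSge k; omega))
      have e2 := sum_half_pow I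
      have e3 := Real.sqrt_nonneg (I.card : ℝ)
      linarith
  refine ⟨(N : ℝ)⁻¹ • ∑ l ∈ Finset.range N, a' l, fun n => ?_, ?_, nrm_le fun i f hf => ?_⟩
  · rw [Finsupp.smul_apply, Finsupp.finsetSum_apply, smul_eq_mul]
    exact mul_nonneg (by positivity) (Finset.sum_nonneg fun k _ => (q2 k).nonneg n)
  · rw [map_smul, map_sum]
    simp_rw [q3]
    rw [Finset.sum_const, Finset.card_range, nsmul_eq_mul, smul_eq_mul, mul_one, inv_mul_cancel₀ hN0.ne']
  · rw [pr_U_sum h hf _ _ _ (fun k _ => (q2 k).nonneg)]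
    have h5 := typed_all hb hris hf
    rw [le_div_iff₀ hmb]
    calc ((N : ℝ)⁻¹ * ∑ k ∈ Finset.range N, pr f (U Y (a' k))) * mm b
        = (mm b / N : ℝ) * ∑ k ∈ Finset.range N, pr f (U Y (a' k)) := by
          ring
      _ ≤ 3 * 3 := h5
      _ = 9 := by norm_num

end

end Pool.Agent.Helper64.Tight
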