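import Mathlib
import Pool.Agent.Helper64.Tight.Api

/-!
# Splitting an element into two halves
-/

open MeasureTheory
open scoped ENNReal symmDiff

namespace Pool.Agent.Helper64.Tight

lemma mu_real_Ioc_le {a b : ℝ} (h : a ≤ b) : mu.real (Set.Ioc a b) ≤ b - a := by
  unfold Measure.real mu
  have h1 : (volume.restrict (Set.Icc (0 : ℝ) 1)) (Set.Ioc a b) ≤ volume (Set.Ioc a b) :=
    Measure.restrict_apply_le _ _
  rw [Real.volume_Ioc] at h1
  exact ENNReal.toReal_le_of_le_ofReal (by linarith) h1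

lemma mu_Iic_zero : mu.real (Set.Iic (0 : ℝ)) = 0 := by
  unfold Measure.real mu
  rw [Measure.restrict_apply measurableSet_Iic]
  have : Set.Iic (0 : ℝ) ∩ Set.Icc 0 1 = {0} := by
    ext t
    simp only [Set.mem_inter_iff, Set.mem_Iic, Set.mem_Icc, Set.mem_singleton_iff]
    constructor
    · rintro ⟨h1, h2, _⟩
      linarith
    · rintro rfl
      norm_num
  rw [this, Real.volume_singleton]
  rfl

lemma mu_Ioi_one : mu.real (Set.univ \ Set.Iic (1 : ℝ)) = 0 := by
  unfold Measure.real mu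
  rw [Measure.restrict_apply (MeasurableSet.univ.diff measurableSet_Iic)]
  have : (Set.univ \ Set.Iic (1 : ℝ)) ∩ Set.Icc 0 1 = ∅ := by
    ext t
    simp only [Set.mem_inter_iff, Set.mem_sdiff, Set.mem_univ, true_and, Set.mem_Iic, Set.mem_Icc,
      Set.mem_empty_iff_false, iff_false, not_and, not_le]
    intro h1 _
    exact h1
  rw [this, measure_empty]
  rfl

lemma E.res_univ (x : E) : x.res Set.univ MeasurableSet.univ = x := by
  refine E.ext_ae ?_
  filter_upwards [x.coe_res Set.univ MeasurableSet.univ] with t ht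
  rw [ht, Set.indicator_univ]

lemma E.res_congr (x : E) {A B : Set ℝ} (hA : MeasurableSet A) (hB : MeasurableSet B) (h : A = B) :
    x.res A hA = x.res B hB := by
  subst h
  rfl

/-- splitting -/
theorem half (x : E) (Θ : E →L[ℝ] ℝ) (hx : Θ x = 1) : ∃ (B B' : Set ℝ) (hB : MeasurableSet B)
    (hB' : MeasurableSet B') (R : ℝ), 0 ≤ R ∧ Disjoint B B' ∧ (∀ t ∈ B, |x.l2 t| ≤ R) ∧ (∀ t ∈ B', |x.l2 t| ≤ R) ∧
      1 / 4 ≤ Θ (x.res B hB) ∧ 1 / 4 ≤ Θ (x.res B' hB') := by
  have small : ∀ ε : ℝ, 0 < ε → ∃ δ : ℝ, 0 < δ ∧ ∀ A (hA : MeasurableSet A), mu.real A < δ →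
      |Θ (x.res A hA)| ≤ ε := by
    intro ε hε
    have hn := norm_nonneg Θ
    obtain ⟨δ, h1, h2⟩ := x.ac (show 0 < ε / (‖Θ‖ + 1) by positivity)
    refine ⟨δ, h1, fun A hA h => ?_⟩
    have h3 := h2 A hA h
    have h4 := Θ.le_opNorm (x.res A hA)
    rw [Real.norm_eq_abs] at h4
    refine h4.trans ?_
    calc ‖Θ‖ * ‖x.res A hA‖ ≤ (‖Θ‖ + 1) * (ε / (‖Θ‖ + 1)) :=
          mul_le_mul (by linarith) h3 (norm_nonneg _) (by positivity)
      _ = ε := by field_simp
  have null : ∀ A (hA : MeasurableSet A), mu.real A = 0 → Θ (x.res A hA) = 0 := by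
    intro A hA h
    have h1 : |Θ (x.res A hA)| ≤ 0 := by
      refine le_of_forall_pos_le_add fun ε hε => ?_
      obtain ⟨δ, h1, h2⟩ := small ε hε
      rw [zero_add]
      exact h2 A hA (by rw [h]; exact h1)
    exact abs_nonpos_iff.1 h1
  set ψ : ℝ → ℝ := fun τ => Θ (x.res (Set.Iic τ) measurableSet_Iic) with hψ
  have hinc : ∀ a b : ℝ, a ≤ b → ψ b = ψ a + Θ (x.res (Set.Ioc a b) measurableSet_Ioc) := by
    intro a b hab
    have h1 := x.res_add (Set.Iic b) (Set.Iic a) measurableSet_Iic measurableSet_Iic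
    rw [x.res_congr (measurableSet_Iic.inter measurableSet_Iic) (measurableSet_Iic (a := a))
      (by rw [Set.inter_comm]; exact Set.inter_eq_left.2 (Set.Iic_subset_Iic.2 hab)),
      x.res_congr (measurableSet_Iic.diff measurableSet_Iic) (measurableSet_Ioc (a := a) (b := b))
      (by ext t; simp [and_comm])] at h1
    rw [hψ]
    dsimp only
    rw [← h1, map_add]
  have hcont : Continuous ψ := by
    rw [Metric.continuous_iff]
    intro a ε hε
    obtain ⟨δ, h1, h2⟩ := small (ε / 2) (by positivity)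
    refine ⟨δ, h1, fun b hb => ?_⟩
    rw [Real.dist_eq] at hb ⊢
    rcases le_total a b with hab | hab
    · have h3 := h2 (Set.Ioc a b) measurableSet_Ioc
        ((mu_real_Ioc_le hab).trans_lt (by rwa [abs_of_nonneg (by linarith)] at hb))
      rw [hinc a b hab, add_sub_cancel_left]
      linarith
    · have h3 := h2 (Set.Ioc b a) measurableSet_Ioc
        ((mu_real_Ioc_le hab).trans_lt (by rw [abs_of_nonpos (by linarith)] at hb; linarith))
      rw [hinc b a hab, sub_add_cancel_left, abs_neg]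
      linarith
  have h0 : ψ 0 = 0 := null _ _ mu_Iic_zero
  have hcompl : ∀ τ, Θ (x.res (Set.univ \ Set.Iic τ) (MeasurableSet.univ.diff measurableSet_Iic)) = 1 - ψ τ := by
    intro τ
    have h1 := x.res_add Set.univ (Set.Iic τ) MeasurableSet.univ measurableSet_Iic
    rw [x.res_univ, x.res_congr (MeasurableSet.univ.inter measurableSet_Iic) (measurableSet_Iic (a := τ))
      (Set.univ_inter _)] at h1
    have h2 := congrArg Θ h1
    rw [map_add, hx] at h2
    rw [hψ]
    dsimp only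
    linarith
  have h1 : ψ 1 = 1 := by
    have h2 := hcompl 1
    rw [null _ _ mu_Ioi_one] at h2
    linarith
  have hivt := intermediate_value_Icc (zero_le_one (α := ℝ)) hcont.continuousOn
  obtain ⟨τ, _, hτ⟩ := hivt (show (1 / 2 : ℝ) ∈ Set.Icc (ψ 0) (ψ 1) by
    rw [h0, h1]
    constructor <;> norm_num)
  obtain ⟨δ, hδ, hsm⟩ := small (1 / 4) (by norm_num)
  obtain ⟨R, hR0, hR⟩ := x.large hδ
  have hC := measurableSet_le x R
  have part : ∀ A (hA : MeasurableSet A), Θ (x.res A hA) = 1 / 2 →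
      1 / 4 ≤ Θ (x.res (A ∩ {t | |x.l2 t| ≤ R}) (hA.inter hC)) := by
    intro A hA hAh
    have h2 := congrArg Θ (x.res_add A {t | |x.l2 t| ≤ R} hA hC)
    rw [map_add, hAh] at h2
    have h3 := hsm (A \ {t | |x.l2 t| ≤ R}) (hA.diff hC)
      ((measureReal_mono (fun t ht => ht.2)).trans_lt hR)
    have h4 := le_abs_self (Θ (x.res (A \ {t | |x.l2 t| ≤ R}) (hA.diff hC)))
    linarith
  refine ⟨Set.Iic τ ∩ {t | |x.l2 t| ≤ R}, (Set.univ \ Set.Iic τ) ∩ {t | |x.l2 t| ≤ R},
    measurableSet_Iic.inter hC, (MeasurableSet.univ.diff measurableSet_Iic).inter hC, R, hR0, ?_,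
    fun t ht => ht.2, fun t ht => ht.2, part _ _ hτ,
    part (Set.univ \ Set.Iic τ) (MeasurableSet.univ.diff measurableSet_Iic) (by rw [hcompl, hτ]; norm_num)⟩
  rw [Set.disjoint_left]
  rintro t ⟨h2, _⟩ ⟨⟨_, h3⟩, _⟩
  exact h3 h2

end Pool.Agent.Helper64.Tight
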