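import Mathlib
import Pool.Agent.Helper64.Tight.Api
import Pool.Agent.Helper64.Tight.Sub

/-!
# Choice of signs and the diagonal inequality
-/

open MeasureTheory
open scoped ENNReal symmDiff InnerProductSpace

namespace Pool.Agent.Helper64.Tight

/-- choice of signs -/
lemma signs (F : Finset ℕ) (B : ℕ → ℕ → ℝ) : ∃ ε : ℕ → ℝ, (∀ n, ε n = 1 ∨ ε n = -1) ∧
    ∑ n ∈ F, B n n ≤ ∑ m ∈ F, ∑ n ∈ F, ε m * ε n * B m n := by
  classical
  induction F using Finset.induction_on with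
  | empty => exact ⟨fun _ => 1, fun _ => Or.inl rfl, by simp⟩
  | insert a F ha ih =>
    obtain ⟨ε, hε, h⟩ := ih
    set S := ∑ n ∈ F, (ε n * B a n + ε n * B n a) with hS
    obtain ⟨s, hs, hsS⟩ : ∃ s : ℝ, (s = 1 ∨ s = -1) ∧ 0 ≤ s * S := by
      rcases le_total 0 S with h | h
      · exact ⟨1, Or.inl rfl, by linarith⟩
      · exact ⟨-1, Or.inr rfl, by linarith⟩
    have hss : s * s = 1 := by rcases hs with h | h <;> rw [h] <;> norm_num
    set ε' : ℕ → ℝ := Function.update ε a s with hε'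
    have ea : ε' a = s := Function.update_self a s ε
    have en : ∀ n ∈ F, ε' n = ε n := by
      intro n hn
      have hna : n ≠ a := by
        rintro rfl
        exact ha hn
      exact Function.update_of_ne hna s ε
    refine ⟨ε', fun n => ?_, ?_⟩
    · by_cases hn : n = a
      · rw [hn, ea]
        exact hs
      · rw [hε', Function.update_of_ne hn]
        exact hε n
    · have e1 : ∑ m ∈ insert a F, ∑ n ∈ insert a F, ε' m * ε' n * B m n =
          s * s * B a a + s * S + ∑ m ∈ F, ∑ n ∈ F, ε m * ε n * B m n := by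
        simp_rw [Finset.sum_insert ha]
        rw [Finset.sum_add_distrib, ea]
        have e2 : ∑ n ∈ F, s * ε' n * B a n = s * ∑ n ∈ F, ε n * B a n := by
          rw [Finset.mul_sum]
          refine Finset.sum_congr rfl fun n hn => ?_
          rw [en n hn]
          ring
        have e3 : ∑ m ∈ F, ε' m * s * B m a = s * ∑ n ∈ F, ε n * B n a := by
          rw [Finset.mul_sum]
          refine Finset.sum_congr rfl fun n hn => ?_
          rw [en n hn]
          ring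
        have e4 : ∑ m ∈ F, ∑ n ∈ F, ε' m * ε' n * B m n = ∑ m ∈ F, ∑ n ∈ F, ε m * ε n * B m n := by
          refine Finset.sum_congr rfl fun m hm => Finset.sum_congr rfl fun n hn => ?_
          rw [en n hn, en m hm]
        rw [e2, e3, e4, hS, Finset.sum_add_distrib]
        ring
      rw [e1, Finset.sum_insert ha, hss]
      linarith

/-- the sign -/
noncomputable def sg (z : ℝ) : ℝ := z / |z|

lemma sg_mul_self (z : ℝ) : sg z * z = |z| := by
  unfold sg
  rcases eq_or_ne z 0 with h | h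
  · rw [h]; simp
  · have : |z| ≠ 0 := abs_ne_zero.2 h
    rw [div_mul_eq_mul_div, ← abs_mul_abs_self z]
    field_simp

lemma abs_sg_le (z : ℝ) : |sg z| ≤ 1 := by
  unfold sg
  rw [abs_div, abs_abs]
  exact div_self_le_one _

lemma sg_zero : sg 0 = 0 := by simp [sg]

lemma abs_sum_sg_le {G : ℕ → ℝ} (hd : ∀ n m, n ≠ m → G n = 0 ∨ G m = 0) (F : Finset ℕ) {ε : ℕ → ℝ}
    (hε : ∀ n, ε n = 1 ∨ ε n = -1) : |∑ m ∈ F, ε m * sg (G m)| ≤ 1 := by
  by_cases h : ∃ m ∈ F, G m ≠ 0
  · obtain ⟨m, hm, hne⟩ := h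
    rw [Finset.sum_eq_single_of_mem m hm]
    · rw [abs_mul]
      have h1 : |ε m| = 1 := by rcases hε m with h | h <;> rw [h] <;> simp
      rw [h1, one_mul]
      exact abs_sg_le _
    · intro n _ hn
      rcases hd n m hn with h | h
      · rw [h, sg_zero, mul_zero]
      · exact absurd h hne
  · push Not at h
    rw [Finset.sum_eq_zero, abs_zero]
    · exact zero_le_one
    · intro m hm
      rw [h m hm, sg_zero, mul_zero]

lemma memLp_sg {i : ℕ} {f : ℝ → ℝ} (hf : W i f) {g : ℝ → ℝ} (hg : Measurable g) :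
    MemLp (fun t => f t * sg (g t)) 2 mu := by
  refine (hf.memLp 2).mono ?_ (Filter.Eventually.of_forall fun t => ?_)
  · exact (hf.meas.mul (hg.div hg.abs)).aestronglyMeasurable
  · rw [norm_mul]
    have h1 : ‖sg (g t)‖ ≤ 1 := abs_sg_le _
    have h2 : 0 ≤ ‖f t‖ := norm_nonneg _
    nlinarith

lemma ae_sum_le (y : ℕ → E) (u : ℕ → ℝ → ℝ) (hy : ∀ n, ∀ᵐ t ∂mu, |(y n).l2 t| ≤ u n t) (b : ℕ → ℝ)
    (F : Finset ℕ) : ∀ᵐ t ∂mu, |(∑ n ∈ F, b n • y n).l2 t| ≤ ∑ n ∈ F, |b n| * u n t := by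
  classical
  induction F using Finset.induction_on with
  | empty =>
    rw [Finset.sum_empty]
    filter_upwards [Lp.coeFn_zero ℝ 2 mu] with t ht
    rw [E.l2_zero, ht]
    simp
  | insert a F ha ih =>
    rw [Finset.sum_insert ha, E.l2_add, E.l2_smul]
    filter_upwards [ih, hy a, Lp.coeFn_add (b a • (y a).l2) (∑ n ∈ F, b n • y n).l2,
      Lp.coeFn_smul (b a) (y a).l2] with t h1 h2 h3 h4
    rw [h3, Pi.add_apply, h4, Pi.smul_apply, smul_eq_mul, Finset.sum_insert ha]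
    refine (abs_add_le _ _).trans (add_le_add ?_ h1)
    rw [abs_mul]
    exact mul_le_mul_of_nonneg_left h2 (abs_nonneg _)

/-- the diagonal inequality -/
theorem key_ineq (G : ℕ → ℝ → ℝ) (hGm : ∀ n, Measurable (G n))
    (hGd : ∀ n m, n ≠ m → ∀ t, G n t = 0 ∨ G m t = 0) (P : E →L[ℝ] E) (ℓ : ℕ → E →L[ℝ] ℝ)
    (hspan : ∀ (z : E) (m : ℕ) (i : ℕ) (f : ℝ → ℝ) (hf : W i f),
      E.pair (fun t => f t * sg (G m t)) (memLp_sg hf (hGm m)) (P z) = ℓ m (P z) * pr f (fun t => |G m t|))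
    (y : ℕ → E) (u : ℕ → ℝ → ℝ) (hu : ∀ n, Bd (u n)) (hy : ∀ n, ∀ᵐ t ∂mu, |(y n).l2 t| ≤ u n t)
    (hθ : ∀ n, 1 / 4 ≤ ℓ n (P (y n))) (F : Finset ℕ) (a : ℕ → ℝ) (ha : ∀ n, 0 ≤ a n) {i : ℕ} {f : ℝ → ℝ}
    (hf : W i f) :
    ∑ n ∈ F, a n * pr f (fun t => |G n t|) ≤ 4 * ‖P‖ * nrm (fun t => ∑ n ∈ F, a n * u n t) := by
  set π : ℕ → E →L[ℝ] ℝ := fun m => E.pair (fun t => f t * sg (G m t)) (memLp_sg hf (hGm m)) with hπ
  obtain ⟨ε, hε, h1⟩ := signs F (fun m n => π m (P (a n • y n)))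
  have hpos : ∀ n, 0 ≤ pr f (fun t => |G n t|) := fun n => pr_nonneg hf.nn fun t => abs_nonneg _
  -- the diagonal
  have h2 : 1 / 4 * ∑ n ∈ F, a n * pr f (fun t => |G n t|) ≤ ∑ n ∈ F, π n (P (a n • y n)) := by
    rw [Finset.mul_sum]
    refine Finset.sum_le_sum fun n _ => ?_
    have e1 : π n (P (a n • y n)) = ℓ n (P (a n • y n)) * pr f (fun t => |G n t|) := hspan _ n i f hf
    rw [e1, map_smul, map_smul, smul_eq_mul]
    have e2 := hθ n
    have e3 : 0 ≤ a n * pr f (fun t => |G n t|) := mul_nonneg (ha n) (hpos n)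
    nlinarith
  -- the full sum
  set w : E := ∑ n ∈ F, (ε n * a n) • y n with hw
  have h3 : ∑ m ∈ F, ∑ n ∈ F, ε m * ε n * π m (P (a n • y n)) = ∑ m ∈ F, ε m * π m (P w) := by
    refine Finset.sum_congr rfl fun m _ => ?_
    rw [hw, map_sum, map_sum, Finset.mul_sum]
    refine Finset.sum_congr rfl fun n _ => ?_
    simp only [map_smul, smul_eq_mul]
    ring
  have h4 : ∑ m ∈ F, ε m * π m (P w) ≤ ‖P w‖ := by
    have hz := (P w).good
    have hint : ∀ m ∈ F, Integrable (fun t => ε m * (f t * sg (G m t) * (P w).l2 t)) mu := fun m _ =>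
      ((memLp_sg hf (hGm m)).integrable_mul hz.memLp).const_mul _
    have e1 : ∑ m ∈ F, ε m * π m (P w) = ∫ t, ∑ m ∈ F, ε m * (f t * sg (G m t) * (P w).l2 t) ∂mu := by
      rw [integral_finsetSum _ hint]
      refine Finset.sum_congr rfl fun m _ => ?_
      rw [integral_const_mul, hπ]
      dsimp only
      rw [E.pair_apply]
    rw [e1]
    refine le_trans ?_ (hz.pr_le hf)
    refine integral_mono (integrable_finsetSum _ hint) (int_mul hf (memLp_abs hz.memLp)) fun t => ?_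
    have e2 : ∑ m ∈ F, ε m * (f t * sg (G m t) * (P w).l2 t) =
        f t * ((∑ m ∈ F, ε m * sg (G m t)) * (P w).l2 t) := by
      rw [Finset.sum_mul, Finset.mul_sum]
      refine Finset.sum_congr rfl fun m _ => ?_
      ring
    dsimp only
    rw [e2]
    refine mul_le_mul_of_nonneg_left ?_ (hf.nn t)
    refine (le_abs_self _).trans ?_
    rw [abs_mul]
    have e3 := abs_sum_sg_le (G := fun m => G m t) (fun n m hnm => hGd n m hnm t) F hε
    have e4 := abs_nonneg ((P w).l2 t)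
    nlinarith
  have h5 : ‖w‖ ≤ nrm (fun t => ∑ n ∈ F, a n * u n t) := by
    have hB := Bd.sum hu F ha
    rw [← hB.gn]
    refine E.norm_le_of hB.good ?_
    filter_upwards [ae_sum_le y u hy (fun n => ε n * a n) F] with t ht
    refine ht.trans ((le_of_eq ?_).trans (le_abs_self _))
    refine Finset.sum_congr rfl fun n _ => ?_
    rw [abs_mul, abs_of_nonneg (ha n)]
    have h1 : |ε n| = 1 := by rcases hε n with h | h <;> rw [h] <;> simp
    rw [h1, one_mul]
  have h6 : ‖P w‖ ≤ ‖P‖ * nrm (fun t => ∑ n ∈ F, a n * u n t) :=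
    (P.le_opNorm w).trans (mul_le_mul_of_nonneg_left h5 (norm_nonneg _))
  have h7 : 1 / 4 * ∑ n ∈ F, a n * pr f (fun t => |G n t|) ≤ ‖P‖ * nrm (fun t => ∑ n ∈ F, a n * u n t) := by
    refine h2.trans (h1.trans ?_)
    rw [h3]
    exact h4.trans h6
  linarith

end Pool.Agent.Helper64.Tight
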