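import Mathlib
import Pool.Agent.Helper64.Tight.Half
import Pool.Agent.Helper64.Tight.Sgn
import Pool.Agent.Helper64.Tight.Ces

/-!
# Density of the square integrable functions in the dual
-/

open MeasureTheory
open scoped ENNReal symmDiff InnerProductSpace

namespace Pool.Agent.Helper64.Tight

lemma int_sq_l2 (x : E) : ∫ t, x.l2 t ^ 2 ∂mu = ‖x.l2‖ ^ 2 := by
  rw [← norm_l2, Real.sq_sqrt (integral_nonneg fun t => sq_nonneg _)]

lemma cheb (x : E) {r : ℝ} (hr : 0 ≤ r) : r ^ 2 * mu.real {t | |x.l2 t| ≤ r}ᶜ ≤ ‖x.l2‖ ^ 2 := by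
  have hm := (measurableSet_le x r).compl
  have h2 : ∫ t, {t | |x.l2 t| ≤ r}ᶜ.indicator (fun _ => r ^ 2) t ∂mu ≤ ∫ t, x.l2 t ^ 2 ∂mu := by
    refine integral_mono ((integrable_const _).indicator hm) x.good.memLp.integrable_sq fun t => ?_
    dsimp only
    by_cases ht : t ∈ {t | |x.l2 t| ≤ r}ᶜ
    · rw [Set.indicator_of_mem ht, ← sq_abs (x.l2 t)]
      have h3 : r < |x.l2 t| := not_le.1 ht
      exact pow_le_pow_left₀ hr h3.le 2
    · rw [Set.indicator_of_notMem ht]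
      exact sq_nonneg _
  rw [integral_indicator hm, setIntegral_const, smul_eq_mul, mul_comm, int_sq_l2] at h2
  exact h2

lemma trunc_step (F : E →L[ℝ] ℝ) {ε : ℝ} (hε : 0 < ε)
    (hno : ∀ n : ℕ, ∃ x : E, (n : ℝ) * ‖x.l2‖ + ε * ‖x‖ < F x) (c : ℕ) :
    ∃ (Y : ℝ → ℝ) (y : E) (β : ℕ), Bd Y ∧ mu.real {t | Y t ≠ 0} ≤ ((16 : ℝ) ^ c)⁻¹ ∧ nrm Y ≤ 1 ∧
      √(∫ t, Y t ^ 2 ∂mu) ≤ ((2 : ℝ) ^ c)⁻¹ ∧ (∀ t, Y t ≤ 2 ^ β) ∧ (∀ᵐ t ∂mu, |y.l2 t| ≤ Y t) ∧
      ε / 2 ≤ F y := by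
  set M := ‖F‖ with hM
  have hM0 : 0 ≤ M := norm_nonneg _
  obtain ⟨r, hr⟩ : ∃ r : ℝ, r = ε / (8 * (M + 1)) := ⟨_, rfl⟩
  have hr0 : 0 < r := by rw [hr]; positivity
  obtain ⟨δ, hδ0, hδ1, hδ2⟩ : ∃ δ : ℝ, 0 < δ ∧ δ ≤ r * ((4 : ℝ) ^ c)⁻¹ ∧ δ ≤ ((2 : ℝ) ^ c)⁻¹ :=
    ⟨min (r * ((4 : ℝ) ^ c)⁻¹) (((2 : ℝ) ^ c)⁻¹), lt_min (by positivity) (by positivity), min_le_left _ _,
      min_le_right _ _⟩
  obtain ⟨n, hn⟩ := exists_nat_gt (M / δ)
  rw [div_lt_iff₀ hδ0] at hn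
  obtain ⟨x, hx⟩ := hno n
  have hn0 : (0 : ℝ) < n := by
    by_contra hcon
    have : (n : ℝ) * δ ≤ 0 := mul_nonpos_of_nonpos_of_nonneg (not_lt.1 hcon) hδ0.le
    linarith
  have hxpos : 0 < ‖x‖ := by
    rw [norm_pos_iff]
    rintro rfl
    rw [map_zero, norm_zero, mul_zero, add_zero] at hx
    have : 0 ≤ (n : ℝ) * ‖(0 : E).l2‖ := by positivity
    linarith
  set z : E := (‖x‖)⁻¹ • x with hz
  have hz1 : ‖z‖ = 1 := by
    rw [hz, norm_smul, norm_inv, norm_norm, inv_mul_cancel₀ hxpos.ne']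
  have hzl : ‖z.l2‖ = (‖x‖)⁻¹ * ‖x.l2‖ := by
    rw [hz, E.l2_smul, norm_smul, norm_inv, norm_norm]
  have hFz : (n : ℝ) * ‖z.l2‖ + ε < F z := by
    rw [hzl, hz, map_smul, smul_eq_mul]
    have h1 := mul_lt_mul_of_pos_left hx (inv_pos.2 hxpos)
    have h2 : (‖x‖)⁻¹ * ((n : ℝ) * ‖x.l2‖ + ε * ‖x‖) = (n : ℝ) * ((‖x‖)⁻¹ * ‖x.l2‖) + ε := by
      field_simp
    rw [h2] at h1
    exact h1
  have hFM : F z ≤ M := by
    have := (le_abs_self (F z)).trans (F.le_opNorm z)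
    rwa [hz1, mul_one] at this
  have hzδ : ‖z.l2‖ ≤ δ := by
    by_contra hcon
    have h1 : (n : ℝ) * δ ≤ n * ‖z.l2‖ := mul_le_mul_of_nonneg_left (not_le.1 hcon).le hn0.le
    linarith
  -- truncation
  obtain ⟨δ', hδ'0, hδ'⟩ := z.ac (show 0 < ε / (4 * (M + 1)) by positivity)
  obtain ⟨R, hR0, hR⟩ := z.large hδ'0
  have hC1 := measurableSet_le z r
  have hC2 := measurableSet_le z R
  set C1 : Set ℝ := {t | |z.l2 t| ≤ r} with hC1d
  set C2 : Set ℝ := {t | |z.l2 t| ≤ R} with hC2d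
  have hA : MeasurableSet (C2 \ C1) := hC2.diff hC1
  obtain ⟨β, hβ⟩ := pow_unbounded_of_one_lt R (show (1 : ℝ) < 2 by norm_num)
  have hYle : ∀ t, (C2 \ C1).indicator (fun t => |z.l2 t|) t ≤ |z.l2 t| := fun t =>
    Set.indicator_le_self' (fun _ _ => abs_nonneg _) t
  have hYR : ∀ t, (C2 \ C1).indicator (fun t => |z.l2 t|) t ≤ R := by
    intro t
    by_cases ht : t ∈ C2 \ C1
    · rw [Set.indicator_of_mem ht]
      exact ht.1
    · rw [Set.indicator_of_notMem ht]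
      exact hR0
  have hY : Bd ((C2 \ C1).indicator (fun t => |z.l2 t|)) :=
    ⟨(measurable_l2 z).abs.indicator hA, fun t => Set.indicator_nonneg (fun _ _ => abs_nonneg _) t, ⟨R, hYR⟩⟩
  refine ⟨(C2 \ C1).indicator (fun t => |z.l2 t|), z.res (C2 \ C1) hA, β, hY, ?_, ?_, ?_,
    fun t => (hYR t).trans hβ.le, ?_, ?_⟩
  · have hsub : {t | (C2 \ C1).indicator (fun t => |z.l2 t|) t ≠ 0} ⊆ C1ᶜ := by
      intro t ht h1
      exact ht (Set.indicator_of_notMem (fun h => h.2 h1) _)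
    refine (measureReal_mono hsub).trans ?_
    have h1 := cheb z hr0.le
    have h2 : ‖z.l2‖ ^ 2 ≤ r ^ 2 * ((16 : ℝ) ^ c)⁻¹ := by
      have h3 : ‖z.l2‖ ≤ r * ((4 : ℝ) ^ c)⁻¹ := hzδ.trans hδ1
      refine (pow_le_pow_left₀ (norm_nonneg _) h3 2).trans (le_of_eq ?_)
      rw [mul_pow, inv_pow, ← pow_mul, mul_comm c 2, pow_mul]
      norm_num
    have h3 := h1.trans h2
    exact le_of_mul_le_mul_left h3 (by positivity)
  · rw [← hY.gn, ← hz1]
    refine gn_mono z.good (hY.memLp 2) (Filter.Eventually.of_forall fun t => ?_)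
    rw [abs_of_nonneg (hY.nonneg t)]
    exact hYle t
  · refine le_trans ?_ hδ2
    refine le_trans ?_ hzδ
    rw [← norm_l2]
    refine Real.sqrt_le_sqrt (integral_mono (hY.memLp 2).integrable_sq z.good.memLp.integrable_sq fun t => ?_)
    dsimp only
    rw [← sq_abs (z.l2 t)]
    exact pow_le_pow_left₀ (hY.nonneg t) (hYle t) 2
  · filter_upwards [z.coe_res (C2 \ C1) hA] with t ht
    rw [ht]
    by_cases h1 : t ∈ C2 \ C1
    · rw [Set.indicator_of_mem h1, Set.indicator_of_mem h1]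
    · rw [Set.indicator_of_notMem h1, Set.indicator_of_notMem h1, abs_zero]
  · have e1 := congrArg F (z.res_add Set.univ C2 MeasurableSet.univ hC2)
    rw [z.res_univ, map_add, z.res_congr (MeasurableSet.univ.inter hC2) hC2 (Set.univ_inter _)] at e1
    have e2 := congrArg F (z.res_add C2 C1 hC2 hC1)
    rw [map_add] at e2
    have n1 : ‖z.res (Set.univ \ C2) (MeasurableSet.univ.diff hC2)‖ ≤ ε / (4 * (M + 1)) :=
      hδ' _ _ (by rw [← Set.compl_eq_univ_sdiff]; exact hR)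
    have n2 : ‖z.res (C2 ∩ C1) (hC2.inter hC1)‖ ≤ 2 * r := by
      rw [E.norm_res]
      refine (good_of_bdd (C := r) ((measurable_l2 z).indicator (hC2.inter hC1)).aestronglyMeasurable
        (Filter.Eventually.of_forall fun t => ?_)).2
      by_cases h1 : t ∈ C2 ∩ C1
      · rw [Set.indicator_of_mem h1]
        exact h1.2
      · rw [Set.indicator_of_notMem h1, abs_zero]
        exact hr0.le
    have m1 : F (z.res (Set.univ \ C2) (MeasurableSet.univ.diff hC2)) ≤ ε / 4 := by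
      refine ((le_abs_self _).trans (F.le_opNorm _)).trans ?_
      calc ‖F‖ * ‖z.res (Set.univ \ C2) (MeasurableSet.univ.diff hC2)‖ ≤ (M + 1) * (ε / (4 * (M + 1))) :=
            mul_le_mul (by linarith) n1 (norm_nonneg _) (by positivity)
        _ = ε / 4 := by field_simp
    have m2 : F (z.res (C2 ∩ C1) (hC2.inter hC1)) ≤ ε / 4 := by
      refine ((le_abs_self _).trans (F.le_opNorm _)).trans ?_
      calc ‖F‖ * ‖z.res (C2 ∩ C1) (hC2.inter hC1)‖ ≤ (M + 1) * (2 * r) :=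
            mul_le_mul (by linarith) n2 (norm_nonneg _) (by positivity)
        _ = ε / 4 := by rw [hr]; field_simp; norm_num
    have : 0 ≤ (n : ℝ) * ‖z.l2‖ := by positivity
    linarith

/-- functionals are almost continuous for the Hilbert norm -/
theorem exists_bound (F : E →L[ℝ] ℝ) {ε : ℝ} (hε : 0 < ε) : ∃ n : ℕ, ∀ x : E, F x ≤ n * ‖x.l2‖ + ε * ‖x‖ := by
  by_contra hcon
  push Not at hcon
  choose Y y β h1 h2 h3 h4 h5 h6 h7 using trunc_step F hε hcon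
  set c : ℕ → ℕ := fun n => Nat.rec 5 (fun _ p => p + β (p + 1) + 13) n with hc
  have hc0 : c 0 = 5 := rfl
  have hc1 : ∀ n, c (n + 1) = c n + β (c n + 1) + 13 := fun n => rfl
  clear_value c
  have hcm : StrictMono c := strictMono_nat_of_lt_succ fun n => by
    rw [hc1]
    omega
  have hTS : TS (fun n => Y (c n + 1)) c := by
    refine TS.build (fun n => (h1 _).meas) (fun n => (h1 _).nonneg) (fun n => h2 _) (fun n t => ?_) hcm (by omega)
    refine (mul_le_mul_of_nonneg_left (h5 _ t) (by norm_num)).trans ?_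
    rw [← pow_add]
    refine pow_le_pow_right₀ (by norm_num) ?_
    rw [hc1]
    omega
  obtain ⟨b, hb⟩ := exists_nat_gt (18 * ‖F‖ / ε)
  obtain ⟨a, ha0, ha1, ha2⟩ := cesaro hTS (fun n => h3 _) (fun n => (h4 _).trans
    (inv_anti₀ (by positivity) (pow_le_pow_right₀ (by norm_num) (by have := hcm.le_apply (x := n); omega))))
    (b + 1) (by omega)
  set w : E := ∑ n ∈ a.support, a n • y (c n + 1) with hw
  have e1 : ε / 2 ≤ F w := by
    rw [hw, map_sum]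
    have e2 : ∀ n ∈ a.support, a n * (ε / 2) ≤ F (a n • y (c n + 1)) := by
      intro n _
      rw [map_smul, smul_eq_mul]
      exact mul_le_mul_of_nonneg_left (h7 _) (ha0 n)
    refine le_trans (le_of_eq ?_) (Finset.sum_le_sum e2)
    rw [← Finset.sum_mul, ← tot_apply, ha1, one_mul]
  have e3 : ‖w‖ ≤ 9 / mm (b + 1) := by
    refine le_trans ?_ ha2
    have hB := hTS.bdU a ha0
    rw [← hB.gn]
    refine E.norm_le_of hB.good ?_
    filter_upwards [ae_sum_le (fun n => y (c n + 1)) (fun n => Y (c n + 1)) (fun n => h6 _) (fun n => a n)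
      a.support] with t ht
    refine ht.trans ((le_of_eq ?_).trans (le_abs_self _))
    rw [U_apply]
    refine Finset.sum_congr rfl fun n _ => ?_
    rw [abs_of_nonneg (ha0 n)]
  have e4 : F w ≤ ‖F‖ * (9 / mm (b + 1)) :=
    ((le_abs_self _).trans (F.le_opNorm w)).trans (mul_le_mul_of_nonneg_left e3 (norm_nonneg _))
  have hm := mm_real_pos (b + 1)
  have e5 : (b : ℝ) ≤ mm (b + 1) := by
    have := self_le_mm (b + 1)
    exact_mod_cast (by omega : b ≤ mm (b + 1))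
  rw [div_lt_iff₀ hε] at hb
  have e6 : ε / 2 * mm (b + 1) ≤ 9 * ‖F‖ := by
    have := mul_le_mul_of_nonneg_right (e1.trans e4) hm.le
    calc ε / 2 * mm (b + 1) ≤ ‖F‖ * (9 / mm (b + 1)) * mm (b + 1) := this
      _ = 9 * ‖F‖ := by field_simp
  have e7 : ε / 2 * b ≤ ε / 2 * mm (b + 1) := mul_le_mul_of_nonneg_left e5 (by positivity)
  linarith

/-- the square integrable functions are dense in the dual -/
theorem dense_dual (F : E →L[ℝ] ℝ) {ε : ℝ} (hε : 0 < ε) :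
    ∃ g : Lp ℝ 2 mu, ‖F - E.dual g‖ ≤ ε := by
  obtain ⟨n, hn⟩ := exists_bound F hε
  set D : Submodule ℝ (Lp ℝ 2 mu × E) := LinearMap.range ((E.toL2 : E →ₗ[ℝ] Lp ℝ 2 mu).prod LinearMap.id) with hD
  set f : (Lp ℝ 2 mu × E) →ₗ.[ℝ] ℝ :=
    ⟨D, (F : E →ₗ[ℝ] ℝ) ∘ₗ (LinearMap.snd ℝ (Lp ℝ 2 mu) E) ∘ₗ D.subtype⟩ with hf
  obtain ⟨g, hg1, hg2⟩ := exists_extension_of_le_sublinear f (fun p => (n : ℝ) * ‖p.1‖ + ε * ‖p.2‖)
    (fun c hc p => by
      simp only [Prod.smul_fst, Prod.smul_snd, norm_smul, Real.norm_of_nonneg hc.le]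
      ring)
    (fun p q => by
      have e1 := norm_add_le p.1 q.1
      have e2 := norm_add_le p.2 q.2
      have e3 : (n : ℝ) * ‖(p + q).1‖ ≤ n * (‖p.1‖ + ‖q.1‖) := mul_le_mul_of_nonneg_left e1 (Nat.cast_nonneg n)
      have e4 : ε * ‖(p + q).2‖ ≤ ε * (‖p.2‖ + ‖q.2‖) := mul_le_mul_of_nonneg_left e2 hε.le
      linarith)
    (by
      rintro ⟨p, hp⟩
      obtain ⟨x, rfl⟩ := hp
      exact hn x)
  -- the two parts
  have hgx : ∀ x : E, g (x.l2, x) = F x := by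
    intro x
    exact hg1 ⟨(x.l2, x), ⟨x, rfl⟩⟩
  set φ : Lp ℝ 2 mu →L[ℝ] ℝ := LinearMap.mkContinuous (g ∘ₗ LinearMap.inl ℝ (Lp ℝ 2 mu) E) n (fun z => by
    rw [Real.norm_eq_abs, abs_le]
    constructor
    · have h1 := hg2 (-z, 0)
      have h2 : g (-z, 0) = - g (z, 0) := by
        rw [← map_neg]
        simp
      rw [h2] at h1
      simp only [norm_neg, norm_zero, mul_zero, add_zero] at h1
      show -((n : ℝ) * ‖z‖) ≤ g (z, 0)
      linarith
    · have h1 := hg2 (z, 0)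
      simp only [norm_zero, mul_zero, add_zero] at h1
      exact h1) with hφ
  refine ⟨(InnerProductSpace.toDual ℝ (Lp ℝ 2 mu)).symm φ, ?_⟩
  have key : ∀ x : E, F x - E.dual ((InnerProductSpace.toDual ℝ (Lp ℝ 2 mu)).symm φ) x ≤ ε * ‖x‖ := by
    intro x
    rw [E.dual_apply, InnerProductSpace.toDual_symm_apply]
    have h1 : φ x.l2 = g (x.l2, 0) := rfl
    have h2 : g (x.l2, x) = g (x.l2, 0) + g (0, x) := by
      rw [← map_add]
      simp
    have h3 := hg2 (0, x)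
    simp only [norm_zero, mul_zero, zero_add] at h3
    rw [h1, ← hgx, h2]
    linarith
  refine ContinuousLinearMap.opNorm_le_bound _ hε.le fun x => ?_
  rw [Real.norm_eq_abs, abs_le, ContinuousLinearMap.sub_apply]
  constructor
  · have h1 := key (-x)
    rw [map_neg, map_neg, norm_neg] at h1
    linarith
  · exact key x

end Pool.Agent.Helper64.Tight
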