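import Mathlib
import Pool.Agent.Helper64.Tight.Half
import Pool.Agent.Helper64.Tight.Sgn

/-!
# No disjoint sequence has a complemented closed span
-/

open MeasureTheory
open scoped ENNReal symmDiff

namespace Pool.Agent.Helper64.Tight

lemma tendsto_disj {S : ℕ → Set ℝ} (hm : ∀ n, MeasurableSet (S n)) (hd : ∀ n m, n ≠ m → Disjoint (S n) (S m)) :
    Filter.Tendsto (fun n => mu.real (S n)) Filter.atTop (nhds 0) := by
  have h1 : ∑' n, mu (S n) ≠ ∞ := by
    rw [← measure_iUnion (fun n m hnm => hd n m hnm) hm]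
    exact measure_ne_top _ _
  have h2 := ENNReal.tendsto_atTop_zero_of_tsum_ne_top h1
  have h3 := (ENNReal.tendsto_toReal (show (0 : ℝ≥0∞) ≠ ∞ by simp)).comp h2
  rw [ENNReal.toReal_zero] at h3
  exact h3

/-- no disjoint sequence has a complemented closed span -/
theorem red (x : ℕ → E) (hx : ∀ n, x n ≠ 0) (hd : ∀ n m, n ≠ m → |x n| ⊓ |x m| = 0)
    (hc : (Submodule.span ℝ (Set.range x)).topologicalClosure.ClosedComplemented) : False := by
  classical
  obtain ⟨p, hp⟩ : ∃ p, p = (Submodule.span ℝ (Set.range x)).topologicalClosure := ⟨_, rfl⟩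
  rw [← hp] at hc
  obtain ⟨f, hf⟩ := hc
  set P : E →L[ℝ] E := p.subtypeL.comp f with hP
  have hPp : ∀ y, P y ∈ p := fun y => (f y).2
  have hxp : ∀ n, x n ∈ p := fun n => by
    rw [hp]
    exact Submodule.le_topologicalClosure _ (Submodule.subset_span ⟨n, rfl⟩)
  have hPx : ∀ n, P (x n) = x n := by
    intro n
    have h1 := hf ⟨x n, hxp n⟩
    have h2 : P (x n) = (f (x n) : E) := rfl
    rw [h2]
    exact congrArg Subtype.val h1
  set X : ℕ → ℝ → ℝ := fun n => (x n).l2 with hX
  have hXm : ∀ n, Measurable (X n) := fun n => measurable_l2 (x n)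
  -- almost everywhere disjointness
  have hae : ∀ n m, n ≠ m → ∀ᵐ t ∂mu, X n t = 0 ∨ X m t = 0 := by
    intro n m hnm
    have h1 := congrArg E.l2 (hd n m hnm)
    rw [E.l2_inf, E.l2_abs, E.l2_abs, E.l2_zero] at h1
    filter_upwards [Lp.coeFn_inf |(x n).l2| |(x m).l2|, Lp.coeFn_abs (x n).l2, Lp.coeFn_abs (x m).l2,
      Lp.coeFn_zero ℝ 2 mu] with t e1 e2 e3 e4
    rw [h1, e4, Pi.inf_apply, e2, e3, Pi.zero_apply] at e1
    rcases le_total |X n t| |X m t| with h2 | h2
    · left
      have h3 : |(x n).l2 t| ⊓ |(x m).l2 t| = |X n t| := inf_eq_left.2 h2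
      rw [h3] at e1
      exact abs_eq_zero.1 e1.symm
    · right
      have h3 : |(x n).l2 t| ⊓ |(x m).l2 t| = |X m t| := inf_eq_right.2 h2
      rw [h3] at e1
      exact abs_eq_zero.1 e1.symm
  -- everywhere disjoint versions
  set D : ℕ → Set ℝ := fun n => {t | ∀ m < n, X m t = 0} with hD
  have hDm : ∀ n, MeasurableSet (D n) := by
    intro n
    have h1 : D n = ⋂ m ∈ Finset.range n, (X m) ⁻¹' {0} := by
      ext t
      simp [hD]
    rw [h1]
    exact Finset.measurableSet_biInter _ fun m _ => hXm m (measurableSet_singleton 0)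
  set G : ℕ → ℝ → ℝ := fun n => (D n).indicator (X n) with hG
  have hGm : ∀ n, Measurable (G n) := fun n => (hXm n).indicator (hDm n)
  have hGle : ∀ n t, |G n t| ≤ |X n t| := by
    intro n t
    by_cases ht : t ∈ D n
    · rw [hG]
      dsimp only
      rw [Set.indicator_of_mem ht]
    · rw [hG]
      dsimp only
      rw [Set.indicator_of_notMem ht, abs_zero]
      exact abs_nonneg _
  have hXG : ∀ n, X n =ᵐ[mu] G n := by
    intro n
    have h1 : ∀ᵐ t ∂mu, ∀ m, m < n → (X n t = 0 ∨ X m t = 0) := by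
      rw [ae_all_iff]
      intro m
      rcases lt_or_ge m n with h | h
      · filter_upwards [hae n m h.ne'] with t ht _
        exact ht
      · exact Filter.Eventually.of_forall fun t h2 => absurd h2 (not_lt.2 h)
    filter_upwards [h1] with t ht
    by_cases h2 : X n t = 0
    · have h3 : |G n t| ≤ 0 := by
        have := hGle n t
        rwa [h2, abs_zero] at this
      rw [h2, abs_nonpos_iff.1 h3]
    · have h3 : t ∈ D n := fun m hm => (ht m hm).resolve_left h2
      show X n t = (D n).indicator (X n) t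
      rw [Set.indicator_of_mem h3]
  have hGd : ∀ n m, n ≠ m → ∀ t, G n t = 0 ∨ G m t = 0 := by
    have key : ∀ n m, n < m → ∀ t, G n t = 0 ∨ G m t = 0 := by
      intro n m hnm t
      by_cases h1 : X n t = 0
      · left
        have h3 : |G n t| ≤ 0 := by
          have := hGle n t
          rwa [h1, abs_zero] at this
        exact abs_nonpos_iff.1 h3
      · right
        have h2 : t ∉ D m := fun h => h1 (h n hnm)
        show (D m).indicator (X m) t = 0
        rw [Set.indicator_of_notMem h2]
    intro n m hnm t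
    rcases lt_or_gt_of_ne hnm with h | h
    · exact key n m h t
    · exact (key m n h t).symm
  have hGL : ∀ n, MemLp (G n) 2 mu := fun n => (x n).good.memLp.ae_eq (hXG n)
  -- the coordinate functionals
  set I : ℕ → ℝ := fun n => ∫ t, G n t * G n t ∂mu with hI
  have hIpos : ∀ n, 0 < I n := by
    intro n
    have h1 : (x n).l2 ≠ 0 := fun h => hx n (E.ext h)
    have h2 : 0 < ‖(x n).l2‖ := norm_pos_iff.2 h1
    rw [← norm_l2, Real.sqrt_pos] at h2
    have h3 : ∫ t, (x n).l2 t ^ 2 ∂mu = I n := by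
      refine integral_congr_ae ?_
      filter_upwards [hXG n] with t ht
      have h4 : (x n).l2 t = G n t := ht
      rw [h4, sq]
    rwa [h3] at h2
  set ℓ : ℕ → E →L[ℝ] ℝ := fun n => (I n)⁻¹ • E.pair (G n) (hGL n) with hℓ
  have hpairx : ∀ (φ : ℝ → ℝ) (hφ : MemLp φ 2 mu) n, E.pair φ hφ (x n) = ∫ t, φ t * G n t ∂mu := by
    intro φ hφ n
    rw [E.pair_apply]
    refine integral_congr_ae ?_
    filter_upwards [hXG n] with t ht
    have h4 : (x n).l2 t = G n t := ht
    rw [h4]
  have hℓ1 : ∀ n, ℓ n (x n) = 1 := by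
    intro n
    rw [hℓ]
    dsimp only
    rw [ContinuousLinearMap.smul_apply, hpairx, smul_eq_mul]
    exact inv_mul_cancel₀ (hIpos n).ne'
  have hℓ0 : ∀ n m, n ≠ m → ℓ n (x m) = 0 := by
    intro n m hnm
    rw [hℓ]
    dsimp only
    rw [ContinuousLinearMap.smul_apply, hpairx, smul_eq_mul]
    have h1 : ∫ t, G n t * G m t ∂mu = 0 := by
      have : ∀ t, G n t * G m t = 0 := by
        intro t
        rcases hGd n m hnm t with h | h <;> rw [h] <;> ring
      simp_rw [this]
      simp
    rw [h1, mul_zero]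
  have hspan : ∀ (z : E) (m : ℕ) (i : ℕ) (f : ℝ → ℝ) (hf : W i f),
      E.pair (fun t => f t * sg (G m t)) (memLp_sg hf (hGm m)) (P z) = ℓ m (P z) * pr f (fun t => |G m t|) := by
    intro z m i g hg
    set T : E →L[ℝ] ℝ := E.pair (fun t => g t * sg (G m t)) (memLp_sg hg (hGm m)) -
      (pr g (fun t => |G m t|)) • ℓ m with hT
    have h1 : p ≤ LinearMap.ker (T : E →ₗ[ℝ] ℝ) := by
      rw [hp]
      refine Submodule.topologicalClosure_minimal _ ?_ (ContinuousLinearMap.isClosed_ker T)
      rw [Submodule.span_le]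
      rintro _ ⟨n, rfl⟩
      show T (x n) = 0
      rw [hT, ContinuousLinearMap.sub_apply, ContinuousLinearMap.smul_apply, hpairx, smul_eq_mul]
      by_cases hnm : m = n
      · subst hnm
        rw [hℓ1, mul_one]
        have h2 : ∀ t, g t * sg (G m t) * G m t = g t * |G m t| := by
          intro t
          rw [mul_assoc, sg_mul_self]
        simp_rw [h2]
        unfold pr
        rw [sub_self]
      · rw [hℓ0 m n hnm, mul_zero, sub_zero]
        have h2 : ∀ t, g t * sg (G m t) * G n t = 0 := by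
          intro t
          rcases hGd m n hnm t with h | h
          · rw [h, sg_zero]; ring
          · rw [h]; ring
        simp_rw [h2]
        simp
    have h2 : T (P z) = 0 := h1 (hPp z)
    rw [hT, ContinuousLinearMap.sub_apply, ContinuousLinearMap.smul_apply, smul_eq_mul] at h2
    linarith
  -- halves
  have hhalf := fun n => half (x n) ((ℓ n).comp P) (by
    rw [ContinuousLinearMap.comp_apply, hPx, hℓ1])
  choose B B' hB hB' R hR0 hBB hBR hBR' hθ hθ' using hhalf
  set u : ℕ → ℝ → ℝ := fun n => (B n).indicator (fun t => |G n t|) with hu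
  set v : ℕ → ℝ → ℝ := fun n => (B' n).indicator (fun t => |G n t|) with hv
  have hbd : ∀ (A : ℕ → Set ℝ), (∀ n, MeasurableSet (A n)) → (∀ n, ∀ t ∈ A n, |(x n).l2 t| ≤ R n) →
      ∀ n, Bd ((A n).indicator (fun t => |G n t|)) := by
    intro A hA hAR n
    refine ⟨(hGm n).abs.indicator (hA n), fun t => Set.indicator_nonneg (fun _ _ => abs_nonneg _) t,
      ⟨R n, fun t => ?_⟩⟩
    by_cases ht : t ∈ A n
    · rw [Set.indicator_of_mem ht]
      exact (hGle n t).trans (hAR n t ht)
    · rw [Set.indicator_of_notMem ht]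
      exact hR0 n
  have hres : ∀ (A : ℕ → Set ℝ) (hA : ∀ n, MeasurableSet (A n)) n,
      ∀ᵐ t ∂mu, |((x n).res (A n) (hA n)).l2 t| ≤ (A n).indicator (fun t => |G n t|) t := by
    intro A hA n
    filter_upwards [(x n).coe_res (A n) (hA n), hXG n] with t h1 h2
    rw [h1]
    by_cases ht : t ∈ A n
    · rw [Set.indicator_of_mem ht, Set.indicator_of_mem ht]
      have h3 : (x n).l2 t = G n t := h2
      rw [h3]
    · rw [Set.indicator_of_notMem ht, Set.indicator_of_notMem ht, abs_zero]
  have hbu : ∀ n, Bd (u n) := hbd B hB hBR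
  have hbv : ∀ n, Bd (v n) := hbd B' hB' hBR'
  have hleu : ∀ n t, u n t ≤ |G n t| := fun n t => Set.indicator_le_self' (fun _ _ => abs_nonneg _) t
  have hlev : ∀ n t, v n t ≤ |G n t| := fun n t => Set.indicator_le_self' (fun _ _ => abs_nonneg _) t
  have hzero : ∀ n t, G n t = 0 → u n t = 0 ∧ v n t = 0 := by
    intro n t h
    have h1 := hleu n t
    have h2 := hlev n t
    rw [h, abs_zero] at h1 h2
    exact ⟨le_antisymm h1 ((hbu n).nonneg t), le_antisymm h2 ((hbv n).nonneg t)⟩
  have hsupp : Filter.Tendsto (fun n => mu.real {t | G n t ≠ 0}) Filter.atTop (nhds 0) := by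
    refine tendsto_disj (fun n => measurableSet_supp (hGm n)) fun n m hnm => ?_
    rw [Set.disjoint_left]
    intro t h1 h2
    rcases hGd n m hnm t with h | h
    · exact h1 h
    · exact h2 h
  have hpos : ∀ n, 0 < nrm (u n) := by
    intro n
    have h1 : (x n).res (B n) (hB n) ≠ 0 := by
      intro h
      have h2 := hθ n
      rw [h, map_zero] at h2
      norm_num at h2
    have h2 : 0 < ‖(x n).res (B n) (hB n)‖ := norm_pos_iff.2 h1
    refine h2.trans_le ?_
    rw [← (hbu n).gn]
    refine E.norm_le_of (hbu n).good ?_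
    filter_upwards [hres B hB n] with t ht
    exact ht.trans (le_abs_self _)
  -- the inequalities
  have hineq : ∀ (A A' : ℕ → Set ℝ) (hA : ∀ n, MeasurableSet (A n)) (hA' : ∀ n, MeasurableSet (A' n)),
      (∀ n, ∀ t ∈ A n, |(x n).l2 t| ≤ R n) → (∀ n, ∀ t ∈ A' n, |(x n).l2 t| ≤ R n) →
      (∀ n, 1 / 4 ≤ ((ℓ n).comp P) ((x n).res (A n) (hA n))) → ∀ (F : Finset ℕ) (a : ℕ → ℝ), (∀ n, 0 ≤ a n) →
      nrm (fun t => ∑ n ∈ F, a n * (A' n).indicator (fun t => |G n t|) t) ≤
        max (4 * ‖P‖) 1 * nrm (fun t => ∑ n ∈ F, a n * (A n).indicator (fun t => |G n t|) t) := by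
    intro A A' hA hA' hAR hAR' hAθ F a ha
    have hb1 := hbd A hA hAR
    have hb2 := hbd A' hA' hAR'
    refine nrm_le fun i g hg => ?_
    have h1 := key_ineq G hGm hGd P ℓ hspan (fun n => (x n).res (A n) (hA n))
      (fun n => (A n).indicator (fun t => |G n t|)) hb1 (hres A hA) hAθ F a ha hg
    have h2 : pr g (fun t => ∑ n ∈ F, a n * (A' n).indicator (fun t => |G n t|) t) ≤
        ∑ n ∈ F, a n * pr g (fun t => |G n t|) := by
      rw [pr_sum (N := 0) F (x := fun n t => a n * (A' n).indicator (fun t => |G n t|) t)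
        (fun k _ => ((hb2 k).smul (ha k)).integrable_mul hg)]
      refine Finset.sum_le_sum fun n _ => ?_
      rw [pr_smul]
      refine mul_le_mul_of_nonneg_left ?_ (ha n)
      exact pr_mono_ae hg ((hb2 n).memLp 2) (memLp_abs (hGL n)) (Filter.Eventually.of_forall fun t =>
        Set.indicator_le_self' (fun _ _ => abs_nonneg _) t)
    refine h2.trans (h1.trans ?_)
    exact mul_le_mul_of_nonneg_right (le_max_left _ _) (Bd.sum hb1 F ha).nrm_nonneg
  refine no_pair (u := u) (v := v) (K := max (4 * ‖P‖) 1) (le_max_right _ _) hbu hbv hpos ?_ ?_ ?_ ?_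
    (hineq B B' hB hB' hBR hBR' hθ) (hineq B' B hB' hB hBR' hBR hθ')
  · refine squeeze_zero (fun n => measureReal_nonneg) (fun n => measureReal_mono fun t ht => ?_) hsupp
    intro h
    exact ht (hzero n t h).1
  · refine squeeze_zero (fun n => measureReal_nonneg) (fun n => measureReal_mono fun t ht => ?_) hsupp
    intro h
    exact ht (hzero n t h).2
  · intro n m t
    by_cases hnm : n = m
    · subst hnm
      by_cases ht : t ∈ B n
      · right
        exact Set.indicator_of_notMem (Set.disjoint_left.1 (hBB n) ht) _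
      · left
        exact Set.indicator_of_notMem ht _
    · rcases hGd n m hnm t with h | h
      · left
        exact (hzero n t h).1
      · right
        exact (hzero m t h).2
  · intro n m hnm t
    rcases hGd n m hnm t with h | h
    · left
      exact (hzero n t h).1
    · right
      exact (hzero m t h).1

end Pool.Agent.Helper64.Tight
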