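import Mathlib
import Pool.Agent.Helper64.Tight.Dens
import Pool.Agent.Helper64.Tight.Red

/-!
# Reflexivity and infinite dimension
-/

open MeasureTheory
open scoped ENNReal symmDiff InnerProductSpace

namespace Pool.Agent.Helper64.Tight

/-- the space is reflexive -/
theorem reflexive : Function.Surjective (NormedSpace.inclusionInDoubleDual ℝ E) := by
  intro Λ
  set T : Lp ℝ 2 mu →ₗ[ℝ] ℝ :=
    { toFun := fun g => Λ (E.dual g)
      map_add' := fun g g' => by rw [E.dual_add, map_add]
      map_smul' := fun c g => by rw [E.dual_smul, map_smul]; rfl } with hT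
  set Tc : Lp ℝ 2 mu →L[ℝ] ℝ := T.mkContinuous ‖Λ‖ (fun g =>
    (Λ.le_opNorm (E.dual g)).trans (mul_le_mul_of_nonneg_left (E.dual_norm g) (norm_nonneg _))) with hTc
  set x0 : Lp ℝ 2 mu := (InnerProductSpace.toDual ℝ (Lp ℝ 2 mu)).symm Tc with hx0d
  have hx0 : ∀ g, ⟪x0, g⟫_ℝ = Λ (E.dual g) := by
    intro g
    rw [hx0d, InnerProductSpace.toDual_symm_apply]
    rfl
  have hx0m : Measurable (x0 : ℝ → ℝ) := (Lp.stronglyMeasurable x0).measurable
  have hgood : Good x0 := by
    refine ⟨Lp.memLp x0, ‖Λ‖, fun i f hf => ?_⟩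
    have h1 : ⟪(memLp_sg hf hx0m).toLp (fun t => f t * sg (x0 t)), x0⟫_ℝ = pr f (fun t => |x0 t|) := by
      rw [inner_eq]
      refine integral_congr_ae (Filter.Eventually.of_forall fun t => ?_)
      dsimp only
      rw [mul_assoc, sg_mul_self]
    have h2 : ‖E.dual ((memLp_sg hf hx0m).toLp (fun t => f t * sg (x0 t)))‖ ≤ 1 := by
      refine ContinuousLinearMap.opNorm_le_bound _ zero_le_one fun y => ?_
      rw [one_mul]
      refine le_trans ?_ (y.good.pr_le hf)
      have h3 : E.dual ((memLp_sg hf hx0m).toLp (fun t => f t * sg (x0 t))) y =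
          ∫ t, f t * sg (x0 t) * y.l2 t ∂mu := inner_eq _ _
      rw [h3]
      refine (norm_integral_le_integral_norm _).trans ?_
      refine integral_mono ?_ (int_mul hf (memLp_abs y.good.memLp)) fun t => ?_
      · exact ((memLp_sg hf hx0m).integrable_mul y.good.memLp).norm
      · dsimp only
        rw [norm_mul, norm_mul, Real.norm_of_nonneg (hf.nn t), Real.norm_eq_abs, Real.norm_eq_abs]
        have h4 := abs_sg_le (x0 t)
        have h5 : 0 ≤ f t * |y.l2 t| := mul_nonneg (hf.nn t) (abs_nonneg _)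
        nlinarith
    rw [← h1, real_inner_comm, hx0]
    refine ((le_abs_self _).trans (Λ.le_opNorm _)).trans ?_
    have := mul_le_mul_of_nonneg_left h2 (norm_nonneg Λ)
    rwa [mul_one] at this
  refine ⟨E.mk x0 hgood, ?_⟩
  ext F
  rw [NormedSpace.dual_def]
  set x : E := E.mk x0 hgood with hx
  have key : ∀ ε : ℝ, 0 < ε → |F x - Λ F| ≤ ε * (‖x‖ + ‖Λ‖) := by
    intro ε hε
    obtain ⟨g, hg⟩ := dense_dual F hε
    have h1 : E.dual g x = Λ (E.dual g) := by
      rw [← hx0 g, E.dual_apply, real_inner_comm]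
      rfl
    have h2 : F x - Λ F = (F - E.dual g) x - Λ (F - E.dual g) := by
      rw [map_sub, ContinuousLinearMap.sub_apply, h1]
      ring
    have h3 := (F - E.dual g).le_opNorm x
    have h4 := Λ.le_opNorm (F - E.dual g)
    rw [h2]
    refine (abs_sub _ _).trans ?_
    rw [Real.norm_eq_abs] at h3 h4
    have h5 := mul_le_mul_of_nonneg_right hg (norm_nonneg x)
    have h6 := mul_le_mul_of_nonneg_left hg (norm_nonneg Λ)
    linarith
  have h1 : |F x - Λ F| ≤ 0 := by
    refine le_of_forall_pos_le_add fun ε hε => ?_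
    have h2 := key (ε / (‖x‖ + ‖Λ‖ + 1)) (by positivity)
    rw [zero_add]
    refine h2.trans ?_
    rw [div_mul_eq_mul_div, div_le_iff₀ (by positivity)]
    have := norm_nonneg x
    have := norm_nonneg Λ
    nlinarith
  have h2 := abs_nonpos_iff.1 h1
  linarith

/-- small intervals -/
def Iv (n : ℕ) : Set ℝ := Set.Ioc (1 / ((n : ℝ) + 2)) (1 / ((n : ℝ) + 1))

lemma Iv_disj {n m : ℕ} (h : n ≠ m) : Disjoint (Iv n) (Iv m) := by
  have key : ∀ n m : ℕ, n < m → Disjoint (Iv n) (Iv m) := by
    intro n m hnm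
    rw [Set.disjoint_left]
    rintro t ⟨h1, _⟩ ⟨_, h2⟩
    have h3 : (1 : ℝ) / (m + 1) ≤ 1 / (n + 2) := by
      refine one_div_le_one_div_of_le (by positivity) ?_
      have : (n : ℝ) + 1 ≤ m := by exact_mod_cast hnm
      linarith
    linarith
  rcases lt_or_gt_of_ne h with h | h
  · exact key n m h
  · exact (key m n h).symm

lemma Iv_meas (n : ℕ) : MeasurableSet (Iv n) := measurableSet_Ioc

lemma Iv_pos (n : ℕ) : 0 < mu.real (Iv n) := by
  have h1 : mu (Iv n) = volume (Iv n) := by
    unfold mu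
    rw [Measure.restrict_apply (Iv_meas n)]
    congr 1
    refine Set.inter_eq_left.2 ?_
    rintro t ⟨h1, h2⟩
    refine ⟨le_trans (by positivity) h1.le, h2.trans ?_⟩
    rw [div_le_one (by positivity)]
    have : (0 : ℝ) ≤ n := Nat.cast_nonneg n
    linarith
  unfold Measure.real
  rw [h1]
  unfold Iv
  rw [Real.volume_Ioc, ENNReal.toReal_ofReal']
  refine lt_max_of_lt_left ?_
  rw [sub_pos]
  exact one_div_lt_one_div_of_lt (by positivity) (by linarith)

/-- the space is infinite dimensional -/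
theorem infinite : ¬ FiniteDimensional ℝ E := by
  intro hfin
  have hg : ∀ n, Good ((Iv n).indicator (fun _ => (1 : ℝ))) := fun n =>
    (good_of_bdd (C := 1) (measurable_const.indicator (Iv_meas n)).aestronglyMeasurable
      (Filter.Eventually.of_forall fun t => by
        by_cases ht : t ∈ Iv n
        · rw [Set.indicator_of_mem ht, abs_one]
        · rw [Set.indicator_of_notMem ht, abs_zero]
          exact zero_le_one)).1
  set x : ℕ → E := fun n => E.of ((Iv n).indicator (fun _ => (1 : ℝ))) (hg n) with hx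
  refine red x (fun n h0 => ?_) (fun n m hnm => ?_) ?_
  · have h1 := E.coe_of _ (hg n)
    have h2 : (E.of ((Iv n).indicator (fun _ => (1 : ℝ))) (hg n)).l2 = 0 := by
      have h3 : E.of ((Iv n).indicator (fun _ => (1 : ℝ))) (hg n) = 0 := h0
      rw [h3]
      rfl
    rw [h2] at h1
    have h4 : ∫ t, (Iv n).indicator (fun _ => (1 : ℝ)) t ∂mu = 0 := by
      rw [← integral_congr_ae h1, integral_congr_ae (Lp.coeFn_zero ℝ 2 mu)]
      simp
    rw [integral_indicator (Iv_meas n), setIntegral_const, smul_eq_mul, mul_one] at h4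
    exact (Iv_pos n).ne' h4
  · refine E.ext_ae ?_
    rw [E.l2_inf, E.l2_abs, E.l2_abs, E.l2_zero]
    filter_upwards [Lp.coeFn_inf |(x n).l2| |(x m).l2|, Lp.coeFn_abs (x n).l2, Lp.coeFn_abs (x m).l2,
      Lp.coeFn_zero ℝ 2 mu, E.coe_of _ (hg n), E.coe_of _ (hg m)] with t e1 e2 e3 e4 e5 e6
    rw [e1, e4, Pi.inf_apply, e2, e3, Pi.zero_apply]
    have e5' : (x n).l2 t = (Iv n).indicator (fun _ => (1 : ℝ)) t := e5
    have e6' : (x m).l2 t = (Iv m).indicator (fun _ => (1 : ℝ)) t := e6
    rw [e5', e6']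
    by_cases ht : t ∈ Iv n
    · rw [Set.indicator_of_notMem (Set.disjoint_left.1 (Iv_disj hnm) ht), abs_zero]
      exact inf_eq_right.2 (abs_nonneg _)
    · rw [Set.indicator_of_notMem ht, abs_zero]
      exact inf_eq_left.2 (abs_nonneg _)
  · exact Submodule.ClosedComplemented.of_finiteDimensional _

end Pool.Agent.Helper64.Tight
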